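import Pool.Agent.Lib.JM_H15.Comp

/-!
# Removing the first variable: the embedding `FF k m → FF k (m + 1)` (OWNER: helper83)
-/

set_option autoImplicit false

open MvPolynomial

namespace Pool.Agent.JMF

open Pool.Agent.H15JM

/-- The restriction of a real valuation along a homomorphism of fields. -/
def rcomap {K L : Type*} [Field K] [Field L] (φ : K →+* L) (w : RVal L) : RVal K where
  toFun x := w (φ x)
  map_mul' x y hx hy := by
    rw [_root_.map_mul]
    exact w.map_mul ((_root_.map_ne_zero φ).mpr hx) ((_root_.map_ne_zero φ).mpr hy)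
  map_add' x y hx hy hxy := by
    rw [_root_.map_add]
    exact w.map_add ((_root_.map_ne_zero φ).mpr hx) ((_root_.map_ne_zero φ).mpr hy)
      (by rw [← _root_.map_add]; exact (_root_.map_ne_zero φ).mpr hxy)

@[simp] theorem rcomap_apply {K L : Type*} [Field K] [Field L] (φ : K →+* L) (w : RVal L) (x : K) :
    rcomap φ w x = w (φ x) := rfl

theorem rcomap_ge {K L : Type*} [Field K] [Field L] (φ : K →+* L) (w : RVal L) (c : ℝ) (x : K) :
    (rcomap φ w).Ge c x ↔ w.Ge c (φ x) := by
  unfold RVal.Ge
  rw [rcomap_apply, Ne, Ne, map_eq_zero]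

variable {k : Type} [Field k] {m : ℕ}

/-- The inclusion of the polynomials in the last `m` variables. -/
noncomputable def embP : MvPolynomial (Fin m) k →ₐ[k] MvPolynomial (Fin (m + 1)) k :=
  rename Fin.succ

theorem embP_injective : Function.Injective (embP (k := k) (m := m)) :=
  rename_injective _ (Fin.succ_injective m)

theorem embP_ne_zero {p : MvPolynomial (Fin m) k} (hp : p ≠ 0) : embP p ≠ 0 := fun h =>
  hp (embP_injective (by rw [h, _root_.map_zero]))

theorem embP_eq (p : MvPolynomial (Fin m) k) :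
    finSuccEquiv k m (embP p) = Polynomial.C p := by
  induction p using MvPolynomial.induction_on with
  | C a =>
    rw [embP, rename_C, finSuccEquiv_apply]
    simp
  | add p q hp hq => rw [_root_.map_add, _root_.map_add, hp, hq, Polynomial.C_add]
  | mul_X p i hp =>
    rw [_root_.map_mul, _root_.map_mul, hp, embP, rename_X, finSuccEquiv_X_succ, Polynomial.C_mul]

theorem totalDegree_embP_le (p : MvPolynomial (Fin m) k) :
    (embP p).totalDegree ≤ p.totalDegree :=
  totalDegree_rename_le _ p

theorem totalDegree_embP (p : MvPolynomial (Fin m) k) : (embP p).totalDegree = p.totalDegree := by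
  by_cases hp : p = 0
  · rw [hp, _root_.map_zero, totalDegree_zero, totalDegree_zero]
  refine le_antisymm (totalDegree_embP_le p) ?_
  have h := totalDegree_coeff_finSuccEquiv_add_le (embP p) 0
    (by rw [embP_eq, Polynomial.coeff_C_zero]; exact hp)
  rwa [embP_eq, Polynomial.coeff_C_zero, add_zero] at h

theorem toFF_comp_embP_injective :
    Function.Injective ((toFF (k := k) (n := m + 1)).comp (embP (k := k) (m := m))) := by
  rw [AlgHom.coe_comp]
  exact toFF_injective.comp embP_injective

/-- The inclusion of the field of rational functions in the last `m` variables. -/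
noncomputable def emb : FF k m →ₐ[k] FF k (m + 1) :=
  IsFractionRing.liftAlgHom (g := toFF.comp embP) toFF_comp_embP_injective

theorem emb_toFF (p : MvPolynomial (Fin m) k) : emb (toFF p) = toFF (embP p) := by
  rw [emb, toFF_apply, IsFractionRing.liftAlgHom_apply]
  exact IsFractionRing.lift_algebraMap _ _

theorem emb_ne_zero {f : FF k m} (hf : f ≠ 0) : emb f ≠ 0 :=
  (_root_.map_ne_zero (emb (k := k) (m := m))).mpr hf

/-- the quotient rule. -/
theorem der_div {K : Type*} [Field K] [Algebra k K] (D : Derivation k K K) (a b : K) (hb : b ≠ 0) :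
    D (a / b) = (D a * b - a * D b) / b ^ 2 := by
  have h := D.leibniz (a / b) b
  rw [div_mul_cancel₀ _ hb, smul_eq_mul, smul_eq_mul] at h
  field_simp
  field_simp at h
  linear_combination -h

theorem pderiv_zero_embP (p : MvPolynomial (Fin m) k) : pderiv 0 (embP p) = 0 := by
  induction p using MvPolynomial.induction_on with
  | C a => rw [embP, rename_C, pderiv_C]
  | add p q hp hq => rw [_root_.map_add, _root_.map_add, hp, hq, add_zero]
  | mul_X p i hp =>
    rw [_root_.map_mul, Derivation.leibniz, hp, smul_zero, add_zero, embP, rename_X,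
      pderiv_X_of_ne (Fin.succ_ne_zero i), smul_zero]

theorem pderiv_succ_embP (i : Fin m) (p : MvPolynomial (Fin m) k) :
    pderiv i.succ (embP p) = embP (pderiv i p) := by
  induction p using MvPolynomial.induction_on with
  | C a => rw [embP, rename_C, pderiv_C, pderiv_C, _root_.map_zero]
  | add p q hp hq => simp only [_root_.map_add, hp, hq]
  | mul_X p j hp =>
    rw [_root_.map_mul, Derivation.leibniz, Derivation.leibniz, hp, _root_.map_add]
    simp only [smul_eq_mul, _root_.map_mul]
    congr 2
    rw [show (embP (X j) : MvPolynomial (Fin (m + 1)) k) = X j.succ from rename_X _ _]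
    by_cases h : j = i
    · subst h
      rw [pderiv_X_self, pderiv_X_self, _root_.map_one]
    · rw [pderiv_X_of_ne (by simpa using h), pderiv_X_of_ne h, _root_.map_zero]

theorem pd_zero_emb (f : FF k m) : pd 0 (emb f) = 0 := by
  obtain ⟨p, q, hq, rfl⟩ := exists_frac f
  rw [map_div₀, emb_toFF, emb_toFF, der_div _ _ _ (toFF_ne_zero (embP_ne_zero hq)), pd_toFF,
    pd_toFF, pderiv_zero_embP, pderiv_zero_embP]
  simp

theorem pd_succ_emb (i : Fin m) (f : FF k m) : pd i.succ (emb f) = emb (pd i f) := by
  obtain ⟨p, q, hq, rfl⟩ := exists_frac f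
  rw [map_div₀, emb_toFF, emb_toFF, der_div _ _ _ (toFF_ne_zero (embP_ne_zero hq)),
    der_div _ _ _ (toFF_ne_zero hq), pd_toFF, pd_toFF, pderiv_succ_embP, pderiv_succ_embP,
    pd_toFF, pd_toFF]
  simp only [map_div₀, _root_.map_sub, _root_.map_mul, _root_.map_pow, emb_toFF]

/-- The Jacobian of `(g, f_1, …, f_m)` with `f_i` in the smaller field. -/
theorem jacD_cons (g : FF k (m + 1)) (f : Fin m → FF k m) :
    jacD pd (Fin.cons g fun i => emb (f i) : Fin (m + 1) → FF k (m + 1))
      = pd 0 g * emb (jacD pd f) := by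
  rw [jacD, Matrix.det_succ_row_zero]
  rw [Fin.sum_univ_succ]
  have h0 : ∀ i : Fin m, (Matrix.of fun j i => pd j
      ((Fin.cons g fun i => emb (f i) : Fin (m + 1) → FF k (m + 1)) i)) 0 i.succ = 0 := by
    intro i
    rw [Matrix.of_apply, Fin.cons_succ, pd_zero_emb]
  rw [Finset.sum_eq_zero fun i _ => by rw [h0 i]; ring, add_zero]
  rw [Matrix.of_apply, Fin.cons_zero]
  simp only [Fin.val_zero, pow_zero, one_mul]
  congr 1
  rw [jacD]
  have h1 : (emb (Matrix.det (Matrix.of fun j i => pd j (f i))) : FF k (m + 1))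
      = Matrix.det ((emb (k := k) (m := m)).toRingHom.mapMatrix (Matrix.of fun j i => pd j (f i))) :=
    RingHom.map_det _ _
  rw [h1]
  congr 1
  ext i j
  rw [Matrix.submatrix_apply, Matrix.of_apply, Fin.succAbove_zero, Fin.cons_succ, pd_succ_emb]
  rfl

/-- `A(v|L_m) ≤ A(v) - s`, with `s` the supremum of `v g - v (∂g/∂z)`. -/
theorem disc_emb (v : RVal (FF k (m + 1))) (A s : ℝ)
    (hA : ∀ f : Fin (m + 1) → FF k (m + 1), jacD pd f ≠ 0 →
      ∑ i, v (f i) - v (jacD pd f) ≤ A)
    (hs : ∀ ε > 0, ∃ g, pd 0 g ≠ 0 ∧ s - ε ≤ v g - v (pd 0 g))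
    (f : Fin m → FF k m) (hf : jacD pd f ≠ 0) :
    ∑ i, rcomap (emb (k := k) (m := m)).toRingHom v (f i)
      - rcomap (emb (k := k) (m := m)).toRingHom v (jacD pd f) ≤ A - s := by
  refine le_of_forall_pos_le_add fun ε hε => ?_
  obtain ⟨g, hg, hgs⟩ := hs ε hε
  have h1 := jacD_cons g f
  have h2 : jacD pd (Fin.cons g fun i => emb (f i) : Fin (m + 1) → FF k (m + 1)) ≠ 0 := by
    rw [h1]
    exact mul_ne_zero hg (emb_ne_zero hf)
  have h3 := hA _ h2
  rw [h1, Fin.sum_univ_succ, Fin.cons_zero, v.map_mul hg (emb_ne_zero hf)] at h3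
  simp only [Fin.cons_succ] at h3
  simp only [rcomap_apply]
  change ∑ i, v (emb (f i)) - v (emb (jacD pd f)) ≤ _
  linarith

end Pool.Agent.JMF
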