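import Pool.Agent.Lib.JM_H15.Gauss

/-!
# Newton count: the Gauss valuation of a polynomial and its number of near roots (row NEWT)

`IsN w r g V Q`: the minimum over `m` of `w (g.coeff m) + m r` is `V` and `Q` is the smallest
index that attains it.  If `g` splits, then `Q` is the number of roots `ζ` of `g` with
`ζ = 0` or `r < w ζ`.
-/

set_option autoImplicit false

open Finset Polynomial

namespace Pool.Agent.JMF

open Pool.Agent.H15JM

variable {K : Type*} [Field K]

/-- The minimum over `m` of `w (g.coeff m) + m r` is `V`, and `Q` is the smallest index that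
attains it. -/
def IsN (w : RVal K) (r : ℝ) (g : Polynomial K) (V : ℝ) (Q : ℕ) : Prop :=
  g.coeff Q ≠ 0 ∧ w (g.coeff Q) + Q * r = V ∧
    (∀ m, g.coeff m ≠ 0 → V ≤ w (g.coeff m) + m * r) ∧
    (∀ m, m < Q → g.coeff m ≠ 0 → V < w (g.coeff m) + m * r)

/-- A root `ζ` is near if it is zero or has value larger than `r`. -/
def Near (w : RVal K) (r : ℝ) (ζ : K) : Prop := ζ = 0 ∨ r < w ζ

variable {w : RVal K} {r : ℝ}

theorem IsN.ne_zero {g : Polynomial K} {V : ℝ} {Q : ℕ} (h : IsN w r g V Q) : g ≠ 0 := by
  rintro rfl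
  exact h.1 (Polynomial.coeff_zero Q)

theorem IsN.unique {g : Polynomial K} {V V' : ℝ} {Q Q' : ℕ} (h : IsN w r g V Q)
    (h' : IsN w r g V' Q') : V = V' ∧ Q = Q' := by
  obtain ⟨h1, h2, h3, h4⟩ := h
  obtain ⟨h1', h2', h3', h4'⟩ := h'
  have hV : V = V' := by
    apply le_antisymm
    · rw [← h2']; exact h3 _ h1'
    · rw [← h2]; exact h3' _ h1
  refine ⟨hV, ?_⟩
  rcases lt_trichotomy Q Q' with hq | hq | hq
  · exact absurd (h4' Q hq h1) (by rw [h2, hV]; exact lt_irrefl _)
  · exact hq
  · exact absurd (h4 Q' hq h1') (by rw [h2', hV]; exact lt_irrefl _)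

theorem IsN.ge {g : Polynomial K} {V : ℝ} {Q : ℕ} (h : IsN w r g V Q) (m : ℕ) :
    w.Ge (V - m * r) (g.coeff m) := by
  intro h0
  have := h.2.2.1 m h0
  linarith

theorem IsN.gt {g : Polynomial K} {V : ℝ} {Q : ℕ} (h : IsN w r g V Q) {m : ℕ} (hm : m < Q) :
    w.Gt (V - m * r) (g.coeff m) := by
  intro h0
  have := h.2.2.2 m hm h0
  linarith

/-- Existence. -/
theorem exists_isN (w : RVal K) (r : ℝ) {g : Polynomial K} (hg : g ≠ 0) :
    ∃ V Q, IsN w r g V Q := by
  classical
  have hne : g.support.Nonempty := Polynomial.support_nonempty.mpr hg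
  obtain ⟨Q, hQ, hmin⟩ := Finset.exists_min_image g.support
    (fun m => toLex (w (g.coeff m) + m * r, m)) hne
  refine ⟨w (g.coeff Q) + Q * r, Q, Polynomial.mem_support_iff.mp hQ, rfl, ?_, ?_⟩
  · intro m hm0
    have h := hmin m (Polynomial.mem_support_iff.mpr hm0)
    rw [Prod.Lex.toLex_le_toLex] at h
    rcases h with h | h
    · exact h.le
    · exact h.1.le
  · intro m hmQ hm0
    have h := hmin m (Polynomial.mem_support_iff.mpr hm0)
    rw [Prod.Lex.toLex_le_toLex] at h
    rcases h with h | h
    · exact h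
    · exact absurd h.2 (not_le.mpr hmQ)

theorem IsN.mul {f g : Polynomial K} {V V' : ℝ} {Q Q' : ℕ} (h : IsN w r f V Q)
    (h' : IsN w r g V' Q') : IsN w r (f * g) (V + V') (Q + Q') := by
  classical
  have hge : ∀ (m : ℕ) (ij : ℕ × ℕ), ij ∈ antidiagonal m →
      w.Ge (V + V' - m * r) (f.coeff ij.1 * g.coeff ij.2) := by
    intro m ij hij
    have hs := Finset.HasAntidiagonal.mem_antidiagonal.mp hij
    have h1 := (h.ge ij.1).mul (h'.ge ij.2)
    refine h1.mono (le_of_eq ?_)
    rw [← hs]
    push_cast
    ring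
  have hgt : ∀ (m : ℕ) (ij : ℕ × ℕ), ij ∈ antidiagonal m → (ij.1 < Q ∨ ij.2 < Q') →
      w.Gt (V + V' - m * r) (f.coeff ij.1 * g.coeff ij.2) := by
    intro m ij hij hlt
    have hs := Finset.HasAntidiagonal.mem_antidiagonal.mp hij
    have he : V + V' - m * r = (V - ij.1 * r) + (V' - ij.2 * r) := by
      rw [← hs]
      push_cast
      ring
    rw [he]
    rcases hlt with hlt | hlt
    · exact (h.gt hlt).mul_ge (h'.ge ij.2)
    · exact (h.ge ij.1).mul_gt (h'.gt hlt)
  have hv1 : w (f.coeff Q) = V - Q * r := by linarith [h.2.1]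
  have hv2 : w (g.coeff Q') = V' - Q' * r := by linarith [h'.2.1]
  have hmain : (f * g).coeff (Q + Q') ≠ 0 ∧
      w ((f * g).coeff (Q + Q')) = V + V' - ((Q + Q' : ℕ) : ℝ) * r := by
    rw [Polynomial.coeff_mul, ← Finset.add_sum_erase _ _
      (Finset.HasAntidiagonal.mem_antidiagonal.mpr rfl : (Q, Q') ∈ antidiagonal (Q + Q'))]
    apply RVal.add_of_gt
    · exact mul_ne_zero h.1 h'.1
    · rw [w.map_mul h.1 h'.1, hv1, hv2]
      push_cast
      ring
    · apply RVal.Gt.sum
      intro ij hij
      obtain ⟨hne, hij⟩ := Finset.mem_erase.mp hij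
      apply hgt _ _ hij
      have hs := Finset.HasAntidiagonal.mem_antidiagonal.mp hij
      by_contra hcon
      push Not at hcon
      apply hne
      ext
      · simp only; omega
      · simp only; omega
  refine ⟨hmain.1, ?_, ?_, ?_⟩
  · rw [hmain.2]
    ring
  · intro m hm0
    have h1 : w.Ge (V + V' - m * r) ((f * g).coeff m) := by
      rw [Polynomial.coeff_mul]
      exact RVal.Ge.sum _ _ fun ij hij => hge m ij hij
    have := h1 hm0
    linarith
  · intro m hm hm0
    have h1 : w.Gt (V + V' - m * r) ((f * g).coeff m) := by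
      rw [Polynomial.coeff_mul]
      refine RVal.Gt.sum _ _ fun ij hij => hgt m ij hij ?_
      have hs := Finset.HasAntidiagonal.mem_antidiagonal.mp hij
      by_contra hcon
      push Not at hcon
      omega
    have := h1 hm0
    linarith

theorem isN_C {c : K} (hc : c ≠ 0) : IsN w r (C c) (w c) 0 := by
  refine ⟨by simpa using hc, by simp, ?_, ?_⟩
  · intro m hm
    rw [Polynomial.coeff_C] at hm ⊢
    by_cases h : m = 0
    · subst h
      simp
    · rw [if_neg h] at hm
      exact absurd rfl hm
  · intro m hm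
    exact absurd hm (Nat.not_lt_zero m)

theorem isN_one : IsN w r (1 : Polynomial K) 0 0 := by
  have h := isN_C (w := w) (r := r) (one_ne_zero (α := K))
  rw [w.map_one, Polynomial.C_1] at h
  exact h

private theorem coeff_X_sub_C_zero (ζ : K) : (X - C ζ : Polynomial K).coeff 0 = -ζ := by
  simp

private theorem coeff_X_sub_C_one (ζ : K) : (X - C ζ : Polynomial K).coeff 1 = 1 := by
  simp

private theorem coeff_X_sub_C_big (ζ : K) {m : ℕ} (hm : 1 < m) :
    (X - C ζ : Polynomial K).coeff m = 0 := by
  rw [Polynomial.coeff_sub, Polynomial.coeff_X, Polynomial.coeff_C, if_neg (by omega),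
    if_neg (by omega), sub_zero]

theorem isN_X_sub_C_near {ζ : K} (h : Near w r ζ) : IsN w r (X - C ζ) r 1 := by
  have key : ∀ m, m < 1 → (X - C ζ : Polynomial K).coeff m ≠ 0 →
      r < w ((X - C ζ : Polynomial K).coeff m) + m * r := by
    intro m hm hm0
    obtain rfl : m = 0 := by omega
    rw [coeff_X_sub_C_zero] at hm0 ⊢
    have hζ : ζ ≠ 0 := by simpa using hm0
    rw [w.map_neg ζ hζ]
    rcases h with h | h
    · exact absurd h hζ
    · simpa using h
  refine ⟨by rw [coeff_X_sub_C_one]; exact one_ne_zero, ?_, ?_, key⟩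
  · rw [coeff_X_sub_C_one, w.map_one]
    simp
  · intro m hm0
    rcases lt_trichotomy m 1 with hm | hm | hm
    · exact (key m hm hm0).le
    · subst hm
      rw [coeff_X_sub_C_one, w.map_one]
      simp
    · exact absurd (coeff_X_sub_C_big ζ hm) hm0

theorem isN_X_sub_C_far {ζ : K} (h : ¬ Near w r ζ) : IsN w r (X - C ζ) (w ζ) 0 := by
  have hζ : ζ ≠ 0 := fun h0 => h (Or.inl h0)
  have hr : w ζ ≤ r := not_lt.mp fun h0 => h (Or.inr h0)
  refine ⟨by rw [coeff_X_sub_C_zero]; exact neg_ne_zero.mpr hζ, ?_, ?_, ?_⟩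
  · rw [coeff_X_sub_C_zero, w.map_neg ζ hζ]
    simp
  · intro m hm0
    rcases lt_trichotomy m 1 with hm | hm | hm
    · obtain rfl : m = 0 := by omega
      rw [coeff_X_sub_C_zero, w.map_neg ζ hζ]
      simp
    · subst hm
      rw [coeff_X_sub_C_one, w.map_one]
      simpa using hr
    · exact absurd (coeff_X_sub_C_big ζ hm) hm0
  · intro m hm
    exact absurd hm (Nat.not_lt_zero m)

open Classical in
/-- The value of the factor `X - ζ`. -/
noncomputable def nval (w : RVal K) (r : ℝ) (ζ : K) : ℝ := if Near w r ζ then r else w ζ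

open Classical in
theorem isN_X_sub_C (ζ : K) :
    IsN w r (X - C ζ) (nval w r ζ) (if Near w r ζ then 1 else 0) := by
  unfold nval
  by_cases h : Near w r ζ
  · rw [if_pos h, if_pos h]
    exact isN_X_sub_C_near h
  · rw [if_neg h, if_neg h]
    exact isN_X_sub_C_far h

theorem nval_le (ζ : K) : nval w r ζ ≤ r := by
  unfold nval
  split_ifs with h
  · exact le_rfl
  · exact not_lt.mp fun h0 => h (Or.inr h0)

theorem nval_le_val {ζ : K} (hζ : ζ ≠ 0) : nval w r ζ ≤ w ζ := by
  unfold nval
  split_ifs with h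
  · rcases h with h | h
    · exact absurd h hζ
    · exact h.le
  · exact le_rfl

theorem nval_eq_min {ζ : K} (hζ : ζ ≠ 0) : nval w r ζ = min r (w ζ) := by
  unfold nval
  split_ifs with h
  · rcases h with h | h
    · exact absurd h hζ
    · exact (min_eq_left h.le).symm
  · exact (min_eq_right (not_lt.mp fun h0 => h (Or.inr h0))).symm

open Classical in
/-- Products of linear factors. -/
theorem isN_prod (s : Multiset K) :
    IsN w r (s.map fun ζ => X - C ζ).prod (s.map (nval w r)).sum
      (s.filter (Near w r)).card := by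
  induction s using Multiset.induction_on with
  | empty => simpa using isN_one
  | cons a s ih =>
    rw [Multiset.map_cons, Multiset.prod_cons, Multiset.map_cons, Multiset.sum_cons]
    have h := (isN_X_sub_C (w := w) (r := r) a).mul ih
    by_cases ha : Near w r a
    · rw [Multiset.filter_cons_of_pos _ ha, Multiset.card_cons, add_comm _ 1]
      rw [if_pos ha] at h
      exact h
    · rw [Multiset.filter_cons_of_neg _ ha]
      rw [if_neg ha, zero_add] at h
      exact h

open Classical in
/-- The Gauss value and the number of near roots of a polynomial that splits. -/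
theorem isN_of_splits {g : Polynomial K} (hg : g ≠ 0) (hs : g.Splits) :
    IsN w r g (w g.leadingCoeff + (g.roots.map (nval w r)).sum)
      (g.roots.filter (Near w r)).card := by
  have h := (isN_C (w := w) (r := r) (Polynomial.leadingCoeff_ne_zero.mpr hg)).mul
    (isN_prod (w := w) (r := r) g.roots)
  rw [zero_add, ← hs.eq_prod_roots] at h
  exact h

open Classical in
/-- NEWTON COUNT (the disc centred at `0`). -/
theorem newton_count {g : Polynomial K} (hs : g.Splits) {V : ℝ} {Q : ℕ} (h : IsN w r g V Q) :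
    (g.roots.filter (Near w r)).card = Q :=
  ((isN_of_splits h.ne_zero hs).unique h).2

open Classical in
/-- The value of the Gauss valuation (the disc centred at `0`). -/
theorem newton_val {g : Polynomial K} (hs : g.Splits) {V : ℝ} {Q : ℕ} (h : IsN w r g V Q) :
    w g.leadingCoeff + (g.roots.map (nval w r)).sum = V :=
  ((isN_of_splits h.ne_zero hs).unique h).1

/-! ### The disc centred at `z` -/

theorem taylor_X_sub_C (z ζ : K) : Polynomial.taylor z (X - C ζ) = X - C (ζ - z) := by
  rw [map_sub, Polynomial.taylor_X, Polynomial.taylor_C, map_sub]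
  ring

theorem taylor_prod (z : K) (s : Multiset K) :
    Polynomial.taylor z (s.map fun ζ => X - C ζ).prod =
      ((s.map fun ζ => ζ - z).map fun ζ => X - C ζ).prod := by
  induction s using Multiset.induction_on with
  | empty => simp [Polynomial.taylor_one]
  | cons a s ih =>
    rw [Multiset.map_cons, Multiset.prod_cons, Polynomial.taylor_mul, ih, taylor_X_sub_C,
      Multiset.map_cons, Multiset.map_cons, Multiset.prod_cons]

open Classical in
/-- The Gauss value at the disc `{ζ : w (ζ - z) > r}` and the number of roots in it. -/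
theorem isN_taylor {f : Polynomial K} (hf : f ≠ 0) (hs : f.Splits) (z : K) :
    IsN w r (Polynomial.taylor z f)
      (w f.leadingCoeff + (f.roots.map fun ζ => nval w r (ζ - z)).sum)
      (f.roots.filter fun ζ => Near w r (ζ - z)).card := by
  have h := (isN_C (w := w) (r := r) (Polynomial.leadingCoeff_ne_zero.mpr hf)).mul
    (isN_prod (w := w) (r := r) (f.roots.map fun ζ => ζ - z))
  have he : C f.leadingCoeff * ((f.roots.map fun ζ => ζ - z).map fun ζ => X - C ζ).prod =
      Polynomial.taylor z f := by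
    conv_rhs => rw [hs.eq_prod_roots]
    rw [Polynomial.taylor_mul, Polynomial.taylor_C, taylor_prod]
  rw [he, zero_add, Multiset.map_map, Multiset.filter_map, Multiset.card_map] at h
  exact h

open Classical in
/-- NEWTON COUNT: `Q` is the number of roots `ζ` of `f` with `ζ = z` or `w (ζ - z) > r`. -/
theorem newton_count_at {f : Polynomial K} (hs : f.Splits) (z : K) {V : ℝ} {Q : ℕ}
    (h : IsN w r (Polynomial.taylor z f) V Q) :
    (f.roots.filter fun ζ => Near w r (ζ - z)).card = Q := by
  have hf : f ≠ 0 := by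
    rintro rfl
    exact h.ne_zero (map_zero _)
  exact ((isN_taylor hf hs z).unique h).2

open Classical in
theorem newton_val_at {f : Polynomial K} (hs : f.Splits) (z : K) {V : ℝ} {Q : ℕ}
    (h : IsN w r (Polynomial.taylor z f) V Q) :
    w f.leadingCoeff + (f.roots.map fun ζ => nval w r (ζ - z)).sum = V := by
  have hf : f ≠ 0 := by
    rintro rfl
    exact h.ne_zero (map_zero _)
  exact ((isN_taylor hf hs z).unique h).1

/-! ### Values at near points -/

theorem taylor_ne_zero {f : Polynomial K} (hf : f ≠ 0) (z : K) : Polynomial.taylor z f ≠ 0 := by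
  intro h
  apply hf
  have h2 := Polynomial.taylor_injective z
  apply h2
  rw [h, map_zero]

/-- The expansion at `z`, evaluated at `ζ`. -/
theorem eval_eq_sum_taylor (f : Polynomial K) (z ζ : K) {D : ℕ} (hD : f.natDegree ≤ D) :
    f.eval ζ = ∑ j ∈ range (D + 1), (Polynomial.taylor z f).coeff j * (ζ - z) ^ j := by
  have h1 : f.eval ζ = (Polynomial.taylor z f).eval (ζ - z) := by
    rw [Polynomial.taylor_eval, sub_add_cancel]
  rw [h1, Polynomial.eval_eq_sum_range' (n := D + 1)]
  rw [Polynomial.natDegree_taylor]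
  omega

/-- (4.3), upper direction: `w (f^{[j]}(z)) ≥ c - j s` for all `j` and `w (ζ - z) ≥ s - b` give
`w (f(ζ)) ≥ c - D b`. -/
theorem eval_ge_of_near {f : Polynomial K} {z ζ : K} {D : ℕ} (hD : f.natDegree ≤ D) {c s b : ℝ}
    (hb : 0 ≤ b) (hf : ∀ j : ℕ, w.Ge (c - j * s) ((Polynomial.taylor z f).coeff j))
    (hζ : w.Ge (s - b) (ζ - z)) : w.Ge (c - D * b) (f.eval ζ) := by
  rw [eval_eq_sum_taylor f z ζ hD]
  refine RVal.Ge.sum _ _ fun j hj => ?_
  have hjD : (j : ℝ) ≤ D := by
    have := Finset.mem_range.mp hj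
    exact_mod_cast (by omega : j ≤ D)
  have hp : w.Ge (j * (s - b)) ((ζ - z) ^ j) := by
    intro h0
    by_cases hj0 : j = 0
    · subst hj0
      rw [pow_zero, w.map_one]
      simp
    · have h1 : ζ - z ≠ 0 := by
        intro h2
        rw [h2, zero_pow hj0] at h0
        exact h0 rfl
      rw [w.map_pow h1]
      exact mul_le_mul_of_nonneg_left (hζ h1) (Nat.cast_nonneg j)
  refine ((hf j).mul hp).mono ?_
  have : (j : ℝ) * b ≤ D * b := mul_le_mul_of_nonneg_right hjD hb
  linarith

/-- (4.3), lower direction: if `f(z) ≠ 0` and `w (ζ - z) ≥ r`, then some Taylor coefficient of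
`f` at `ζ` satisfies `w (f^{[j]}(ζ)) + j r ≤ w (f(z))`. -/
theorem exists_coeff_le_of_near {f : Polynomial K} {z ζ : K} {D : ℕ} (hD : f.natDegree ≤ D)
    (h0 : f.eval z ≠ 0) (hζ : w.Ge r (ζ - z)) :
    ∃ j ≤ D, (Polynomial.taylor ζ f).coeff j ≠ 0 ∧
      w ((Polynomial.taylor ζ f).coeff j) + j * r ≤ w (f.eval z) := by
  by_contra hcon
  push Not at hcon
  have hgt : w.Gt (w (f.eval z)) (f.eval z) := by
    rw [eval_eq_sum_taylor f ζ z hD]
    refine RVal.Gt.sum _ _ fun j hj => ?_
    rw [← eval_eq_sum_taylor f ζ z hD]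
    have hjD : j ≤ D := by
      have := Finset.mem_range.mp hj
      omega
    have hp : w.Ge (j * r) ((z - ζ) ^ j) := by
      intro h0
      by_cases hj0 : j = 0
      · subst hj0
        rw [pow_zero, w.map_one]
        simp
      · have h1 : z - ζ ≠ 0 := by
          intro h2
          rw [h2, zero_pow hj0] at h0
          exact h0 rfl
        have h3 : w.Ge r (z - ζ) := by
          have := hζ.neg
          rwa [neg_sub] at this
        rw [w.map_pow h1]
        exact mul_le_mul_of_nonneg_left (h3 h1) (Nat.cast_nonneg j)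
    have hc : w.Gt (w (f.eval z) - j * r) ((Polynomial.taylor ζ f).coeff j) := by
      intro hc0
      have := hcon j hjD hc0
      linarith
    have := hc.mul_ge hp
    rw [sub_add_cancel] at this
    exact this
  exact lt_irrefl _ (hgt h0)

/-- (4.2): the first index that attains the Gauss value is large if the Gauss value is much
smaller than the lower bounds `c - j s` of the coefficients. -/
theorem IsN.le_index {g : Polynomial K} {V c s b : ℝ} {Q : ℕ} (h : IsN w (s - b) g V Q)
    (hg : w.Ge (c - Q * s) (g.coeff Q)) : c - V ≤ Q * b := by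
  have h1 := hg h.1
  have h2 := h.2.1
  have h3 : (Q : ℝ) * (s - b) = Q * s - Q * b := by ring
  linarith

end Pool.Agent.JMF
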