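import Pool.Agent.Lib.JM_H15.Comp
import Pool.Agent.Lib.JM_H15.Gauss2
import Pool.Agent.Lib.JM_H15.Disc

/-!
# Row THICK: the thickening of a valuation in one coordinate direction (OWNER: helper15)

For a valuation `v` of the function field of affine `n`-space which is nonnegative on the
polynomials, with `s = sup (v g - v (∂_l g))`, and `0 < b < s`, the function
`V f = min_j (v (∂_l^j f / j!) + j (s - b))` on the polynomials defines a valuation `V ≤ v`, the
log discrepancy of which is at most `A(v) - b`.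
-/

set_option autoImplicit false

open MvPolynomial

namespace Pool.Agent.H15JM

variable {k : Type} [Field k] {n : ℕ}

/-- Divided powers of partial derivatives of polynomials are polynomials. -/
theorem dd_toFF (l : Fin n) (j : ℕ) (p : MvPolynomial (Fin n) k) :
    ∃ q : MvPolynomial (Fin n) k, dd (pd l) j (toFF p) = toFF q := by
  have h : ∀ j : ℕ, ∃ q : MvPolynomial (Fin n) k, (pd l)^[j] (toFF p) = toFF q := by
    intro j
    induction j with
    | zero => exact ⟨p, rfl⟩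
    | succ j ih =>
      obtain ⟨q, hq⟩ := ih
      exact ⟨pderiv l q, by rw [Function.iterate_succ_apply', hq, pd_toFF]⟩
  obtain ⟨q, hq⟩ := h j
  refine ⟨C ((j.factorial : k))⁻¹ * q, ?_⟩
  rw [dd, hq, _root_.map_mul, ← MvPolynomial.algebraMap_eq, AlgHom.commutes, map_inv₀,
    map_natCast]

/-- The divided powers as polynomials. -/
theorem dd_toFF_eq (l : Fin n) (j : ℕ) (p : MvPolynomial (Fin n) k) :
    dd (pd l) j (toFF p) = toFF (C ((j.factorial : k))⁻¹ * (pderiv l)^[j] p) := by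
  have h : ∀ j : ℕ, (pd l)^[j] (toFF p) = toFF ((pderiv l)^[j] p) := by
    intro j
    induction j with
    | zero => rfl
    | succ j ih => rw [Function.iterate_succ_apply', ih, pd_toFF, Function.iterate_succ_apply']
  rw [dd, h, _root_.map_mul, ← MvPolynomial.algebraMap_eq, AlgHom.commutes, map_inv₀,
    map_natCast]

/-- If `v g - v (D g) ≤ s` for all `g` then `v f - j s ≤ v (D^j f / j!)`. -/
theorem ge_dd {K : Type*} [Field K] [Algebra k K] [CharZero K] (v : RVal K)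
    (hn : ∀ m : ℕ, m ≠ 0 → v ((m : K)) = 0) (D : Derivation k K K) (s : ℝ)
    (hs : ∀ g, D g ≠ 0 → v g - v (D g) ≤ s) (f : K) (j : ℕ) :
    v.Ge (v f - j * s) (dd D j f) := by
  induction j with
  | zero =>
    intro _
    rw [dd_zero]
    simp
  | succ j ih =>
    intro hne
    have hD := D_dd D j f
    have hc : ((j : K) + 1) ≠ 0 := by exact_mod_cast Nat.succ_ne_zero j
    have hne' : D (dd D j f) ≠ 0 := by
      rw [hD]
      exact mul_ne_zero hc hne
    have hjne : dd D j f ≠ 0 := by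
      intro h
      rw [h, _root_.map_zero] at hne'
      exact hne' rfl
    have h1 := ih hjne
    have h2 := hs _ hne'
    rw [hD, v.map_mul hc hne] at h2
    have h3 : v ((j : K) + 1) = 0 := by
      have := hn (j + 1) (Nat.succ_ne_zero _)
      push_cast at this
      exact this
    rw [h3] at h2
    push_cast
    linarith

/-- **The thickening** (without the upper bound of `v g - v (∂_l g)`). -/
theorem exists_thick0 [CharZero k] (v : RVal (FF k n))
    (hpoly : ∀ p : MvPolynomial (Fin n) k, p ≠ 0 → 0 ≤ v (toFF p)) (A : ℝ)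
    (hA : ∀ f : Fin n → FF k n, jacD pd f ≠ 0 → ∑ i, v (f i) - v (jacD pd f) ≤ A)
    (l : Fin n) (s : ℝ)
    (hs' : ∀ ε > 0, ∃ g : FF k n, pd l g ≠ 0 ∧ s - ε ≤ v g - v (pd l g))
    (b : ℝ) (hbs : b < s) :
    ∃ V : RVal (FF k n),
      (∀ p : MvPolynomial (Fin n) k, p ≠ 0 → 0 ≤ V (toFF p)) ∧
      (∀ p : MvPolynomial (Fin n) k, p ≠ 0 → V (toFF p) ≤ v (toFF p)) ∧
      (∀ p : MvPolynomial (Fin n) k, p ≠ 0 → pderiv l p = 0 → V (toFF p) = v (toFF p)) ∧
      (∀ f : Fin n → FF k n, jacD pd f ≠ 0 → ∑ i, V (f i) - V (jacD pd f) ≤ A - b) ∧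
      (∀ p : MvPolynomial (Fin n) k, p ≠ 0 → ∃ Q : ℕ,
        IsG v (pd l) (s - b) (toFF p) (V (toFF p)) Q) := by
  classical
  have : CharZero (FF k n) :=
    charZero_of_injective_algebraMap (algebraMap k (FF k n)).injective
  have hk : ∀ c : k, c ≠ 0 → v (algebraMap k (FF k n) c) = 0 := by
    intro c hc
    have hC : algebraMap k (FF k n) c = toFF (C c) := by
      rw [← MvPolynomial.algebraMap_eq, AlgHom.commutes]
    have hCi : algebraMap k (FF k n) c⁻¹ = toFF (C c⁻¹) := by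
      rw [← MvPolynomial.algebraMap_eq, AlgHom.commutes]
    have h1 : 0 ≤ v (algebraMap k (FF k n) c) := by
      rw [hC]
      exact hpoly _ (C_ne_zero.mpr hc)
    have h2 : 0 ≤ v (algebraMap k (FF k n) c⁻¹) := by
      rw [hCi]
      exact hpoly _ (C_ne_zero.mpr (inv_ne_zero hc))
    rw [map_inv₀, v.map_inv ((map_ne_zero _).mpr hc)] at h2
    linarith
  have hn : ∀ m : ℕ, m ≠ 0 → v ((m : FF k n)) = 0 := by
    intro m hm
    have := hk (m : k) (by exact_mod_cast hm)
    rwa [map_natCast] at this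
  let R : Subring (FF k n) := (toFF (k := k) (n := n)).toRingHom.range
  have hmem : ∀ p : MvPolynomial (Fin n) k, toFF p ∈ R := fun p => ⟨p, rfl⟩
  have hRv : ∀ f ∈ R, f ≠ 0 → 0 ≤ v f := by
    rintro _ ⟨p, rfl⟩ hf0
    refine hpoly p fun h => hf0 ?_
    rw [h]
    exact _root_.map_zero _
  have hRdd : ∀ f ∈ R, ∀ m, dd (pd l) m f ∈ R := by
    rintro _ ⟨p, rfl⟩ m
    obtain ⟨q, hq⟩ := dd_toFF l m p
    have h1 : dd (pd l) m ((toFF (k := k) (n := n)).toRingHom p) = toFF q := hq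
    rw [h1]
    exact hmem q
  have hRD : ∀ i, ∀ f ∈ R, pd i f ∈ R := by
    rintro i _ ⟨p, rfl⟩
    have h1 : pd i ((toFF (k := k) (n := n)).toRingHom p) = toFF (pderiv i p) := pd_toFF i p
    rw [h1]
    exact hmem _
  have hfrac : ∀ x : FF k n, ∃ a ∈ R, ∃ b ∈ R, b ≠ 0 ∧ x = a / b := by
    intro x
    obtain ⟨p, q, hq, h⟩ := exists_frac x
    exact ⟨_, hmem p, _, hmem q, toFF_ne_zero hq, h⟩
  have hγ : 0 < s - b := by linarith
  obtain ⟨V, hV⟩ := exists_gauss (v := v) (D := pd l) hγ R hRdd hRv hfrac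
  have hcomm : ∀ i j (f : FF k n), pd i (pd j f) = pd j (pd i f) := by
    intro i j f
    refine derivations_comm pd (fun i => toFF (X i)) (fun i j => ?_) i j f
    rw [pd_toFF]
    by_cases h : i = j
    · subst h; simp
    · rw [pderiv_X_of_ne h, if_neg h, _root_.map_zero]
  refine ⟨V, ?_, ?_, ?_, ?_, ?_⟩
  · intro p hp
    obtain ⟨Q, hQ⟩ := hV _ (hmem p) (toFF_ne_zero hp)
    rw [← hQ.2.1]
    have h1 := hRv _ (hRdd _ (hmem p) Q) hQ.1
    positivity
  · intro p hp
    obtain ⟨Q, hQ⟩ := hV _ (hmem p) (toFF_ne_zero hp)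
    exact hQ.le
  · intro p hp hpl
    obtain ⟨Q, hQ⟩ := hV _ (hmem p) (toFF_ne_zero hp)
    have h1 : IsG v (pd l) (s - b) (toFF p) (v (toFF p)) 0 :=
      isG_of_D_eq_zero (toFF_ne_zero hp) (by rw [pd_toFF, hpl, _root_.map_zero])
    exact (hQ.unique h1).1
  · intro f hf
    have h1 := disc_drop v hn pd hcomm l R hRD hfrac A s (s - b) hA hs' V hV f hf
    linarith
  · intro p hp
    exact hV _ (hmem p) (toFF_ne_zero hp)

/-- The naturals have value zero. -/
theorem natCast_val [CharZero k] (v : RVal (FF k n))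
    (hpoly : ∀ p : MvPolynomial (Fin n) k, p ≠ 0 → 0 ≤ v (toFF p)) (m : ℕ) (hm : m ≠ 0) :
    v ((m : FF k n)) = 0 := by
  have h0 : ((m : k)) ≠ 0 := by exact_mod_cast hm
  have hC : ((m : FF k n)) = toFF (C (m : k)) := by
    rw [← MvPolynomial.algebraMap_eq, AlgHom.commutes, map_natCast]
  have hCi : ((m : FF k n))⁻¹ = toFF (C ((m : k))⁻¹) := by
    rw [← MvPolynomial.algebraMap_eq, AlgHom.commutes, map_inv₀, map_natCast]
  have h1 : 0 ≤ v ((m : FF k n)) := by
    rw [hC]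
    exact hpoly _ (C_ne_zero.mpr h0)
  have h2 : 0 ≤ v (((m : FF k n))⁻¹) := by
    rw [hCi]
    exact hpoly _ (C_ne_zero.mpr (inv_ne_zero h0))
  have h3 : ((m : FF k n)) ≠ 0 := by
    rw [hC]
    exact toFF_ne_zero (C_ne_zero.mpr h0)
  rw [v.map_inv h3] at h2
  linarith

/-- **The thickening.** -/
theorem exists_thick [CharZero k] (v : RVal (FF k n))
    (hpoly : ∀ p : MvPolynomial (Fin n) k, p ≠ 0 → 0 ≤ v (toFF p)) (A : ℝ)
    (hA : ∀ f : Fin n → FF k n, jacD pd f ≠ 0 → ∑ i, v (f i) - v (jacD pd f) ≤ A)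
    (l : Fin n) (s : ℝ) (hs : ∀ g : FF k n, pd l g ≠ 0 → v g - v (pd l g) ≤ s)
    (hs' : ∀ ε > 0, ∃ g : FF k n, pd l g ≠ 0 ∧ s - ε ≤ v g - v (pd l g))
    (b : ℝ) (hbs : b < s) :
    ∃ V : RVal (FF k n),
      (∀ p : MvPolynomial (Fin n) k, p ≠ 0 → 0 ≤ V (toFF p)) ∧
      (∀ p : MvPolynomial (Fin n) k, p ≠ 0 → V (toFF p) ≤ v (toFF p)) ∧
      (∀ p : MvPolynomial (Fin n) k, p ≠ 0 → pderiv l p = 0 → V (toFF p) = v (toFF p)) ∧
      (∀ f : Fin n → FF k n, jacD pd f ≠ 0 → ∑ i, V (f i) - V (jacD pd f) ≤ A - b) ∧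
      (∀ p : MvPolynomial (Fin n) k, p ≠ 0 → ∃ Q : ℕ,
        IsG v (pd l) (s - b) (toFF p) (V (toFF p)) Q ∧
          v (toFF p) - V (toFF p) ≤ Q * b) := by
  have : CharZero (FF k n) :=
    charZero_of_injective_algebraMap (algebraMap k (FF k n)).injective
  obtain ⟨V, h0, h1, h2, h3, h4⟩ := exists_thick0 v hpoly A hA l s hs' b hbs
  refine ⟨V, h0, h1, h2, h3, fun p hp => ?_⟩
  obtain ⟨Q, hQ⟩ := h4 p hp
  refine ⟨Q, hQ, ?_⟩
  have h1 := ge_dd v (natCast_val v hpoly) (pd l) s hs (toFF p) Q hQ.1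
  have h2 := hQ.2.1
  linarith

/-- The thickening has the values of `v` at the other coordinates. -/
theorem pderiv_X_sub_C {l i : Fin n} (h : i ≠ l) (c : k) :
    pderiv l (X i - C c : MvPolynomial (Fin n) k) = 0 := by
  rw [_root_.map_sub, pderiv_X_of_ne h, pderiv_C, sub_zero]

end Pool.Agent.H15JM
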