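import Pool.Agent.Lib.JM_H15.Final2
import Pool.Agent.Lib.JMF.Emb
import Pool.Agent.Lib.JMF.Thick

/-!
# The number `s_D(v) = sup (v g - v (D g))` and the volume inequality (0.1) (row SM of the tank JM)
-/

set_option autoImplicit false

open MvPolynomial

namespace Pool.Agent.JMF

open Pool.Agent.H15JM

section SD

variable {k K : Type*} [Field k] [Field K] [Algebra k K] {v : RVal K} {D : Derivation k K K}

/-- The supremum of `v g - v (D g)` over the `g` with `D g ≠ 0`. -/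
noncomputable def sD (v : RVal K) (D : Derivation k K K) : ℝ :=
  sSup {s | ∃ g, D g ≠ 0 ∧ s = v g - v (D g)}

theorem le_sD {B : ℝ} (hb : ∀ g, D g ≠ 0 → v g - v (D g) ≤ B) {g : K} (hg : D g ≠ 0) :
    v g - v (D g) ≤ sD v D :=
  le_csSup ⟨B, by rintro s ⟨g, hg, rfl⟩; exact hb g hg⟩ ⟨g, hg, rfl⟩

theorem sD_le {B : ℝ} (hb : ∀ g, D g ≠ 0 → v g - v (D g) ≤ B) {x : K} (hx : D x ≠ 0) :
    sD v D ≤ B :=
  csSup_le ⟨_, x, hx, rfl⟩ (by rintro s ⟨g, hg, rfl⟩; exact hb g hg)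

/-- `s_D(v)` is a supremum. -/
theorem exists_sD {x : K} (hx : D x ≠ 0) {ε : ℝ} (hε : 0 < ε) :
    ∃ g, D g ≠ 0 ∧ sD v D - ε ≤ v g - v (D g) := by
  obtain ⟨s, ⟨g, hg, rfl⟩, hs⟩ := exists_lt_of_lt_csSup
    (s := {s | ∃ g, D g ≠ 0 ∧ s = v g - v (D g)}) ⟨_, x, hx, rfl⟩
    (show sD v D - ε < sSup {s | ∃ g, D g ≠ 0 ∧ s = v g - v (D g)} by
      rw [← sD]; linarith)
  exact ⟨g, hg, hs.le⟩

theorem exists_lt_sD {x : K} (hx : D x ≠ 0) {c : ℝ} (hc : c < sD v D) :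
    ∃ g, D g ≠ 0 ∧ c < v g - v (D g) := by
  obtain ⟨g, hg, h⟩ := exists_sD (v := v) hx (show 0 < (sD v D - c) / 2 by linarith)
  exact ⟨g, hg, by linarith⟩

/-- If `D x = 1` then `v x ≤ s_D(v)`. -/
theorem val_le_sD {B : ℝ} (hb : ∀ g, D g ≠ 0 → v g - v (D g) ≤ B) {x : K} (hx : D x = 1) :
    v x ≤ sD v D := by
  have h := le_sD hb (g := x) (by rw [hx]; exact one_ne_zero)
  rwa [hx, v.map_one, sub_zero] at h

theorem sD_pos {B : ℝ} (hb : ∀ g, D g ≠ 0 → v g - v (D g) ≤ B) {x : K} (hx : D x = 1)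
    (hx0 : 0 < v x) : 0 < sD v D :=
  lt_of_lt_of_le hx0 (val_le_sD hb hx)

/-- `D` decreases the value by at most `s_D(v)`. -/
theorem ge_D {s : ℝ} (hs : ∀ g, D g ≠ 0 → v g - v (D g) ≤ s) {f : K} {c : ℝ} (hf : v.Ge c f) :
    v.Ge (c - s) (D f) := by
  intro h
  have hf0 : f ≠ 0 := by rintro rfl; exact h (_root_.map_zero D)
  have h1 := hs f h
  have h2 := hf hf0
  linarith

variable [CharZero K]

/-- The divided powers: `v (D^j f / j!) ≥ v f - j s`. -/
theorem dd_ge (hn : ∀ m : ℕ, m ≠ 0 → v ((m : K)) = 0) {s : ℝ}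
    (hs : ∀ g, D g ≠ 0 → v g - v (D g) ≤ s) {f : K} {c : ℝ} (hf : v.Ge c f) (j : ℕ) :
    v.Ge (c - j * s) (dd D j f) := by
  induction j with
  | zero => simpa using hf
  | succ j ih =>
    intro h
    have h1 : D (dd D j f) = ((j : K) + 1) * dd D (j + 1) f := D_dd D j f
    have h6 : (j : K) + 1 ≠ 0 := by exact_mod_cast Nat.succ_ne_zero j
    have h2 : D (dd D j f) ≠ 0 := by rw [h1]; exact mul_ne_zero h6 h
    have h3 := ge_D hs ih h2
    rw [h1, v.map_mul h6 h] at h3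
    have h4 : v ((j : K) + 1) = 0 := by
      have := hn (j + 1) (Nat.succ_ne_zero j)
      push_cast at this
      exact this
    rw [h4] at h3
    push_cast
    linarith

end SD

section Cls

variable {k : Type} [Field k] {m : ℕ} {w : RVal (FF k m)} {B : ℝ}

theorem jacD_ne_zero_of (D : Fin m → Derivation k (FF k m) (FF k m)) (f : Fin m → FF k m)
    (hf : jacD D f ≠ 0) (i : Fin m) : f i ≠ 0 := by
  intro h0
  apply hf
  rw [jacD]
  apply Matrix.det_eq_zero_of_column_eq_zero i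
  intro j
  rw [Matrix.of_apply, h0, _root_.map_zero]

theorem pd_X (i j : Fin m) : pd j (toFF (X i : MvPolynomial (Fin m) k)) = if i = j then 1 else 0 := by
  rw [pd_toFF, pderiv_X]
  by_cases h : i = j
  · subst h; simp
  · simp [h]

/-- The value of a constant. -/
theorem val_C (hpos : ∀ p : MvPolynomial (Fin m) k, p ≠ 0 → 0 ≤ w (toFF p)) (c : k) (hc : c ≠ 0) :
    w (algebraMap k (FF k m) c) = 0 := by
  have h : ∀ a : k, a ≠ 0 → 0 ≤ w (algebraMap k (FF k m) a) := by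
    intro a ha
    have := hpos (C a) (by simpa using ha)
    rwa [← MvPolynomial.algebraMap_eq, AlgHom.commutes] at this
  have h1 := h c hc
  have h2 := h c⁻¹ (inv_ne_zero hc)
  have hc' : algebraMap k (FF k m) c ≠ 0 := by simpa using hc
  rw [map_inv₀, w.map_inv hc'] at h2
  linarith

theorem val_natCast [CharZero k] (hpos : ∀ p : MvPolynomial (Fin m) k, p ≠ 0 → 0 ≤ w (toFF p))
    (n : ℕ) (hn : n ≠ 0) : w ((n : FF k m)) = 0 := by
  have := val_C hpos (n : k) (by exact_mod_cast hn)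
  rwa [map_natCast] at this

/-- The bound `B` is not negative. -/
theorem vol_bound_nonneg (hpos : ∀ p : MvPolynomial (Fin m) k, p ≠ 0 → 0 ≤ w (toFF p))
    (hvol : ∀ f : Fin m → FF k m, jacD pd f ≠ 0 → ∑ i, w (f i) - w (jacD pd f) ≤ B) : 0 ≤ B := by
  have h1 := hvol (fun i => toFF (X i)) (by rw [jacD_pd_X]; exact one_ne_zero)
  rw [jacD_pd_X, w.map_one, sub_zero] at h1
  exact (Finset.sum_nonneg fun i _ => hpos _ (X_ne_zero i)).trans h1

/-- (0.2) A partial derivative decreases the value by at most `B`. -/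
theorem pd_bound (hpos : ∀ p : MvPolynomial (Fin m) k, p ≠ 0 → 0 ≤ w (toFF p))
    (hvol : ∀ f : Fin m → FF k m, jacD pd f ≠ 0 → ∑ i, w (f i) - w (jacD pd f) ≤ B)
    (j : Fin m) (g : FF k m) (hg : pd j g ≠ 0) : w g - w (pd j g) ≤ B :=
  der_bound w pd (fun i => toFF (X i)) (fun i j => pd_X i j) B hvol
    (fun i => hpos _ (X_ne_zero i)) j g hg

/-- (0.2) A polynomial of degree `d` has value at most `d B`. -/
theorem izumi_FF [CharZero k] (hpos : ∀ p : MvPolynomial (Fin m) k, p ≠ 0 → 0 ≤ w (toFF p))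
    (hvol : ∀ f : Fin m → FF k m, jacD pd f ≠ 0 → ∑ i, w (f i) - w (jacD pd f) ≤ B)
    (p : MvPolynomial (Fin m) k) (hp : p ≠ 0) : w (toFF p) ≤ p.totalDegree * B := by
  have : CharZero (FF k m) :=
    charZero_of_injective_algebraMap (algebraMap k (FF k m)).injective
  have h := izumi w (fun c hc => val_C hpos c hc) pd (fun i => toFF (X i)) (fun i j => pd_X i j) B
    (vol_bound_nonneg hpos hvol) (fun j g hg => pd_bound hpos hvol j g hg) p hp
  have h1 : MvPolynomial.aeval (fun i => (toFF (X i) : FF k m)) p = toFF p := by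
    have : (MvPolynomial.aeval (fun i => (toFF (X i) : FF k m)) : _ →ₐ[k] FF k m) = toFF := by
      apply MvPolynomial.algHom_ext
      intro i
      rw [aeval_X]
    rw [this]
  rw [h1] at h
  exact h.2

/-- A rational function `p / q` has value between `- deg q * B` and `deg p * B`. -/
theorem izumi_frac [CharZero k] (hpos : ∀ p : MvPolynomial (Fin m) k, p ≠ 0 → 0 ≤ w (toFF p))
    (hvol : ∀ f : Fin m → FF k m, jacD pd f ≠ 0 → ∑ i, w (f i) - w (jacD pd f) ≤ B)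
    (p q : MvPolynomial (Fin m) k) (hp : p ≠ 0) (hq : q ≠ 0) :
    -(q.totalDegree * B) ≤ w (toFF p / toFF q) ∧ w (toFF p / toFF q) ≤ p.totalDegree * B := by
  rw [w.map_div (toFF_ne_zero hp) (toFF_ne_zero hq)]
  have h1 := izumi_FF hpos hvol p hp
  have h2 := izumi_FF hpos hvol q hq
  have h3 := hpos p hp
  have h4 := hpos q hq
  constructor <;> linarith

end Cls

section S

variable {k : Type} [Field k] {m : ℕ}

/-- `s(v)`: the supremum of `v g - v (∂g/∂z)`, `z = X 0`. -/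
noncomputable def sz (v : RVal (FF k (m + 1))) : ℝ := sD v (pd 0)

variable {v : RVal (FF k (m + 1))} {A : ℝ}

theorem pd_X_zero : pd 0 (toFF (X 0 : MvPolynomial (Fin (m + 1)) k)) = 1 := by
  rw [pd_X, if_pos rfl]

theorem le_sz (hpos : ∀ p : MvPolynomial (Fin (m + 1)) k, p ≠ 0 → 0 ≤ v (toFF p))
    (hA : ∀ f : Fin (m + 1) → FF k (m + 1), jacD pd f ≠ 0 → ∑ i, v (f i) - v (jacD pd f) ≤ A)
    (g : FF k (m + 1)) (hg : pd 0 g ≠ 0) : v g - v (pd 0 g) ≤ sz v :=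
  le_sD (fun g hg => pd_bound hpos hA 0 g hg) hg

theorem exists_sz (v : RVal (FF k (m + 1))) : ∀ ε > 0, ∃ g, pd 0 g ≠ 0 ∧
    sz v - ε ≤ v g - v (pd 0 g) := fun _ hε =>
  exists_sD (x := toFF (X 0)) (by rw [pd_X_zero]; exact one_ne_zero) hε

theorem sz_le (hpos : ∀ p : MvPolynomial (Fin (m + 1)) k, p ≠ 0 → 0 ≤ v (toFF p))
    (hA : ∀ f : Fin (m + 1) → FF k (m + 1), jacD pd f ≠ 0 → ∑ i, v (f i) - v (jacD pd f) ≤ A) :
    sz v ≤ A :=
  sD_le (fun g hg => pd_bound hpos hA 0 g hg) (x := toFF (X 0))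
    (by rw [pd_X_zero]; exact one_ne_zero)

theorem val_X_le_sz (hpos : ∀ p : MvPolynomial (Fin (m + 1)) k, p ≠ 0 → 0 ≤ v (toFF p))
    (hA : ∀ f : Fin (m + 1) → FF k (m + 1), jacD pd f ≠ 0 → ∑ i, v (f i) - v (jacD pd f) ≤ A) :
    v (toFF (X 0)) ≤ sz v :=
  val_le_sD (fun g hg => pd_bound hpos hA 0 g hg) pd_X_zero

theorem sz_pos (hpos : ∀ p : MvPolynomial (Fin (m + 1)) k, p ≠ 0 → 0 ≤ v (toFF p))
    (hA : ∀ f : Fin (m + 1) → FF k (m + 1), jacD pd f ≠ 0 → ∑ i, v (f i) - v (jacD pd f) ≤ A)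
    (hz : 0 < v (toFF (X 0))) : 0 < sz v :=
  lt_of_lt_of_le hz (val_X_le_sz hpos hA)

/-- (0.1) `A(v|L_m) ≤ A(v) - s(v)`. -/
theorem disc_emb_sz (hA : ∀ f : Fin (m + 1) → FF k (m + 1), jacD pd f ≠ 0 →
      ∑ i, v (f i) - v (jacD pd f) ≤ A) (f : Fin m → FF k m) (hf : jacD pd f ≠ 0) :
    ∑ i, rcomap (emb (k := k) (m := m)).toRingHom v (f i)
      - rcomap (emb (k := k) (m := m)).toRingHom v (jacD pd f) ≤ A - sz v :=
  disc_emb v A (sz v) hA (exists_sz v) f hf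

/-- The restriction of a valuation that is nonnegative on the polynomials. -/
theorem rcomap_pos (hpos : ∀ p : MvPolynomial (Fin (m + 1)) k, p ≠ 0 → 0 ≤ v (toFF p))
    (p : MvPolynomial (Fin m) k) (hp : p ≠ 0) :
    0 ≤ rcomap (emb (k := k) (m := m)).toRingHom v (toFF p) := by
  change 0 ≤ v (emb (toFF p))
  rw [emb_toFF]
  exact hpos _ (embP_ne_zero hp)

/-- The Taylor coefficients: `v (∂_z^j f / j!) ≥ v f - j s`. -/
theorem dd_ge_sz [CharZero k]
    (hpos : ∀ p : MvPolynomial (Fin (m + 1)) k, p ≠ 0 → 0 ≤ v (toFF p))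
    (hA : ∀ f : Fin (m + 1) → FF k (m + 1), jacD pd f ≠ 0 → ∑ i, v (f i) - v (jacD pd f) ≤ A)
    {f : FF k (m + 1)} {c : ℝ} (hf : v.Ge c f) (j : ℕ) :
    v.Ge (c - j * sz v) (dd (pd 0) j f) := by
  have : CharZero (FF k (m + 1)) :=
    charZero_of_injective_algebraMap (algebraMap k (FF k (m + 1))).injective
  exact dd_ge (fun n hn => val_natCast hpos n hn) (le_sz hpos hA) hf j

end S

end Pool.Agent.JMF
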