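import Pool.Agent.Lib.JM_H15.Gauss

/-!
# Generic scalars

`k` is an infinite field, `Ω` an extension with a real valuation which is trivial on `k`. For all but
finitely many scalars the value of a polynomial at the scalar is the minimum of the values of its
coefficients.
-/

set_option autoImplicit false

open Polynomial Pool.Agent.H15JM

namespace Pool.Agent.JMF

variable {k Ω : Type*} [Field k] [Field Ω] [Algebra k Ω] (w : RVal Ω)

/-- If a polynomial of degree at most `n` takes values `> c` at `n + 1` scalars, then all its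
coefficients have values `> c`. -/
theorem gt_coeff_of_many (hk : ∀ c : k, c ≠ 0 → w (algebraMap k Ω c) = 0) (c : ℝ) :
    ∀ (n : ℕ) (P : Polynomial Ω), P.natDegree ≤ n → ∀ s : Finset k, n < s.card →
      (∀ μ ∈ s, w.Gt c (P.eval (algebraMap k Ω μ))) → ∀ i, w.Gt c (P.coeff i) := by
  classical
  intro n
  induction n with
  | zero =>
    intro P hP s hs h i
    obtain ⟨μ, hμ⟩ := Finset.card_pos.mp hs
    rw [Polynomial.eq_C_of_natDegree_le_zero hP] at h ⊢
    rw [coeff_C]
    split_ifs
    · simpa using h μ hμ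
    · exact RVal.Gt.zero
  | succ n ih =>
    intro P hP s hs h i
    obtain ⟨μ, hμ⟩ := Finset.card_pos.mp ((Nat.succ_pos _).trans hs)
    set a : Ω := algebraMap k Ω μ with ha
    set Q : Polynomial Ω := P /ₘ (X - C a) with hQ
    have hPQ : P = (X - C a) * Q + C (P.eval a) := by
      have h1 := Polynomial.modByMonic_add_div P (X - C a)
      rw [modByMonic_X_sub_C_eq_C_eval] at h1
      rw [hQ]
      conv_lhs => rw [← h1]
      ring
    have hQd : Q.natDegree ≤ n := by
      rw [hQ, natDegree_divByMonic _ (monic_X_sub_C a), natDegree_X_sub_C]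
      omega
    have hQev : ∀ ν ∈ s.erase μ, w.Gt c (Q.eval (algebraMap k Ω ν)) := by
      intro ν hν
      have hne : ν ≠ μ := Finset.ne_of_mem_erase hν
      have h0 : (algebraMap k Ω (ν - μ)) ≠ 0 := by
        rw [Ne, map_eq_zero, sub_eq_zero]
        exact hne
      have h1 : Q.eval (algebraMap k Ω ν)
          = algebraMap k Ω (ν - μ)⁻¹ * (P.eval (algebraMap k Ω ν) - P.eval a) := by
        have h2 := congrArg (Polynomial.eval (algebraMap k Ω ν)) hPQ
        rw [eval_add, eval_mul, eval_sub, eval_X, eval_C, eval_C] at h2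
        rw [h2, map_inv₀]
        rw [_root_.map_sub] at h0 ⊢
        rw [← ha] at h0 ⊢
        field_simp
        ring
      rw [h1]
      have h2 : w.Ge 0 (algebraMap k Ω (ν - μ)⁻¹) := fun _ =>
        (hk _ (inv_ne_zero (sub_ne_zero.mpr hne))).ge
      have h3 : w.Gt c (P.eval (algebraMap k Ω ν) - P.eval a) := by
        rw [sub_eq_add_neg]
        refine (h ν (Finset.mem_of_mem_erase hν)).add ?_
        intro h4
        have h5 : P.eval a ≠ 0 := by simpa using h4
        rw [w.map_neg _ h5]
        exact h μ hμ h5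
      have h6 := RVal.Ge.mul_gt h2 h3
      rwa [zero_add] at h6
    have hQc := ih Q hQd (s.erase μ) (by rw [Finset.card_erase_of_mem hμ]; omega) hQev
    rw [hPQ, coeff_add, coeff_C]
    have ha0 : w.Ge 0 a := by
      intro h0
      rw [ha] at h0 ⊢
      rw [hk μ (by rintro rfl; exact h0 (_root_.map_zero _))]
    have h7 : w.Gt c (((X - C a) * Q).coeff i) := by
      rw [sub_mul, coeff_sub, coeff_C_mul, sub_eq_add_neg]
      refine RVal.Gt.add ?_ ?_
      · cases i with
        | zero => rw [coeff_X_mul_zero]; exact RVal.Gt.zero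
        | succ i => rw [coeff_X_mul]; exact hQc i
      · have h8 := RVal.Ge.mul_gt ha0 (hQc i)
        rw [zero_add] at h8
        intro h9
        have h10 : a * Q.coeff i ≠ 0 := by simpa using h9
        rw [w.map_neg _ h10]
        exact h8 h10
    refine h7.add ?_
    split_ifs
    · exact h μ hμ
    · exact RVal.Gt.zero

/-- For all but finitely many scalars the value of a nonzero polynomial at the scalar is the minimum
of the values of its coefficients. -/
theorem gen_one (hk : ∀ c : k, c ≠ 0 → w (algebraMap k Ω c) = 0) (P : Polynomial Ω) :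
    {μ : k | ¬ ∀ i, P.coeff i ≠ 0 → P.eval (algebraMap k Ω μ) ≠ 0 ∧
      w (P.eval (algebraMap k Ω μ)) ≤ w (P.coeff i)}.Finite := by
  by_contra hinf
  rw [← Set.Infinite] at hinf
  obtain ⟨s, hs, hcard⟩ := hinf.exists_subset_card_eq (P.natDegree + 1)
  have hP0 : P ≠ 0 := by
    rintro rfl
    obtain ⟨μ, hμ⟩ := hinf.nonempty
    exact hμ fun i hi => absurd (coeff_zero i) hi
  obtain ⟨i₀, hi₀, hmin⟩ := P.support.exists_min_image (fun i => w (P.coeff i))
    (nonempty_support_iff.mpr hP0)
  have h := gt_coeff_of_many w hk (w (P.coeff i₀)) P.natDegree P le_rfl s (by omega) (by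
    intro μ hμ h0
    have h1 := hs hμ
    simp only [Set.mem_ofPred_eq, not_forall] at h1
    obtain ⟨i, hi, h2⟩ := h1
    by_contra h3
    push Not at h3
    exact h2 ⟨h0, h3.trans (hmin i (mem_support_iff.mpr hi))⟩) i₀
  exact lt_irrefl _ (h (mem_support_iff.mp hi₀))

/-- The same for a combination `∑ μ^i a_i` of elements of a vector space, seen through a linear
map to `Ω`. -/
theorem gen_comb (hk : ∀ c : k, c ≠ 0 → w (algebraMap k Ω c) = 0) {M : Type*} [AddCommGroup M]
    [Module k M] {r : ℕ} (a : Fin r → M) (e : M →ₗ[k] Ω) :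
    {μ : k | ¬ ∀ j, e (a j) ≠ 0 → e (∑ i : Fin r, μ ^ (i : ℕ) • a i) ≠ 0 ∧
      w (e (∑ i : Fin r, μ ^ (i : ℕ) • a i)) ≤ w (e (a j))}.Finite := by
  set P : Polynomial Ω := ∑ i : Fin r, monomial (i : ℕ) (e (a i)) with hP
  refine (gen_one w hk P).subset ?_
  intro μ hμ h
  apply hμ
  intro j hj
  have h1 : P.coeff (j : ℕ) = e (a j) := by
    rw [hP, finsetSum_coeff, Finset.sum_eq_single j]
    · rw [coeff_monomial, if_pos rfl]
    · intro b _ hb
      rw [coeff_monomial, if_neg fun h => hb (Fin.ext h)]
    · intro h; exact absurd (Finset.mem_univ j) h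
  have h2 : P.eval (algebraMap k Ω μ) = e (∑ i : Fin r, μ ^ (i : ℕ) • a i) := by
    rw [hP, eval_finsetSum, _root_.map_sum]
    refine Finset.sum_congr rfl fun i _ => ?_
    rw [eval_monomial, _root_.map_smul, Algebra.smul_def, _root_.map_pow, mul_comm]
  have h3 := h (j : ℕ) (by rwa [h1])
  rwa [h1, h2] at h3

/-- A finite union of finite sets does not cover an infinite field. -/
theorem exists_generic [Infinite k] {ι : Type*} (S : Finset ι) (B : ι → Set k)
    (hB : ∀ i ∈ S, (B i).Finite) : ∃ μ : k, μ ≠ 0 ∧ ∀ i ∈ S, μ ∉ B i := by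
  have h : (⋃ i ∈ S, B i).Finite := S.finite_toSet.biUnion fun i hi => hB i hi
  obtain ⟨μ, hμ⟩ := (h.union (Set.finite_singleton (0 : k))).infinite_compl.nonempty
  simp only [Set.mem_compl_iff, Set.mem_union, Set.mem_iUnion, exists_prop, not_or,
    Set.mem_singleton_iff, not_exists, not_and] at hμ
  exact ⟨μ, hμ.2, fun i hi => hμ.1 i hi⟩

/-- A generic perturbation of the first polynomial does not increase the value of a resultant. -/
theorem gen_resultant (hk : ∀ c : k, c ≠ 0 → w (algebraMap k Ω c) = 0) (f₀ f₁ g₀ : Polynomial Ω)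
    (D : ℕ) (h : resultant f₀ g₀ D D ≠ 0) :
    {μ : k | ¬ (resultant (f₀ + C (algebraMap k Ω μ) * f₁) g₀ D D ≠ 0 ∧
      w (resultant (f₀ + C (algebraMap k Ω μ) * f₁) g₀ D D) ≤ w (resultant f₀ g₀ D D))}.Finite := by
  set P : Polynomial Ω := resultant (f₀.map C + C X * f₁.map C) (g₀.map C) D D with hP
  have hev : ∀ x : Ω, P.eval x = resultant (f₀ + C x * f₁) g₀ D D := by
    intro x
    have h1 := resultant_map_map (f₀.map C + C X * f₁.map C) (g₀.map C) D D (evalRingHom x)
    have h2 : (evalRingHom x).comp C = RingHom.id Ω := by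
      ext y
      simp
    rw [Polynomial.map_add, Polynomial.map_mul, Polynomial.map_map, Polynomial.map_map,
      Polynomial.map_map, h2, Polynomial.map_id, Polynomial.map_id, Polynomial.map_id, map_C] at h1
    rw [hP, ← coe_evalRingHom, ← h1, coe_evalRingHom, eval_X]
  refine (gen_one w hk P).subset ?_
  intro μ hμ h1
  apply hμ
  have h2 : P.coeff 0 = resultant f₀ g₀ D D := by
    rw [coeff_zero_eq_eval_zero, hev, C_0, zero_mul, add_zero]
  have h3 := h1 0 (by rwa [h2])
  rwa [h2, hev] at h3

end Pool.Agent.JMF
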