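import Pool.Agent.Lib.JM_H15.Basic

/-!
# Resultants with formal degrees and their values

`resultant f g D D` for polynomials of degree at most `D` over a field with a real valuation.
-/

set_option autoImplicit false

open Polynomial Pool.Agent.H15JM

namespace Pool.Agent.JMF

section Formal

variable {K : Type*} [Field K]

/-- The product formula, with a drop of the degree. -/
theorem resultant_formal (f g : K[X]) (D : ℕ) (hf : f.Splits) (hfD : f.natDegree ≤ D)
    (hgD : g.natDegree ≤ D) :
    resultant f g D D = (-1) ^ (D * (D - f.natDegree)) * g.coeff D ^ (D - f.natDegree) *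
      (f.leadingCoeff ^ D * (f.roots.map g.eval).prod) := by
  rw [← resultant_eq_prod_eval f g D hgD hf]
  have h := resultant_add_left_deg f g f.natDegree D (k := D - f.natDegree) le_rfl
  rwa [Nat.add_sub_cancel' hfD] at h

/-- Translation. -/
theorem resultant_taylor_formal (f g : K[X]) (r : K) (D : ℕ) (hfD : f.natDegree ≤ D)
    (hgD : g.natDegree ≤ D) :
    resultant (f.taylor r) (g.taylor r) D D = resultant f g D D := by
  have h1 : ∀ f g : K[X], f.natDegree ≤ D → g.natDegree ≤ D →
      resultant f g D D = (-1) ^ (D * (D - f.natDegree)) * g.coeff D ^ (D - f.natDegree)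
        * (f.leadingCoeff ^ (D - g.natDegree) * resultant f g) := by
    intro f g hf hg
    have h := resultant_add_left_deg f g f.natDegree D (k := D - f.natDegree) le_rfl
    rw [Nat.add_sub_cancel' hf] at h
    rw [h]
    have h2 := resultant_add_right_deg f g f.natDegree g.natDegree (D - g.natDegree) le_rfl
    rw [Nat.add_sub_cancel' hg] at h2
    rw [h2]
    rfl
  have h3 := resultant_taylor f g r
  rw [h1 _ _ (by rwa [natDegree_taylor]) (by rwa [natDegree_taylor]), h1 f g hfD hgD, h3,
    natDegree_taylor, natDegree_taylor, leadingCoeff_taylor]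
  congr 2
  -- the coefficient of `X ^ D`
  rcases hgD.lt_or_eq with h | h
  · rw [coeff_eq_zero_of_natDegree_lt (by rwa [natDegree_taylor]), coeff_eq_zero_of_natDegree_lt h]
  · have e1 := leadingCoeff_taylor (r := r) (f := g)
    rw [leadingCoeff, leadingCoeff, natDegree_taylor, h] at e1
    rw [e1]

theorem multiset_prod_ne_zero {s : Multiset K} : s.prod ≠ 0 ↔ ∀ x ∈ s, x ≠ 0 := by
  rw [Ne, Multiset.prod_eq_zero_iff]
  constructor
  · intro h x hx h0
    exact h (h0 ▸ hx)
  · intro h h0
    exact h 0 h0 rfl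

theorem resultant_ne_zero_iff (f g : K[X]) (D : ℕ) (hf : f.Splits) (hf0 : f ≠ 0)
    (hfD : f.natDegree ≤ D) (hgD : g.natDegree ≤ D) :
    resultant f g D D ≠ 0 ↔
      (∀ ζ ∈ f.roots, g.eval ζ ≠ 0) ∧ (f.natDegree < D → g.coeff D ≠ 0) := by
  rw [resultant_formal f g D hf hfD hgD]
  have h1 : ((-1 : K)) ^ (D * (D - f.natDegree)) ≠ 0 := pow_ne_zero _ (by simp)
  have h2 : f.leadingCoeff ^ D ≠ 0 := pow_ne_zero _ (leadingCoeff_ne_zero.mpr hf0)
  rw [mul_ne_zero_iff, mul_ne_zero_iff, mul_ne_zero_iff, and_comm]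
  refine and_congr ?_ ?_
  · rw [and_iff_right h2, multiset_prod_ne_zero]
    simp only [Multiset.mem_map, forall_exists_index, and_imp, forall_apply_eq_imp_iff₂]
  · rw [and_iff_right h1]
    rcases hfD.lt_or_eq with h | h
    · have : D - f.natDegree ≠ 0 := by omega
      simp [h, this]
    · simp [h]

end Formal

section Value

variable {Ω : Type*} [Field Ω] (w : RVal Ω)

theorem val_multiset_prod (s : Multiset Ω) (h : ∀ x ∈ s, x ≠ 0) :
    w s.prod = (s.map fun x => w x).sum := by
  induction s using Multiset.induction_on with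
  | empty => simp [w.map_one]
  | cons a s ih =>
    rw [Multiset.prod_cons, w.map_mul (h a (Multiset.mem_cons_self a s))
      (multiset_prod_ne_zero.mpr fun x hx => h x (Multiset.mem_cons_of_mem hx)),
      Multiset.map_cons, Multiset.sum_cons, ih fun x hx => h x (Multiset.mem_cons_of_mem hx)]

/-- The value of a resultant: the sum over the roots, `D - deg f` of them at infinity. -/
theorem val_resultant (f g : Polynomial Ω) (D : ℕ) (hf : f.Splits) (hf0 : f ≠ 0)
    (hfD : f.natDegree ≤ D) (hgD : g.natDegree ≤ D) (h : resultant f g D D ≠ 0) :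
    w (resultant f g D D) = ((D - f.natDegree : ℕ) : ℝ) * w (g.coeff D)
      + (D * w f.leadingCoeff + (f.roots.map fun ζ => w (g.eval ζ)).sum) := by
  obtain ⟨h1, h2⟩ := (resultant_ne_zero_iff f g D hf hf0 hfD hgD).mp h
  have hp : (f.roots.map g.eval).prod ≠ 0 := by
    rw [multiset_prod_ne_zero]
    simpa only [Multiset.mem_map, forall_exists_index, and_imp, forall_apply_eq_imp_iff₂] using h1
  have hc : g.coeff D ^ (D - f.natDegree) ≠ 0 := by
    rcases hfD.lt_or_eq with h | h
    · exact pow_ne_zero _ (h2 h)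
    · simp [h]
  have hl : f.leadingCoeff ^ D ≠ 0 := pow_ne_zero _ (leadingCoeff_ne_zero.mpr hf0)
  have hs : ((-1 : Ω)) ^ (D * (D - f.natDegree)) ≠ 0 := pow_ne_zero _ (by simp)
  rw [resultant_formal f g D hf hfD hgD, w.map_mul (mul_ne_zero hs hc) (mul_ne_zero hl hp),
    w.map_mul hs hc, w.map_mul hl hp, w.map_pow (by simp), w.map_neg_one,
    w.map_pow (leadingCoeff_ne_zero.mpr hf0), val_multiset_prod w _ (multiset_prod_ne_zero.mp hp),
    Multiset.map_map]
  have h4 : w (g.coeff D ^ (D - f.natDegree)) = ((D - f.natDegree : ℕ) : ℝ) * w (g.coeff D) := by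
    rcases hfD.lt_or_eq with h | h
    · rw [w.map_pow (h2 h)]
    · have : D - f.natDegree = 0 := by omega
      rw [this, pow_zero, w.map_one, Nat.cast_zero, zero_mul]
  rw [h4]
  simp only [Function.comp_def]
  ring

/-- Comparison of two resultants: at each root, and at infinity, the value of the second polynomial
is at most the value of the first one plus `e`. -/
theorem val_resultant_le (f g g' : Polynomial Ω) (D : ℕ) (hf : f.Splits) (hf0 : f ≠ 0)
    (hfD : f.natDegree ≤ D) (hgD : g.natDegree ≤ D) (hgD' : g'.natDegree ≤ D)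
    (h : resultant f g D D ≠ 0) (e : ℝ)
    (hr : ∀ ζ ∈ f.roots, g'.eval ζ ≠ 0 ∧ w (g'.eval ζ) ≤ w (g.eval ζ) + e)
    (hi : f.natDegree < D → g'.coeff D ≠ 0 ∧ w (g'.coeff D) ≤ w (g.coeff D) + e) :
    resultant f g' D D ≠ 0 ∧ w (resultant f g' D D) ≤ w (resultant f g D D) + D * e := by
  have h' : resultant f g' D D ≠ 0 :=
    (resultant_ne_zero_iff f g' D hf hf0 hfD hgD').mpr ⟨fun ζ hζ => (hr ζ hζ).1, fun h => (hi h).1⟩
  refine ⟨h', ?_⟩
  rw [val_resultant w f g' D hf hf0 hfD hgD' h', val_resultant w f g D hf hf0 hfD hgD h]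
  have h1 : (f.roots.map fun ζ => w (g'.eval ζ)).sum
      ≤ (f.roots.map fun ζ => w (g.eval ζ)).sum + f.natDegree * e := by
    have h2 : (f.roots.map fun ζ => w (g'.eval ζ)).sum
        ≤ (f.roots.map fun ζ => w (g.eval ζ) + e).sum :=
      Multiset.sum_map_le_sum_map _ _ fun ζ hζ => (hr ζ hζ).2
    rw [Multiset.sum_map_add, Multiset.map_const', Multiset.sum_replicate, nsmul_eq_mul,
      ← hf.natDegree_eq_card_roots] at h2
    exact h2
  have h3 : ((D - f.natDegree : ℕ) : ℝ) * w (g'.coeff D)
      ≤ ((D - f.natDegree : ℕ) : ℝ) * w (g.coeff D) + ((D - f.natDegree : ℕ) : ℝ) * e := by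
    rcases hfD.lt_or_eq with h | h
    · rw [← mul_add]
      exact mul_le_mul_of_nonneg_left (hi h).2 (Nat.cast_nonneg _)
    · have : D - f.natDegree = 0 := by omega
      rw [this]
      simp
  have h5 : ((D - f.natDegree : ℕ) : ℝ) = D - f.natDegree := by
    rw [Nat.cast_sub hfD]
  rw [h5] at h3 ⊢
  linarith

/-- Gain: as before with `e = 0`, and at the roots with the property `p` the value drops by at
least `G`. -/
theorem val_resultant_gain (f g g' : Polynomial Ω) (D : ℕ) (hf : f.Splits) (hf0 : f ≠ 0)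
    (hfD : f.natDegree ≤ D) (hgD : g.natDegree ≤ D) (hgD' : g'.natDegree ≤ D)
    (h : resultant f g D D ≠ 0) (p : Ω → Prop) [DecidablePred p] (G : ℝ)
    (hr : ∀ ζ ∈ f.roots, g'.eval ζ ≠ 0 ∧ w (g'.eval ζ) ≤ w (g.eval ζ))
    (hp : ∀ ζ ∈ f.roots, p ζ → w (g'.eval ζ) ≤ w (g.eval ζ) - G)
    (hi : f.natDegree < D → g'.coeff D ≠ 0 ∧ w (g'.coeff D) ≤ w (g.coeff D)) :
    resultant f g' D D ≠ 0 ∧
      w (resultant f g' D D) ≤ w (resultant f g D D) - (f.roots.filter p).card * G := by
  have h' : resultant f g' D D ≠ 0 :=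
    (resultant_ne_zero_iff f g' D hf hf0 hfD hgD').mpr ⟨fun ζ hζ => (hr ζ hζ).1, fun h => (hi h).1⟩
  refine ⟨h', ?_⟩
  rw [val_resultant w f g' D hf hf0 hfD hgD' h', val_resultant w f g D hf hf0 hfD hgD h]
  have h1 : (f.roots.map fun ζ => w (g'.eval ζ)).sum
      ≤ (f.roots.map fun ζ => w (g.eval ζ)).sum - (f.roots.filter p).card * G := by
    have h2 : (f.roots.map fun ζ => w (g'.eval ζ)).sum
        ≤ (f.roots.map fun ζ => w (g.eval ζ) + if p ζ then -G else 0).sum := by
      refine Multiset.sum_map_le_sum_map _ _ fun ζ hζ => ?_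
      by_cases hpz : p ζ
      · rw [if_pos hpz]
        linarith [hp ζ hζ hpz]
      · rw [if_neg hpz, add_zero]
        exact (hr ζ hζ).2
    have h3 : ∀ s : Multiset Ω, (s.map fun ζ => if p ζ then -G else 0).sum
        = - ((s.filter p).card * G) := by
      intro s
      induction s using Multiset.induction_on with
      | empty => simp
      | cons a s ih =>
        rw [Multiset.map_cons, Multiset.sum_cons, ih]
        by_cases ha : p a
        · rw [if_pos ha, Multiset.filter_cons_of_pos _ ha, Multiset.card_cons]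
          push_cast
          ring
        · rw [if_neg ha, Multiset.filter_cons_of_neg _ ha, zero_add]
    rw [Multiset.sum_map_add, h3] at h2
    linarith
  have h3 : ((D - f.natDegree : ℕ) : ℝ) * w (g'.coeff D)
      ≤ ((D - f.natDegree : ℕ) : ℝ) * w (g.coeff D) := by
    rcases hfD.lt_or_eq with h | h
    · exact mul_le_mul_of_nonneg_left (hi h).2 (Nat.cast_nonneg _)
    · have : D - f.natDegree = 0 := by omega
      rw [this]
      simp
  linarith

/-- The determinant of a matrix whose columns have values at least `c j`. -/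
theorem ge_det {n : ℕ} (M : Matrix (Fin n) (Fin n) Ω) (c : Fin n → ℝ)
    (h : ∀ i j, w.Ge (c i) (M i j)) : w.Ge (∑ i, c i) M.det := by
  rw [← Matrix.det_transpose, Matrix.det_apply]
  refine RVal.Ge.sum _ _ fun σ _ => ?_
  have h1 : w.Ge (∑ i, c i) (∏ i, M.transpose (σ i) i) :=
    RVal.Ge.prod c _ _ fun i _ => h i (σ i)
  rcases Int.units_eq_one_or (Equiv.Perm.sign σ) with h2 | h2
  · rw [h2, one_smul]; exact h1
  · rw [h2, Units.neg_smul, one_smul]; exact h1.neg

/-- The column bound: coefficients of index `j` have value at least `φ j`, `φ` is antitone and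
nonnegative. -/
theorem ge_resultant (f g : Polynomial Ω) (D : ℕ) (φ : ℕ → ℝ) (hφ : Antitone φ)
    (hf : ∀ j, w.Ge (φ j) (f.coeff j)) (hg : ∀ j, w.Ge (φ j) (g.coeff j)) :
    w.Ge (∑ c ∈ Finset.range (D + D), φ c) (resultant f g D D) := by
  rw [resultant, ← Fin.sum_univ_eq_sum_range]
  refine ge_det w _ (fun i => φ i) fun i j => ?_
  rw [sylvester, Matrix.of_apply]
  induction j using Fin.addCases with
  | left j =>
    rw [Fin.addCases_left]
    split_ifs
    · exact (hg _).mono (hφ (Nat.sub_le _ _))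
    · exact RVal.Ge.zero
  | right j =>
    rw [Fin.addCases_right]
    split_ifs
    · exact (hf _).mono (hφ (Nat.sub_le _ _))
    · exact RVal.Ge.zero

end Value

/-- `∑ max(0, lam - c s) ≥ lam^2 / (2 s)`. -/
theorem sum_max_ge (lam s : ℝ) (hs : 0 < s) (hl : 0 ≤ lam) (n : ℕ) (hn : lam / s ≤ n) :
    lam ^ 2 / (2 * s) ≤ ∑ c ∈ Finset.range n, max 0 (lam - c * s) := by
  have h1 : ∀ m : ℕ, lam ^ 2 / (2 * s) - (max 0 (lam - m * s)) ^ 2 / (2 * s)
      ≤ ∑ c ∈ Finset.range m, max 0 (lam - c * s) := by
    intro m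
    induction m with
    | zero => simp [max_eq_right hl]
    | succ m ih =>
      rw [Finset.sum_range_succ]
      set a := max 0 (lam - m * s) with ha
      set b := max 0 (lam - ((m + 1 : ℕ) : ℝ) * s) with hb
      have hab : a - b ≤ s := by
        rw [ha, hb]
        push_cast
        rcases le_total 0 (lam - m * s) with h | h
        · rw [max_eq_right h]
          have := le_max_right 0 (lam - (m + 1) * s)
          linarith
        · rw [max_eq_left h]
          have := le_max_left 0 (lam - (m + 1) * s)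
          linarith
      have hba : b ≤ a := by
        rw [ha, hb]
        refine max_le_max le_rfl ?_
        push_cast
        nlinarith
      have hb0 : 0 ≤ b := le_max_left _ _
      have h2 : a ^ 2 - b ^ 2 ≤ a * (2 * s) := by nlinarith
      have h3 : a ^ 2 / (2 * s) - b ^ 2 / (2 * s) ≤ a := by
        rw [← sub_div, div_le_iff₀ (by positivity)]
        exact h2
      linarith
  have h2 := h1 n
  have h3 : lam - n * s ≤ 0 := by
    rw [div_le_iff₀ hs] at hn
    linarith
  rw [max_eq_left h3] at h2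
  simpa using h2

section Taylor

variable {Ω : Type*} [Field Ω] (w : RVal Ω)

/-- The lower bound of (4.1): if the Taylor coefficients of `f` and `g` at `z` of index `j` have
values `≥ 0` and `≥ lam - j s`, then the resultant has value at least `lam^2 / (2 s)`. -/
theorem ge_resultant_taylor (f g : Polynomial Ω) (D : ℕ) (hfD : f.natDegree ≤ D) (hgD : g.natDegree ≤ D)
    (z : Ω) (lam s : ℝ) (hs : 0 < s) (hl : 0 ≤ lam) (hD : lam / s ≤ (D + D : ℕ))
    (hf : ∀ j : ℕ, w.Ge 0 ((f.taylor z).coeff j) ∧ w.Ge (lam - j * s) ((f.taylor z).coeff j))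
    (hg : ∀ j : ℕ, w.Ge 0 ((g.taylor z).coeff j) ∧ w.Ge (lam - j * s) ((g.taylor z).coeff j)) :
    w.Ge (lam ^ 2 / (2 * s)) (resultant f g D D) := by
  rw [← resultant_taylor_formal f g z D hfD hgD]
  refine (ge_resultant w _ _ D (fun j => max 0 (lam - j * s)) ?_ ?_ ?_).mono
    (sum_max_ge lam s hs hl _ hD)
  · intro i j hij
    refine max_le_max le_rfl ?_
    have : (i : ℝ) ≤ j := by exact_mod_cast hij
    nlinarith
  · intro j h0
    exact max_le ((hf j).1 h0) ((hf j).2 h0)
  · intro j h0
    exact max_le ((hg j).1 h0) ((hg j).2 h0)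

end Taylor

section Degree

variable {k σ : Type*} [Field k]

theorem totalDegree_det_le {n : ℕ} (M : Matrix (Fin n) (Fin n) (MvPolynomial σ k)) (P : ℕ)
    (h : ∀ i j, (M i j).totalDegree ≤ P) : M.det.totalDegree ≤ n * P := by
  rw [Matrix.det_apply]
  refine MvPolynomial.totalDegree_finsetSum_le fun σ _ => ?_
  have h1 : (∏ i, M (σ i) i).totalDegree ≤ n * P := by
    refine (MvPolynomial.totalDegree_finsetProd _ _).trans ?_
    calc ∑ i, (M (σ i) i).totalDegree ≤ ∑ _i : Fin n, P := Finset.sum_le_sum fun i _ => h _ _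
      _ = n * P := by simp
  rcases Int.units_eq_one_or (Equiv.Perm.sign σ) with h2 | h2
  · rw [h2, one_smul]; exact h1
  · rw [h2, Units.neg_smul, one_smul, MvPolynomial.totalDegree_neg]; exact h1

theorem totalDegree_resultant_le (f g : Polynomial (MvPolynomial σ k)) (D P : ℕ)
    (hf : ∀ j, (f.coeff j).totalDegree ≤ P) (hg : ∀ j, (g.coeff j).totalDegree ≤ P) :
    (resultant f g D D).totalDegree ≤ (D + D) * P := by
  rw [resultant]
  refine totalDegree_det_le _ P fun i j => ?_
  rw [sylvester, Matrix.of_apply]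
  induction j using Fin.addCases with
  | left j =>
    rw [Fin.addCases_left]
    split_ifs
    · exact hg _
    · simp
  | right j =>
    rw [Fin.addCases_right]
    split_ifs
    · exact hf _
    · simp

end Degree

end Pool.Agent.JMF
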