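import Pool.Agent.Lib.JM_H15.Final3

/-!
# Valuations of rational rank `n - 1` are not `Big` (row END of the tank JM)

`Big v`: every valuation `V ≤ v` (on the polynomials) with log discrepancy at most `A(v) - δ` has
`(1 + δ κ) V f < v f` for some polynomial `f`, with a constant `κ > 0` independent of `V`.
-/

set_option autoImplicit false

open MvPolynomial
open scoped Pointwise

namespace Pool.Agent.H15JM

/-- There are `κ > 0` and `a₀ > 0` such that for every `δ < a₀` and every valuation `V` with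
`0 ≤ V ≤ v` on the polynomials, with the same values as `v` at the coordinates centred at the
centre of `v` and with `A(V) ≤ A(v) - δ`, there is a polynomial `p` with
`(1 + δ κ) V(p) < v(p)`. -/
def Big {k : Type} [Field k] {n : ℕ} (v : ValX k n) : Prop :=
  ∃ κ > 0, ∃ a₀ > 0, ∀ (V : RVal (FF k n)) (δ : ℝ), 0 < δ → δ < a₀ →
    (∀ p : MvPolynomial (Fin n) k, p ≠ 0 → 0 ≤ V (toFF p)) →
    (∀ p : MvPolynomial (Fin n) k, p ≠ 0 → V (toFF p) ≤ v (toFF p)) →
    (∀ f : Fin n → FF k n, jacD pd f ≠ 0 →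
      ∑ i, V (f i) - V (jacD pd f) ≤ v.logDisc.toReal - δ) →
    (∀ (i : Fin n) (b : k), 0 < v (toFF (X i - C b)) →
      V (toFF (X i - C b)) = v (toFF (X i - C b))) →
    ∃ p : MvPolynomial (Fin n) k, p ≠ 0 ∧ (1 + δ * κ) * V (toFF p) < v (toFF p)

variable {k : Type} [Field k] [CharZero k] {N : ℕ}

theorem no_big (v : ValX k (N + 1)) (hres : v.ResidueFieldIs)
    (Y : Fin N → MvPolynomial (Fin (N + 1)) k) (hY0 : ∀ i, Y i ≠ 0)
    (indep : LinearIndependent ℚ fun i => v (toFF (Y i)))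
    (t : Fin (N + 1) → FF k (N + 1)) (ht : ∀ i : Fin N, t i.castSucc = toFF (Y i))
    (z : MvPolynomial (Fin (N + 1)) k) (htz : t (Fin.last N) = toFF z)
    (D : Fin (N + 1) → Derivation k (FF k (N + 1)) (FF k (N + 1)))
    (D_t : ∀ i j, D j (t i) = if i = j then 1 else 0)
    (hgood : ∀ γ' : ℝ, (∀ f, D (Fin.last N) f ≠ 0 → v f < v (D (Fin.last N) f) + γ') →
      (∀ f, D (Fin.last N) f ≠ 0 → v f - v (D (Fin.last N) f) ≤ γ') →
      ∀ f, Good v.toRVal (D (Fin.last N)) γ' f)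
    (hfin : v.logDisc < ⊤) (hbig : Big v)
    (hval : ∀ f : FF k (N + 1), f ≠ 0 → ∃ m : ℕ, m ≠ 0 ∧ ∃ b : Fin N → ℤ,
      m * v f = ∑ i, b i * v (toFF (Y i))) : False := by
  classical
  have : CharZero (FF k (N + 1)) :=
    charZero_of_injective_algebraMap (algebraMap k (FF k (N + 1))).injective
  set u : RVal (FF k (N + 1)) := v.toRVal with hu
  have hk : ∀ c : k, c ≠ 0 → u (algebraMap k (FF k (N + 1)) c) = 0 := v.map_const
  have hn : ∀ m : ℕ, m ≠ 0 → u ((m : FF k (N + 1))) = 0 := by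
    intro m hm
    have := hk (m : k) (by exact_mod_cast hm)
    rwa [map_natCast] at this
  have hpoly : ∀ p : MvPolynomial (Fin (N + 1)) k, p ≠ 0 → 0 ≤ u (toFF p) := v.nonneg'
  set A : ℝ := v.logDisc.toReal with hAdef
  have hApd : ∀ f : Fin (N + 1) → FF k (N + 1), jacD pd f ≠ 0 →
      ∑ i, u (f i) - u (jacD pd f) ≤ A := fun f hf => v.le_toReal hfin f hf
  set l : Fin (N + 1) := Fin.last N with hl
  -- the coordinates centred at the point
  have hX0 : ∀ (i : Fin (N + 1)) (c : k), (X i - C c : MvPolynomial (Fin (N + 1)) k) ≠ 0 := by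
    intro i c h
    have h1 := congrArg (pderiv i) h
    rw [_root_.map_sub, pderiv_X_self, pderiv_C, sub_zero, _root_.map_zero] at h1
    exact one_ne_zero h1
  have hcen : ∀ i : Fin (N + 1), ∃ c : k, 0 < u (toFF (X i - C c)) := by
    intro i
    have h0 : 0 ≤ u (toFF (X i)) := hpoly _ (X_ne_zero i)
    rcases h0.lt_or_eq with h | h
    · exact ⟨0, by simpa using h⟩
    · obtain ⟨c, hc⟩ := hres (toFF (X i)) (toFF_ne_zero (X_ne_zero i)) h.symm
      have hC : algebraMap k (FF k (N + 1)) c = toFF (C c) := (toFF_C c).symm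
      refine ⟨c, ?_⟩
      rcases hc with hc | hc
      · exfalso
        rw [hC] at hc
        exact hX0 i c (by rw [toFF_injective hc, sub_self])
      · rw [hC, ← _root_.map_sub] at hc
        exact hc
  choose c hc using hcen
  set x : Fin (N + 1) → FF k (N + 1) := fun i => toFF (X i - C (c i)) with hx
  have hxpos : ∀ i, 0 < u (x i) := hc
  have hx0 : ∀ i, x i ≠ 0 := fun i => toFF_ne_zero (hX0 i (c i))
  have pd_x : ∀ i j, pd j (x i) = if i = j then 1 else 0 := by
    intro i j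
    rw [hx]
    simp only
    rw [pd_toFF, _root_.map_sub, pderiv_C, sub_zero]
    by_cases h : i = j
    · subst h; simp
    · rw [pderiv_X_of_ne h, if_neg h, _root_.map_zero]
  have hJx : jacD pd x = 1 := jacD_dual pd x pd_x
  have hderpd : ∀ j g, pd j g ≠ 0 → u g - u (pd j g) ≤ A := fun j g hg =>
    der_bound u pd x pd_x A hApd (fun i => (hxpos i).le) j g hg
  have hAx : ∑ i, u (x i) ≤ A := by
    have := hApd x (by rw [hJx]; exact one_ne_zero)
    rwa [hJx, u.map_one, sub_zero] at this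
  have hxA : ∀ i, u (x i) ≤ A := fun i =>
    (Finset.single_le_sum (fun j _ => (hxpos j).le) (Finset.mem_univ i)).trans hAx
  have hA0 : 0 < A := lt_of_lt_of_le (hxpos l) (hxA l)
  -- the frame
  have htnn : ∀ i, 0 ≤ u (t i) := by
    intro i
    refine Fin.lastCases ?_ (fun i => ?_) i
    · rw [htz]
      by_cases hz : z = 0
      · exfalso
        have := D_t l l
        rw [hl, htz, hz, _root_.map_zero, _root_.map_zero, if_pos rfl] at this
        exact zero_ne_one this
      · exact hpoly z hz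
    · rw [ht]
      exact hpoly _ (hY0 i)
  set μ : FF k (N + 1) := jacD D (fun i => toFF (X i)) with hμ
  have htt : jacD D t = 1 := jacD_dual D t D_t
  have hμt : μ * jacD pd t = 1 := by rw [hμ, ← jacD_chain D t, htt]
  have hμ0 : μ ≠ 0 := left_ne_zero_of_mul_eq_one hμt
  set A' : ℝ := A - u μ with hA'def
  have hA' : ∀ f : Fin (N + 1) → FF k (N + 1), jacD D f ≠ 0 →
      ∑ i, u (f i) - u (jacD D f) ≤ A' := by
    intro f hf
    rw [jacD_chain D f] at hf ⊢
    rw [u.map_mul hμ0 (right_ne_zero_of_mul hf)]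
    have := hApd f (right_ne_zero_of_mul hf)
    rw [hA'def]
    linarith
  have hder : ∀ j g, D j g ≠ 0 → u g - u (D j g) ≤ A' := fun j g hg =>
    der_bound u D t D_t A' hA' htnn j g hg
  -- the supremum
  set T₀ : Set ℝ := {s | ∃ g, D l g ≠ 0 ∧ s = u g - u (D l g)} with hT₀
  have hDtl : D l (t l) = 1 := by rw [D_t, if_pos rfl]
  have hTne : T₀.Nonempty := ⟨_, t l, by rw [hDtl]; exact one_ne_zero, rfl⟩
  have hTbdd : BddAbove T₀ := ⟨A', by rintro s ⟨g, hg, rfl⟩; exact hder l g hg⟩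
  set γ' : ℝ := sSup T₀ with hγ'
  have hsup : ∀ f, D l f ≠ 0 → u f - u (D l f) ≤ γ' := fun f hf =>
    le_csSup hTbdd ⟨f, hf, rfl⟩
  have happrox : ∀ ε > 0, ∃ g, D l g ≠ 0 ∧ γ' - ε ≤ u g - u (D l g) := by
    intro ε hε
    obtain ⟨s, ⟨g, hg, rfl⟩, hs⟩ := exists_lt_of_lt_csSup hTne (show γ' - ε < sSup T₀ by linarith)
    exact ⟨g, hg, hs.le⟩
  have hDyc : ∀ i : Fin N, D l (toFF (Y i)) = 0 := by
    intro i
    rw [← ht, D_t, if_neg]
    exact (Fin.castSucc_lt_last i).ne
  have hstrict : ∀ f, D l f ≠ 0 → u f < u (D l f) + γ' :=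
    strict u hn hres (D l) γ' hsup (fun i : Fin N => toFF (Y i)) (fun i => toFF_ne_zero (hY0 i))
      hDyc hval
  have hG : ∀ f, Good u (D l) γ' f := hgood γ' hstrict hsup
  -- the ring of polynomials
  set R₀ : Subalgebra k (FF k (N + 1)) := (toFF (k := k) (n := N + 1)).range with hR₀
  have hmemR₀ : ∀ p : MvPolynomial (Fin (N + 1)) k, toFF p ∈ R₀ := fun p => ⟨p, rfl⟩
  have hR₀gen : ∀ r ∈ R₀, ∃ c : k, ∃ r' : Fin (N + 1) → FF k (N + 1), (∀ i, r' i ∈ R₀) ∧
      r = algebraMap k (FF k (N + 1)) c + ∑ i, x i * r' i := by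
    rintro _ ⟨p, rfl⟩
    obtain ⟨b, g, hb⟩ := taylor_one c p
    refine ⟨b, fun i => toFF (g i), fun i => hmemR₀ _, ?_⟩
    exact toFF_taylor c p b g hb
  have hR₀frac : ∀ f : FF k (N + 1), ∃ a ∈ R₀, ∃ b ∈ R₀, b ≠ 0 ∧ f = a / b := by
    intro f
    obtain ⟨p, q, hq, rfl⟩ := exists_frac f
    exact ⟨toFF p, hmemR₀ p, toFF q, hmemR₀ q, toFF_ne_zero hq, rfl⟩
  -- the constants
  obtain ⟨c₀, hc₀, hc₁⟩ : ∃ c₀ : ℝ, 0 < c₀ ∧ (∀ i, c₀ ≤ u (x i)) := by
    refine ⟨Finset.univ.inf' Finset.univ_nonempty (fun i => u (x i)), ?_, ?_⟩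
    · exact (Finset.lt_inf'_iff _).mpr fun i _ => hxpos i
    · intro i
      exact Finset.inf'_le _ (Finset.mem_univ i)
  obtain ⟨κ, hκ0, a₀, ha₀, hbig⟩ := hbig
  set cY : ℝ := ∑ i, u (toFF (Y i)) with hcY
  have hYnn : ∀ i, 0 ≤ u (toFF (Y i)) := fun i => hpoly _ (hY0 i)
  have hYle : ∀ i, u (toFF (Y i)) ≤ cY := fun i =>
    Finset.single_le_sum (f := fun i => u (toFF (Y i))) (fun j _ => hYnn j) (Finset.mem_univ i)
  have hcY0 : 0 ≤ cY := Finset.sum_nonneg fun i _ => hYnn i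
  obtain ⟨E, hE⟩ := exists_nat_gt
    ((2 ^ N * (N.factorial : ℝ) * 3 ^ (N + 1) * ((N + 1) * A) ^ N) / (κ * c₀ ^ (N + 1)) + cY / A)
  have hE1 : (2 ^ N * (N.factorial : ℝ) * 3 ^ (N + 1) * ((N + 1) * A) ^ N) / (κ * c₀ ^ (N + 1)) < E := by
    have : 0 ≤ cY / A := by positivity
    linarith
  have hE2 : cY / A < E := by
    have : 0 ≤ (2 ^ N * (N.factorial : ℝ) * 3 ^ (N + 1) * ((N + 1) * A) ^ N) / (κ * c₀ ^ (N + 1)) := by
      positivity
    linarith
  have hE' : 2 ^ N * (N.factorial : ℝ) * 3 ^ (N + 1) * ((N + 1) * A) ^ N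
      < κ * c₀ ^ (N + 1) * E := by
    rw [div_lt_iff₀ (by positivity)] at hE1
    linarith
  have hE0 : 0 < E := by
    have : (0 : ℝ) < E := lt_of_le_of_lt (by positivity) hE1
    exact_mod_cast this
  have hEA : cY ≤ E * A := by
    rw [div_lt_iff₀ hA0] at hE2
    exact hE2.le
  set lam : ℝ := (N + 1) * E * A with hlam
  have hlam0 : 0 ≤ lam := by positivity
  have hlam1 : cY ≤ lam := by
    have h1 : (0 : ℝ) ≤ N * (E * A) := by positivity
    have h2 : lam = N * (E * A) + E * A := by rw [hlam]; ring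
    linarith
  -- the values
  obtain ⟨W, hWfin, hWrank, hWmem, hWval⟩ := exists_subspace u hk pd x pd_x A hA0.le hderpd E
  obtain ⟨SW, hSWcard, hSWmem, hSWinj⟩ := exists_distinct_values u hk hres W
  set S0 : Finset (FF k (N + 1)) :=
    SW ∪ ({1} ∪ Finset.univ.image fun i : Fin N => toFF (Y i)) with hS0def
  have hadj : Algebra.adjoin k (Set.range x) ≤ R₀ := by
    rw [Algebra.adjoin_le_iff]
    rintro _ ⟨i, rfl⟩
    exact hmemR₀ _
  have hS0mem : ∀ s ∈ S0, s ∈ R₀ ∧ s ≠ 0 ∧ u s ≤ lam := by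
    intro s hs
    rw [hS0def, Finset.mem_union, Finset.mem_union, Finset.mem_singleton, Finset.mem_image] at hs
    rcases hs with hs | rfl | ⟨i, _, rfl⟩
    · obtain ⟨h1, h2⟩ := hSWmem s hs
      refine ⟨hadj (hWmem s h1), h2, ?_⟩
      have := hWval s h1 h2
      push_cast at this
      exact this
    · refine ⟨R₀.one_mem, one_ne_zero, ?_⟩
      rw [u.map_one]
      exact hlam0
    · exact ⟨hmemR₀ _, toFF_ne_zero (hY0 i), (hYle i).trans hlam1⟩
  -- the choice of γ
  set S1 : Finset (FF k (N + 1)) := S0 ∪ ({μ} ∪ Finset.univ.image x) with hS1def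
  have hS1ne : ∀ s ∈ S1, s ≠ 0 := by
    intro s hs
    rcases Finset.mem_union.mp hs with hs | hs
    · exact (hS0mem s hs).2.1
    rw [Finset.mem_union, Finset.mem_singleton, Finset.mem_image] at hs
    rcases hs with rfl | ⟨i, _, rfl⟩
    · exact hμ0
    · exact hx0 i
  have hxS1 : ∀ i, x i ∈ S1 := fun i => Finset.mem_union_right _
    (Finset.mem_union_right _ (Finset.mem_image.mpr ⟨i, Finset.mem_univ i, rfl⟩))
  have hμS1 : μ ∈ S1 := Finset.mem_union_right _
    (Finset.mem_union_left _ (Finset.mem_singleton_self μ))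
  obtain ⟨γ₀, hγ1, hγ2⟩ : ∃ γ₀, γ₀ < γ' ∧ ∀ s ∈ S1, ∃ ε > 0, ∀ m : ℕ, m ≠ 0 →
      u.Ge (u s + ε - m * γ₀) (dd (D l) m s) := by
    have key2 : ∀ T : Finset (FF k (N + 1)), T ⊆ S1 → ∃ γ₁, γ₁ < γ' ∧
        ∀ s ∈ T, ∃ ε > 0, ∀ m : ℕ, m ≠ 0 → u.Ge (u s + ε - m * γ₁) (dd (D l) m s) := by
      intro T
      induction T using Finset.induction_on with
      | empty =>
        intro _
        exact ⟨γ' - 1, by linarith, fun s hs => absurd hs (Finset.notMem_empty s)⟩
      | insert t T ht ih =>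
        intro hT
        obtain ⟨γ₁, h1, h2⟩ := ih fun s hs => hT (Finset.mem_insert_of_mem hs)
        obtain ⟨γ₂, h3, ε, hε, h4⟩ := (hG t).uniform hstrict hn
          (hS1ne t (hT (Finset.mem_insert_self t T)))
        refine ⟨max γ₁ γ₂, max_lt h1 h3, fun s hs => ?_⟩
        rcases Finset.mem_insert.mp hs with rfl | hs
        · refine ⟨ε, hε, fun m hm => (h4 m hm).mono ?_⟩
          have := mul_le_mul_of_nonneg_left (le_max_right γ₁ γ₂) (Nat.cast_nonneg (α := ℝ) m)
          linarith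
        · obtain ⟨ε', hε', h5⟩ := h2 s hs
          refine ⟨ε', hε', fun m hm => (h5 m hm).mono ?_⟩
          have := mul_le_mul_of_nonneg_left (le_max_left γ₁ γ₂) (Nat.cast_nonneg (α := ℝ) m)
          linarith
    exact key2 S1 (Finset.Subset.refl _)
  set γ : ℝ := (max γ₀ (γ' - a₀) + γ') / 2 with hγdef
  have hγm : max γ₀ (γ' - a₀) < γ' := max_lt hγ1 (by linarith)
  have hγ3 : γ₀ < γ := by
    rw [hγdef]
    have := le_max_left γ₀ (γ' - a₀)
    linarith
  have hγ4 : γ < γ' := by rw [hγdef]; linarith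
  have hγ5 : γ' - γ < a₀ := by
    rw [hγdef]
    have := le_max_right γ₀ (γ' - a₀)
    linarith
  have hS1G : ∀ s ∈ S1, IsG u (D l) γ s (u s) 0 := by
    intro s hs
    obtain ⟨ε, hε, h⟩ := hγ2 s hs
    refine ⟨by rw [dd_zero]; exact hS1ne s hs, by simp, ?_, fun m hm => absurd hm (Nat.not_lt_zero m)⟩
    intro m hm
    by_cases hm0 : m = 0
    · subst hm0; simp
    · have h1 := h m hm0 hm
      have h2 := mul_le_mul_of_nonneg_left hγ3.le (Nat.cast_nonneg (α := ℝ) m)
      linarith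
  -- the ring of the functions with bounded Taylor series
  let R : Subring (FF k (N + 1)) :=
    { carrier := {f | ∃ C : ℝ, ∀ m : ℕ, u.Ge (C - m * γ₀) (dd (D l) m f)}
      mul_mem' := by
        rintro f g ⟨C₁, h₁⟩ ⟨C₂, h₂⟩
        refine ⟨C₁ + C₂, fun m => ?_⟩
        rw [dd_mul]
        refine RVal.Ge.sum _ _ fun ij hij => ?_
        have h := Finset.HasAntidiagonal.mem_antidiagonal.mp hij
        refine ((h₁ ij.1).mul (h₂ ij.2)).mono (le_of_eq ?_)
        rw [← h]
        push_cast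
        ring
      one_mem' := ⟨0, fun m => by
        by_cases hm : m = 0
        · subst hm
          intro _
          simp [u.map_one]
        · rw [dd_one _ _ hm]; exact RVal.Ge.zero⟩
      add_mem' := by
        rintro f g ⟨C₁, h₁⟩ ⟨C₂, h₂⟩
        refine ⟨min C₁ C₂, fun m => ?_⟩
        rw [dd_add]
        exact ((h₁ m).mono (by linarith [min_le_left C₁ C₂])).add
          ((h₂ m).mono (by linarith [min_le_right C₁ C₂]))
      zero_mem' := ⟨0, fun m => by rw [dd_map_zero]; exact RVal.Ge.zero⟩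
      neg_mem' := by
        rintro f ⟨C₁, h₁⟩
        exact ⟨C₁, fun m => by rw [dd_neg]; exact (h₁ m).neg⟩ }
  have hmemR : ∀ f, f ∈ R ↔ ∃ C : ℝ, ∀ m : ℕ, u.Ge (C - m * γ₀) (dd (D l) m f) := fun f => Iff.rfl
  have hS1R : ∀ s ∈ S1, s ∈ R := by
    intro s hs
    obtain ⟨ε, hε, h⟩ := hγ2 s hs
    refine ⟨u s, fun m => ?_⟩
    by_cases hm0 : m = 0
    · subst hm0
      intro _
      simp
    · exact (h m hm0).mono (by linarith)
  have hconstR : ∀ b : k, algebraMap k (FF k (N + 1)) b ∈ R := by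
    intro b
    refine ⟨0, fun m => ?_⟩
    by_cases hm : m = 0
    · subst hm
      rw [dd_zero]
      intro hb
      rw [hk b (by rintro rfl; exact hb (_root_.map_zero _))]
      simp
    · rw [dd_of_D_eq_zero _ _ hm _ ((D l).map_algebraMap b)]; exact RVal.Ge.zero
  have hR₀R : ∀ f ∈ R₀, f ∈ R := by
    rintro _ ⟨p, rfl⟩
    change toFF p ∈ R
    induction p using MvPolynomial.induction_on with
    | C b =>
      rw [toFF_C]; exact hconstR b
    | add p q hp hq => rw [_root_.map_add]; exact R.add_mem hp hq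
    | mul_X p i hp =>
      rw [_root_.map_mul]
      refine R.mul_mem hp ?_
      have h : toFF (X i : MvPolynomial (Fin (N + 1)) k) = x i + algebraMap k (FF k (N + 1)) (c i) := by
        rw [hx]
        simp only
        rw [_root_.map_sub, toFF_C, sub_add_cancel]
      rw [h]
      exact R.add_mem (hS1R _ (hxS1 i)) (hconstR _)
  have hfrac : ∀ f : FF k (N + 1), ∃ a ∈ R, ∃ b ∈ R, b ≠ 0 ∧ f = a / b := by
    intro f
    obtain ⟨a, ha, b, hb, hb0, h⟩ := hR₀frac f
    exact ⟨a, hR₀R a ha, b, hR₀R b hb, hb0, h⟩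
  have hcomm := derivations_comm D t D_t
  have hRD : ∀ i, ∀ f ∈ R, D i f ∈ R := by
    rintro i f ⟨C₁, h₁⟩
    refine ⟨C₁ - A', fun m => ?_⟩
    rw [← D_dd_comm (D l) (D i) (fun f => hcomm l i f)]
    intro hne
    have h2 := hder i _ hne
    have h3 : dd (D l) m f ≠ 0 := by
      intro h0
      rw [h0, _root_.map_zero] at hne
      exact hne rfl
    have h4 := h₁ m h3
    linarith
  have hex : ∀ f ∈ R, f ≠ 0 → ∃ V Q, IsG u (D l) γ f V Q := by
    rintro f ⟨C₁, h₁⟩ hf0
    exact exists_isG' hγ3 f hf0 h₁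
  obtain ⟨V, hV'⟩ := exists_gauss' (v := u) (D := D l) (γ := γ) R hex hfrac
  have hVS1 : ∀ s ∈ S1, V s = u s := by
    intro s hs
    obtain ⟨Q, hQ⟩ := hV' s (hS1R s hs) (hS1ne s hs)
    exact (hQ.unique (hS1G s hs)).1
  have hVx : ∀ i, V (x i) = u (x i) := fun i => hVS1 _ (hxS1 i)
  have hVμ : V μ = u μ := hVS1 _ hμS1
  have hVconst : ∀ b : k, V.Ge 0 (algebraMap k (FF k (N + 1)) b) := by
    intro b hb
    obtain ⟨Q, hQ⟩ := hV' _ (hconstR b) hb
    have h := isG_of_D_eq_zero (v := u) (D := D l) (γ := γ) hb ((D l).map_algebraMap b)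
    rw [(hQ.unique h).1, hk b (by rintro rfl; exact hb (_root_.map_zero _))]
  have hVx0 : ∀ i, V.Ge 0 (x i) := fun i _ => by rw [hVx]; exact (hxpos i).le
  have hVR₀ : ∀ f ∈ R₀, V.Ge 0 f := by
    rintro _ ⟨p, rfl⟩
    change V.Ge 0 (toFF p)
    induction p using MvPolynomial.induction_on with
    | C b =>
      rw [toFF_C]; exact hVconst b
    | add p q hp hq => rw [_root_.map_add]; exact hp.add hq
    | mul_X p i hp =>
      rw [_root_.map_mul]
      have h : toFF (X i : MvPolynomial (Fin (N + 1)) k) = x i + algebraMap k (FF k (N + 1)) (c i) := by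
        rw [hx]
        simp only
        rw [_root_.map_sub, toFF_C, sub_add_cancel]
      rw [h]
      have := hp.mul ((hVx0 i).add (hVconst (c i)))
      rwa [add_zero] at this
  have hV0 : ∀ f ∈ R₀, f ≠ 0 → 0 ≤ V f := fun f hf hf0 => hVR₀ f hf hf0
  have hVv : ∀ f ∈ R₀, f ≠ 0 → V f ≤ u f := by
    intro f hf hf0
    obtain ⟨Q, hQ⟩ := hV' f (hR₀R f hf) hf0
    exact hQ.le
  -- the log discrepancy
  have hdrop := disc_drop u hn D hcomm l R hRD hfrac A' γ' γ hA' happrox V hV'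
  have hdrop' : ∀ f : Fin (N + 1) → FF k (N + 1), jacD pd f ≠ 0 →
      ∑ i, V (f i) - V (jacD pd f) ≤ A - (γ' - γ) := by
    intro f hf
    have hf' : jacD D f ≠ 0 := by
      rw [jacD_chain D f]; exact mul_ne_zero hμ0 hf
    have h1 := hdrop f hf'
    rw [jacD_chain D f, V.map_mul hμ0 hf] at h1
    have h3 : V (jacD D fun i => toFF (X i)) = V μ := rfl
    rw [h3, hVμ] at h1
    linarith
  have hcuniq : ∀ (i : Fin (N + 1)) (b : k), 0 < u (toFF (X i - C b)) → b = c i := by
    intro i b hb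
    by_contra hne
    have h1 : u (toFF (X i - C b) - x i) = 0 := by
      have h2 : toFF (X i - C b) - x i = algebraMap k (FF k (N + 1)) (c i - b) := by
        rw [hx]
        simp only
        rw [← _root_.map_sub, ← toFF_C]
        congr 1
        rw [_root_.map_sub]
        ring
      rw [h2]
      exact hk _ (sub_ne_zero.2 (Ne.symm hne))
    have h3 : toFF (X i - C b) - x i ≠ 0 := by
      intro h0
      apply hne
      have h4 : toFF (X i - C b) = toFF (X i - C (c i)) := sub_eq_zero.1 h0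
      have h5 := toFF_injective h4
      have h6 : (C b : MvPolynomial (Fin (N + 1)) k) = C (c i) := by linear_combination -h5
      exact C_injective _ _ h6
    have h4 : min (u (toFF (X i - C b))) (u (x i)) ≤ u (toFF (X i - C b) - x i) := by
      have h5 := u.map_add (toFF_ne_zero (hX0 i b)) (neg_ne_zero.2 (hx0 i)) (by
        rwa [← sub_eq_add_neg])
      rwa [u.map_neg _ (hx0 i), ← sub_eq_add_neg] at h5
    have h5 := lt_min hb (hxpos i)
    linarith
  obtain ⟨p, hp0, hp⟩ := hbig V (γ' - γ) (by linarith) hγ5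
    (fun p hp => hV0 _ (hmemR₀ p) (toFF_ne_zero hp))
    (fun p hp => hVv _ (hmemR₀ p) (toFF_ne_zero hp)) hdrop'
    (fun i b hb => by rw [hcuniq i b hb]; exact hVx i)
  obtain ⟨Q, hQ⟩ := hV' (toFF p) (hR₀R _ (hmemR₀ p)) (toFF_ne_zero hp0)
  have hQle := hQ.v_le hstrict hn
  have hQκ : κ * V (toFF p) < Q := by
    have h1 : (1 + (γ' - γ) * κ) * V (toFF p) < u (toFF p) := hp
    have h2 : (γ' - γ) * (κ * V (toFF p)) < (γ' - γ) * Q := by linarith
    exact lt_of_mul_lt_mul_left h2 (by linarith)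
  have hVp0 := hV0 _ (hmemR₀ p) (toFF_ne_zero hp0)
  have hQ0 : Q ≠ 0 := by
    rintro rfl
    have := mul_nonneg hκ0.le hVp0
    push_cast at hQκ
    linarith
  obtain ⟨Qs, rfl⟩ := Nat.exists_eq_succ_of_ne_zero hQ0
  have hVs0 : 0 < V (toFF p) := by
    have hvp : 0 < u (toFF p) := by
      have h1 : 0 ≤ (1 + (γ' - γ) * κ) * V (toFF p) := by
        have : 0 ≤ γ' - γ := by linarith
        positivity
      exact lt_of_le_of_lt h1 hp
    obtain ⟨b, g, hb⟩ := taylor_one c p
    have hpe : toFF p = algebraMap k (FF k (N + 1)) b + ∑ i, x i * toFF (g i) :=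
      toFF_taylor c p b g hb
    have hgu : ∀ i, u.Ge 0 (toFF (g i)) := fun i hne =>
      hpoly _ (by rintro h; exact hne (by rw [h, _root_.map_zero]))
    have hsumu : u.Ge c₀ (∑ i, x i * toFF (g i)) := by
      refine RVal.Ge.sum _ _ fun i _ => ?_
      have := (RVal.Ge.of_le (hc₁ i)).mul (hgu i)
      rwa [add_zero] at this
    have hb0 : b = 0 := by
      by_contra hb0
      have hbne : algebraMap k (FF k (N + 1)) b ≠ 0 := by simpa using hb0
      have h1 : u (toFF p) = 0 := by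
        by_cases hs : ∑ i, x i * toFF (g i) = 0
        · rw [hpe, hs, add_zero, hk b hb0]
        · have h2 := u.add_of_lt hbne hs (by rw [hk b hb0]; exact lt_of_lt_of_le hc₀ (hsumu hs))
          rw [hpe, h2.2, hk b hb0]
      linarith
    rw [hb0, _root_.map_zero, zero_add] at hpe
    have hsumV : V.Ge c₀ (∑ i, x i * toFF (g i)) := by
      refine RVal.Ge.sum _ _ fun i _ => ?_
      have h1 : V.Ge c₀ (x i) := fun _ => by rw [hVx]; exact hc₁ i
      have := h1.mul (hVR₀ _ (hmemR₀ (g i)))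
      rwa [add_zero] at this
    have h3 := hsumV (by rw [← hpe]; exact toFF_ne_zero hp0)
    rw [← hpe] at h3
    linarith
  -- the family
  obtain ⟨C₁, hC₁, hH⟩ := family_count u (D l) γ hk hn R₀ x (fun i => hmemR₀ _) hR₀gen V
    (fun f hf hf0 => hV' f (hR₀R f hf) hf0) hV0 hR₀frac c₀ hc₀
    (fun i _ => by rw [hVx]; exact hc₁ i) (S0.image u) lam
    (by
      intro β hβ
      obtain ⟨s, hs, rfl⟩ := Finset.mem_image.mp hβ
      exact ⟨(hS0mem s hs).2.2, s, (hS0mem s hs).1, hS1G s (Finset.mem_union_left _ hs)⟩)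
    (toFF p) (hmemR₀ p) (V (toFF p)) Qs hQ
  have hBcard : E ^ (N + 1) ≤ (S0.image u).card := by
    have h1 : (SW.image u).card = E ^ (N + 1) := by
      rw [Finset.card_image_of_injOn hSWinj, hSWcard, hWrank]
    rw [← h1]
    exact Finset.card_le_card (Finset.image_subset_image Finset.subset_union_left)
  refine numeric N E (Qs + 1) A κ c₀ (V (toFF p)) C₁ hA0 hκ0 hc₀ hVs0 hC₁ hE0
    (by exact_mod_cast hQκ) hE' ?_
  intro L T M' hL hM'
  have h1 := hH (L + N) T M' (by push_cast; exact hM')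
  have h2 := sumset_growth (S0.image u) (fun i : Fin N => u (toFF (Y i))) indep
    (Finset.mem_image.mpr ⟨1, by simp [hS0def], u.map_one⟩)
    (fun i => Finset.mem_image.mpr ⟨toFF (Y i), by
      rw [hS0def, Finset.mem_union, Finset.mem_union, Finset.mem_image]
      exact Or.inr (Or.inr ⟨i, Finset.mem_univ i, rfl⟩), rfl⟩)
    (L + N) (by omega)
  have h3 : ((L : ℝ) ^ N) ≤ N.factorial * ((L + N - 1).choose N : ℝ) := by
    have := Nat.pow_le_choose (α := ℝ) N (L + N - 1)
    rw [div_le_iff₀ (by positivity)] at this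
    have e : L + N - 1 + 1 - N = L := by omega
    rw [e] at this
    linarith
  have h4 : ((E : ℝ) ^ (N + 1)) * ((L + N - 1).choose N : ℝ) ≤ 2 ^ N * (((L + N) • S0.image u).card : ℝ) := by
    have h5 : E ^ (N + 1) * (L + N - 1).choose N ≤ 2 ^ N * ((L + N) • S0.image u).card :=
      (Nat.mul_le_mul_right _ hBcard).trans h2
    exact_mod_cast h5
  have h6 : ((((L + N) • S0.image u).card : ℝ)) * T * (Qs + 1) ≤ (M' : ℝ) ^ (N + 1) := by
    exact_mod_cast h1
  have hTQ : (0 : ℝ) ≤ T * (Qs + 1) := by positivity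
  calc (E : ℝ) ^ (N + 1) * L ^ N * T * ((Qs + 1 : ℕ) : ℝ)
      = (E : ℝ) ^ (N + 1) * L ^ N * (T * (Qs + 1)) := by push_cast; ring
    _ ≤ (E : ℝ) ^ (N + 1) * (N.factorial * ((L + N - 1).choose N : ℝ)) * (T * (Qs + 1)) := by
        gcongr
    _ = N.factorial * ((E : ℝ) ^ (N + 1) * ((L + N - 1).choose N : ℝ)) * (T * (Qs + 1)) := by ring
    _ ≤ N.factorial * (2 ^ N * (((L + N) • S0.image u).card : ℝ)) * (T * (Qs + 1)) := by gcongr
    _ = 2 ^ N * N.factorial * ((((L + N) • S0.image u).card : ℝ) * T * (Qs + 1)) := by ring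
    _ ≤ 2 ^ N * N.factorial * (M' : ℝ) ^ (N + 1) := by gcongr


/-- A valuation which is `Big`, with residue field `k`, finite log discrepancy and rational rank at
least `n - 1` has rational rank `n`. -/
theorem rank_eq_of_big (v : ValX k (N + 1)) (hres : v.ResidueFieldIs)
    (hrank : ∃ f : Fin N → FF k (N + 1), (∀ i, f i ≠ 0) ∧ LinearIndependent ℚ fun i => v (f i))
    (hfin : v.logDisc < ⊤) (hbig : Big v) :
    ∃ f : Fin (N + 1) → FF k (N + 1), (∀ i, f i ≠ 0) ∧ LinearIndependent ℚ fun i => v (f i) := by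
  by_contra hcon
  push Not at hcon
  have : CharZero (FF k (N + 1)) :=
    charZero_of_injective_algebraMap (algebraMap k (FF k (N + 1))).injective
  obtain ⟨f₀, hf₀, hf₀i⟩ := hrank
  obtain ⟨Y, hY0, hYi⟩ := exists_poly_indep v f₀ hf₀ hf₀i
  have hY0' : ∀ i, toFF (Y i) ≠ 0 := fun i => toFF_ne_zero (hY0 i)
  have hYalg := algebraicIndependent_of_values v (fun i => toFF (Y i)) hY0' hYi
  obtain ⟨j, hj⟩ := exists_coordinate (fun i => toFF (Y i)) hYalg
  set t : Fin (N + 1) → FF k (N + 1) := Fin.snoc (fun i => toFF (Y i)) (toFF (X j)) with ht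
  have ht1 : ∀ i : Fin N, t i.castSucc = toFF (Y i) := fun i => by rw [ht]; simp
  have ht2 : t (Fin.last N) = toFF (X j) := by rw [ht]; simp
  obtain ⟨D, hD⟩ := exists_dual_derivations t (jacD_ne_zero t hj)
  have hval : ∀ f : FF k (N + 1), f ≠ 0 → ∃ m : ℕ, m ≠ 0 ∧ ∃ b : Fin N → ℤ,
      m * v f = ∑ i, b i * v (toFF (Y i)) := by
    intro f hf
    have hspan : v f ∈ Submodule.span ℚ (Set.range fun i : Fin N => v (toFF (Y i))) := by
      by_contra h
      refine hcon (Fin.snoc (fun i : Fin N => toFF (Y i)) f) ?_ ?_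
      · intro i
        refine Fin.lastCases ?_ (fun i => ?_) i
        · simpa using hf
        · simpa using hY0' i
      · have h1 : (fun i => v ((Fin.snoc (fun i : Fin N => toFF (Y i)) f :
            Fin (N + 1) → FF k (N + 1)) i)) = Fin.snoc (fun i : Fin N => v (toFF (Y i))) (v f) := by
          ext i
          refine Fin.lastCases ?_ (fun i => ?_) i
          · simp
          · simp
        rw [h1]
        exact hYi.finSnoc h
    rw [Submodule.mem_span_range_iff_exists_fun] at hspan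
    obtain ⟨c, hc⟩ := hspan
    refine ⟨∏ i, (c i).den, Finset.prod_ne_zero_iff.mpr fun i _ => (c i).den_nz,
      fun i => (c i).num * ∏ j ∈ Finset.univ.erase i, ((c j).den : ℤ), ?_⟩
    rw [← hc, Finset.mul_sum]
    refine Finset.sum_congr rfl fun i _ => ?_
    rw [← Finset.mul_prod_erase _ _ (Finset.mem_univ i)]
    push_cast
    rw [Rat.smul_def]
    have h2 : ((c i : ℚ) : ℝ) * ((c i).den : ℝ) = ((c i).num : ℝ) := by
      exact_mod_cast Rat.mul_den_eq_num (c i)
    rw [← h2]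
    ring
  have hn : ∀ m : ℕ, m ≠ 0 → v.toRVal ((m : FF k (N + 1))) = 0 := by
    intro m hm
    have := v.map_const (m : k) (by exact_mod_cast hm)
    rwa [map_natCast] at this
  refine no_big v hres Y hY0 hYi t ht1 (X j) ht2 D hD ?_ hfin hbig hval
  intro γ' _ hsup f
  refine good_all v.toRVal v.map_const hn hres (D (Fin.last N)) γ' hsup (fun i => toFF (Y i)) hY0'
    (fun i => ?_) hval (toFF (X j)) ?_ (Set.range t) ?_ hj.isAlgebraic_field f
  · rw [← ht1, hD, if_neg (Fin.castSucc_lt_last i).ne]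
  · rw [← ht2, hD, if_pos rfl]
  · rintro _ ⟨i, rfl⟩
    refine Fin.lastCases ?_ (fun i => ?_) i
    · exact Or.inl ht2
    · exact Or.inr ⟨i, ht1 i⟩

end Pool.Agent.H15JM
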