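import Pool.Agent.Lib.JM_H15.Gauss

/-!
# Bounded derivations on algebraic extensions, residue characteristic zero (OWNER: helper29)

`Ω` is algebraically closed and algebraic over `C`, `w` a real valuation of `Ω` which is invariant
under `Aut (Ω/C)`, of residue characteristic `0`. A derivation `E` of `Ω` with `w (E x) ≥ w x - γ`
on `C` satisfies the same inequality on `Ω`.
-/

set_option autoImplicit false

open Finset Polynomial

namespace Pool.Agent.JMF

open Pool.Agent.H15JM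

/-! ## Polynomials with `w (g_j) ≥ ρ - j r` -/

section PGe

variable {Ω : Type*} [Field Ω] (w : RVal Ω) (r : ℝ)

/-- `w (g_j) ≥ ρ - j r` for all coefficients. -/
def PGe (ρ : ℝ) (g : Polynomial Ω) : Prop := ∀ j : ℕ, w.Ge (ρ - j * r) (g.coeff j)

variable {w r}

theorem PGe.sum {ι : Type*} {ρ : ℝ} (s : Finset ι) (f : ι → Polynomial Ω)
    (hf : ∀ i ∈ s, PGe w r ρ (f i)) : PGe w r ρ (∑ i ∈ s, f i) := by
  intro j
  rw [finsetSum_coeff]
  exact RVal.Ge.sum _ _ fun i hi => hf i hi j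

theorem PGe.mul {ρ ρ' : ℝ} {f g : Polynomial Ω} (hf : PGe w r ρ f) (hg : PGe w r ρ' g) :
    PGe w r (ρ + ρ') (f * g) := by
  intro j
  rw [coeff_mul]
  refine RVal.Ge.sum _ _ fun x hx => ?_
  have hx' : x.1 + x.2 = j := mem_antidiagonal.1 hx
  refine ((hf x.1).mul (hg x.2)).mono ?_
  rw [← hx']
  push_cast
  linarith

theorem PGe.C {ρ : ℝ} {a : Ω} (ha : w.Ge ρ a) : PGe w r ρ (C a) := by
  intro j
  rw [coeff_C]
  split_ifs with h
  · subst h
    simpa using ha
  · exact RVal.Ge.zero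

theorem PGe.X_sub_C {a : Ω} (ha : w.Ge r a) : PGe w r r (X - Polynomial.C a) := by
  intro j
  rcases j with _ | _ | j
  · rw [coeff_sub, coeff_X_zero, coeff_C_zero, zero_sub]
    simpa using ha.neg
  · rw [coeff_sub, zero_add, coeff_X_one, coeff_C_of_ne_zero one_ne_zero, sub_zero]
    refine RVal.Ge.of_le ?_
    rw [w.map_one]
    simp
  · rw [coeff_sub, coeff_X_of_ne_one (by omega), coeff_C_of_ne_zero (by omega), sub_zero]
    exact RVal.Ge.zero

theorem PGe.prod {ι : Type*} (s : Finset ι) (c : ι → ℝ) (f : ι → Polynomial Ω)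
    (hf : ∀ i ∈ s, PGe w r (c i) (f i)) : PGe w r (∑ i ∈ s, c i) (∏ i ∈ s, f i) := by
  classical
  induction s using Finset.induction_on with
  | empty =>
    rw [Finset.sum_empty, Finset.prod_empty, ← Polynomial.C_1]
    exact PGe.C (RVal.Ge.of_le w.map_one.ge)
  | insert a s ha ih =>
    rw [Finset.sum_insert ha, Finset.prod_insert ha]
    exact (hf a (Finset.mem_insert_self a s)).mul (ih fun i hi => hf i (Finset.mem_insert_of_mem hi))

/-- The nodes `z ∈ Z` have value `r` and pairwise distance `r`: then the coefficients of a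
polynomial of degree `< #Z` are controlled by its values at the nodes. -/
theorem pge_of_eval [DecidableEq Ω] {ρ : ℝ} (Z : Finset Ω) (hZ : ∀ z ∈ Z, w.Ge r z)
    (hZZ : ∀ z ∈ Z, ∀ z' ∈ Z, z ≠ z' → w (z - z') = r) (g : Polynomial Ω) (hg : g.degree < #Z)
    (hv : ∀ z ∈ Z, w.Ge ρ (g.eval z)) : PGe w r ρ g := by
  rw [Lagrange.eq_interpolate (s := Z) (v := id) (fun _ _ _ _ h => h) hg,
    Lagrange.interpolate_apply]
  refine PGe.sum _ _ fun z hz => ?_
  have h1 : PGe w r (∑ z' ∈ Z.erase z, (0 : ℝ)) (Lagrange.basis Z id z) := by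
    rw [Lagrange.basis]
    refine PGe.prod _ _ _ fun z' hz' => ?_
    have hne : z ≠ z' := (Finset.ne_of_mem_erase hz').symm
    have hz'Z := Finset.mem_of_mem_erase hz'
    rw [Lagrange.basisDivisor]
    have h2 : w.Ge (-r) (id z - id z')⁻¹ := by
      refine RVal.Ge.of_le ?_
      rw [id, id, w.map_inv (sub_ne_zero.2 hne), hZZ z hz z' hz'Z hne]
    have h3 := (PGe.C (r := r) h2).mul (PGe.X_sub_C (hZ z' hz'Z))
    rw [neg_add_cancel] at h3
    exact h3
  rw [Finset.sum_const_zero] at h1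
  have h4 := (PGe.C (r := r) (hv z hz)).mul h1
  rw [add_zero] at h4
  exact h4

end PGe

/-! ## The derivation of a value of a polynomial -/

section Der

variable {k Ω : Type*} [Field k] [Field Ω] [Algebra k Ω]

/-- `E (g(θ)) = ∑ E(g_j) θ^j + g'(θ) E(θ)`. -/
theorem der_eval (E : Derivation k Ω Ω) (θ : Ω) (g : Polynomial Ω) :
    E (g.eval θ) = (g.sum fun j a => E a * θ ^ j) + (derivative g).eval θ * E θ := by
  have hadd : ∀ p q : Polynomial Ω, ((p + q).sum fun j a => E a * θ ^ j)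
      = (p.sum fun j a => E a * θ ^ j) + q.sum fun j a => E a * θ ^ j := by
    intro p q
    refine sum_add_index _ _ _ (fun i => by simp) (fun i a b => by rw [map_add, add_mul])
  induction g using Polynomial.induction_on' with
  | add p q hp hq =>
    rw [eval_add, map_add, hp, hq, hadd, derivative_add, eval_add]
    ring
  | monomial n c =>
    rw [eval_monomial, Derivation.leibniz, Derivation.leibniz_pow, sum_monomial_index _ _ (by simp),
      derivative_monomial, eval_monomial]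
    simp only [smul_eq_mul, nsmul_eq_mul]
    ring

end Der


/-! ## The cluster of a conjugate -/

section Cluster

variable {B Ω : Type*} [Field B] [Field Ω] [Algebra B Ω] [CharZero Ω] [IsAlgClosed Ω]
  [Algebra.IsAlgebraic B Ω]

theorem isGalois_of_closed : IsGalois B Ω := by
  have h0 : CharZero B := by
    refine ⟨fun m n h => ?_⟩
    have h1 := congrArg (algebraMap B Ω) h
    rw [map_natCast, map_natCast] at h1
    exact Nat.cast_injective h1
  have h1 : IsAlgClosure B Ω := ⟨inferInstance, inferInstance⟩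
  exact ⟨⟩

/-- The set of conjugates. -/
theorem exists_conj (y : Ω) : ∃ R : Finset Ω, y ∈ R ∧ (∀ x ∈ R, ∃ σ : Ω ≃ₐ[B] Ω, σ y = x) ∧
    (∀ x ∈ R, ∀ σ : Ω ≃ₐ[B] Ω, σ x ∈ R) ∧
    (minpoly B y).map (algebraMap B Ω) = Lagrange.nodal R id := by
  classical
  have hG : IsGalois B Ω := isGalois_of_closed
  have hint : IsIntegral B y := Algebra.IsIntegral.isIntegral y
  have hsep : (minpoly B y).Separable := Algebra.IsSeparable.isSeparable B y
  set P := (minpoly B y).map (algebraMap B Ω) with hP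
  have hP0 : P ≠ 0 := (Polynomial.map_ne_zero_iff (algebraMap B Ω).injective).2
    (minpoly.ne_zero hint)
  have hmem : ∀ x, x ∈ P.roots.toFinset ↔ Polynomial.aeval x (minpoly B y) = 0 := by
    intro x
    rw [Multiset.mem_toFinset, Polynomial.mem_roots hP0, Polynomial.IsRoot.def, hP,
      Polynomial.eval_map_algebraMap]
  have hconj : ∀ x, x ∈ P.roots.toFinset ↔ ∃ σ : Ω ≃ₐ[B] Ω, σ y = x := by
    intro x
    rw [hmem]
    constructor
    · intro h
      exact (isConjRoot_of_aeval_eq_zero hint h).symm.exists_algEquiv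
    · rintro ⟨σ, rfl⟩
      exact (isConjRoot_of_algEquiv y σ).aeval_eq_zero
  refine ⟨P.roots.toFinset, (hconj y).2 ⟨AlgEquiv.refl, rfl⟩, fun x hx => (hconj x).1 hx, ?_, ?_⟩
  · intro x hx σ
    obtain ⟨τ, rfl⟩ := (hconj x).1 hx
    exact (hconj _).2 ⟨τ.trans σ, rfl⟩
  · have hnd : P.roots.Nodup := Polynomial.nodup_roots hsep.map
    have hmon : P.Monic := (minpoly.monic hint).map _
    have hspl : P = (P.roots.map fun a => X - Polynomial.C a).prod :=
      (IsAlgClosed.splits P).eq_prod_roots_of_monic hmon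
    rw [Lagrange.nodal_eq]
    conv_lhs => rw [hspl]
    rw [Finset.prod_eq_multiset_prod, Multiset.toFinset_val, hnd.dedup]
    rfl

omit [CharZero Ω] [IsAlgClosed Ω] [Algebra.IsAlgebraic B Ω] in
theorem sum_stable {S : Finset Ω} (σ : Ω ≃ₐ[B] Ω) (h : ∀ x ∈ S, σ x ∈ S) :
    ∑ x ∈ S, σ x = ∑ x ∈ S, x := by
  classical
  have h1 : S.image σ = S := by
    refine Finset.eq_of_subset_of_card_le (fun x hx => ?_) ?_
    · obtain ⟨z, hz, rfl⟩ := Finset.mem_image.1 hx
      exact h z hz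
    · rw [Finset.card_image_of_injective _ σ.injective]
  calc ∑ x ∈ S, σ x = ∑ x ∈ S.image σ, x := 
        (Finset.sum_image (f := fun x => x) fun x _ z _ h => σ.injective h).symm
    _ = ∑ x ∈ S, x := by rw [h1]

/-- An element `θ ∉ B` whose conjugates have pairwise distance exactly `w θ`. -/
theorem exists_cluster (w : RVal Ω) (hinv : ∀ (σ : Ω ≃ₐ[B] Ω) (x : Ω), w (σ x) = w x)
    (hn : ∀ m : ℕ, m ≠ 0 → w (m : Ω) = 0) (y : Ω) (hy : y ∉ Set.range (algebraMap B Ω)) :
    ∃ θ : Ω, θ ∉ Set.range (algebraMap B Ω) ∧ θ ≠ 0 ∧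
      ∀ σ : Ω ≃ₐ[B] Ω, σ θ ≠ θ → w (σ θ - θ) = w θ := by
  classical
  have hG : IsGalois B Ω := isGalois_of_closed
  obtain ⟨R, hyR, hR, hRσ, -⟩ := exists_conj (B := B) y
  have hinvG : ∀ (σ : Ω ≃ₐ[B] Ω) (x : Ω) (c : ℝ), w.Gt c x → w.Gt c (σ x) := by
    intro σ x c hx hne
    rw [hinv]
    exact hx fun h => hne (by rw [h, map_zero])
  have hcard : ∀ S : Finset Ω, y ∈ S → ((#S : ℕ) : Ω) ≠ 0 := by
    intro S hS h
    have : #S = 0 := by exact_mod_cast h
    rw [Finset.card_eq_zero.1 this] at hS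
    exact absurd hS (Finset.notMem_empty y)
  have havg : ∀ S : Finset Ω, y ∈ S → w.Ge 0 (((#S : ℕ) : Ω)⁻¹) := by
    intro S hS _
    have h0 := hcard S hS
    rw [w.map_inv h0, hn _ (by exact_mod_cast h0), neg_zero]
  set t : Ω := ((#R : ℕ) : Ω)⁻¹ * ∑ x ∈ R, x with ht
  have htσ : ∀ σ : Ω ≃ₐ[B] Ω, σ t = t := by
    intro σ
    rw [ht, map_mul, map_inv₀, map_natCast, map_sum, sum_stable σ fun x hx => hRσ x hx σ]
  have hyt : y - t ≠ 0 := by
    intro h
    rw [sub_eq_zero] at h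
    exact hy ((InfiniteGalois.mem_range_algebraMap_iff_fixed y).2 fun σ => by rw [h]; exact htσ σ)
  set r : ℝ := w (y - t) with hr
  set S : Finset Ω := R.filter fun x => w.Gt r (x - y) with hS
  have hyS : y ∈ S := Finset.mem_filter.2 ⟨hyR, by rw [sub_self]; exact RVal.Gt.zero⟩
  set φ : Ω := ((#S : ℕ) : Ω)⁻¹ * ∑ x ∈ S, x with hφ
  have h1 : w.Gt r (φ - y) := by
    have e : φ - y = ((#S : ℕ) : Ω)⁻¹ * ∑ x ∈ S, (x - y) := by
      rw [Finset.sum_sub_distrib, Finset.sum_const, mul_sub, ← hφ, nsmul_eq_mul, ← mul_assoc,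
        inv_mul_cancel₀ (hcard S hyS), one_mul]
    rw [e]
    have := (havg S hyS).mul_gt (RVal.Gt.sum S _ fun x hx => (Finset.mem_filter.1 hx).2)
    rwa [zero_add] at this
  have hθ : (y - t) + (φ - y) ≠ 0 ∧ w ((y - t) + (φ - y)) = r := RVal.add_of_gt hyt rfl h1
  have eθ : (y - t) + (φ - y) = φ - t := by ring
  rw [eθ] at hθ
  have hcase : ∀ σ : Ω ≃ₐ[B] Ω, ¬ w.Gt r (σ y - y) →
      σ (φ - t) - (φ - t) ≠ 0 ∧ w (σ (φ - t) - (φ - t)) = r := by
    intro σ hσ
    have h2 : σ y - y ≠ 0 ∧ w (σ y - y) ≤ r := by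
      unfold RVal.Gt at hσ
      push Not at hσ
      exact hσ
    have h3 : w.Ge r (σ y - y) := by
      have e : σ y - y = σ (y - t) - (y - t) := by
        rw [map_sub, htσ]
        ring
      rw [e]
      refine RVal.Ge.sub ?_ (RVal.Ge.of_le le_rfl)
      exact RVal.Ge.of_le (hinv σ _).ge
    have h4 : w (σ y - y) = r := le_antisymm h2.2 (h3 h2.1)
    have h5 : w.Gt r (σ (φ - y) - (φ - y)) := by
      rw [sub_eq_add_neg]
      refine (hinvG σ _ _ h1).add ?_
      intro hne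
      rw [w.map_neg _ (neg_ne_zero.1 hne)]
      exact h1 (neg_ne_zero.1 hne)
    have h6 := RVal.add_of_gt h2.1 h4 h5
    have e : (σ y - y) + (σ (φ - y) - (φ - y)) = σ (φ - t) - (φ - t) := by
      rw [map_sub, map_sub, htσ]
      ring
    rwa [e] at h6
  have hstab : ∀ σ : Ω ≃ₐ[B] Ω, w.Gt r (σ y - y) → σ (φ - t) = φ - t := by
    intro σ hσ
    have h2 : ∀ x ∈ S, σ x ∈ S := by
      intro x hx
      rw [Finset.mem_filter] at hx ⊢
      refine ⟨hRσ x hx.1 σ, ?_⟩
      have e : σ x - y = σ (x - y) + (σ y - y) := by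
        rw [map_sub]
        ring
      rw [e]
      exact (hinvG σ _ _ hx.2).add hσ
    rw [map_sub, htσ, hφ, map_mul, map_inv₀, map_natCast, map_sum, sum_stable σ h2]
  refine ⟨φ - t, ?_, hθ.1, ?_⟩
  · intro hmem
    have hfix := (InfiniteGalois.mem_range_algebraMap_iff_fixed (φ - t)).1 hmem
    have hall : ∀ x ∈ R, x ∈ S := by
      intro x hx
      obtain ⟨σ, rfl⟩ := hR x hx
      refine Finset.mem_filter.2 ⟨hx, ?_⟩
      by_contra hcon
      exact (hcase σ hcon).1 (by rw [hfix σ, sub_self])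
    have hSR : S = R := Finset.Subset.antisymm (Finset.filter_subset _ _) hall
    apply hθ.1
    rw [hφ, hSR, ← ht, sub_self]
  · intro σ hσ
    rw [hθ.2]
    refine (hcase σ fun h => hσ (hstab σ h)).2

end Cluster

/-! ## The bound passes to `B(θ)` -/

section Bound

variable {k B Ω : Type*} [Field k] [Field B] [Field Ω] [Algebra k Ω] [Algebra B Ω] [CharZero Ω]
  [IsAlgClosed Ω] [Algebra.IsAlgebraic B Ω]

theorem bd_adjoin (w : RVal Ω) (hinv : ∀ (σ : Ω ≃ₐ[B] Ω) (x : Ω), w (σ x) = w x)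
    (E : Derivation k Ω Ω) (γ : ℝ)
    (hB : ∀ b : B, w.Ge (w (algebraMap B Ω b) - γ) (E (algebraMap B Ω b)))
    (hn : ∀ m : ℕ, m ≠ 0 → w (m : Ω) = 0) {θ : Ω} (hθ0 : θ ≠ 0)
    (hθ : ∀ σ : Ω ≃ₐ[B] Ω, σ θ ≠ θ → w (σ θ - θ) = w θ) (x : Ω)
    (hx : x ∈ IntermediateField.adjoin B {θ}) : w.Ge (w x - γ) (E x) := by
  classical
  obtain ⟨Z, hθZ, hZ, hZσ, hP⟩ := exists_conj (B := B) θ
  have hint : IsIntegral B θ := Algebra.IsIntegral.isIntegral θ
  set r : ℝ := w θ with hr
  have hZr : ∀ z ∈ Z, w z = r := by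
    intro z hz
    obtain ⟨σ, rfl⟩ := hZ z hz
    exact hinv σ θ
  have hZge : ∀ z ∈ Z, w.Ge r z := fun z hz => RVal.Ge.of_le (hZr z hz).ge
  have hZZ : ∀ z ∈ Z, ∀ z' ∈ Z, z ≠ z' → w (z - z') = r := by
    intro z hz z' hz' hne
    obtain ⟨σ, rfl⟩ := hZ z hz
    obtain ⟨τ, rfl⟩ := hZ z' hz'
    have h1 : σ θ - τ θ = τ ((σ.trans τ.symm) θ - θ) := by
      rw [map_sub, AlgEquiv.trans_apply, AlgEquiv.apply_symm_apply]
    rw [h1, hinv]
    refine hθ _ fun h => hne ?_
    rw [AlgEquiv.trans_apply, AlgEquiv.symm_apply_eq] at h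
    exact h
  -- the coefficients of polynomials of degree `< #Z`
  have hcoef : ∀ g : Polynomial B, g.degree < #Z →
      PGe w r (w (Polynomial.aeval θ g)) (g.map (algebraMap B Ω)) := by
    intro g hg
    refine pge_of_eval Z hZge hZZ _ ?_ fun z hz => ?_
    · rwa [Polynomial.degree_map]
    · obtain ⟨σ, rfl⟩ := hZ z hz
      rw [Polynomial.eval_map_algebraMap, Polynomial.aeval_algHom_apply]
      exact RVal.Ge.of_le (hinv σ _).ge
  -- the coefficients of the minimal polynomial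
  have hPcoef : PGe w r (#Z * r) ((minpoly B θ).map (algebraMap B Ω)) := by
    rw [hP, Lagrange.nodal_eq]
    have := PGe.prod (w := w) (r := r) Z (fun _ => r) (fun z => X - Polynomial.C (id z))
      fun z hz => PGe.X_sub_C (hZge z hz)
    rwa [Finset.sum_const, nsmul_eq_mul] at this
  -- values of the derivation on the coefficients
  have hE : ∀ (g : Polynomial B) (ρ : ℝ), PGe w r ρ (g.map (algebraMap B Ω)) →
      w.Ge (ρ - γ) ((g.map (algebraMap B Ω)).sum fun j a => E a * θ ^ j) := by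
    intro g ρ hg
    rw [Polynomial.sum_def]
    refine RVal.Ge.sum _ _ fun j hj => ?_
    have h1 : w.Ge (ρ - j * r - γ) (E ((g.map (algebraMap B Ω)).coeff j)) := by
      intro hne
      have h2 := hg j
      rw [Polynomial.coeff_map] at hne h2 ⊢
      have h3 : algebraMap B Ω (g.coeff j) ≠ 0 := fun h => hne (by rw [h, map_zero])
      have h4 := hB _ hne
      have h5 := h2 h3
      linarith
    have h2 : w.Ge (j * r) (θ ^ j) := by
      refine RVal.Ge.of_le ?_
      rw [w.map_pow hθ0]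
    refine (h1.mul h2).mono ?_
    linarith
  -- the value of `P'(θ)`
  have hder : (derivative ((minpoly B θ).map (algebraMap B Ω))).eval θ ≠ 0 ∧
      w ((derivative ((minpoly B θ).map (algebraMap B Ω))).eval θ) = (#Z - 1 : ℝ) * r := by
    rw [hP]
    have h1 := Lagrange.eval_nodal_derivative_eval_node_eq (v := (id : Ω → Ω)) hθZ
    rw [id] at h1
    rw [h1, Lagrange.eval_nodal]
    have h2 : ∀ z ∈ Z.erase θ, θ - id z ≠ 0 := fun z hz =>
      sub_ne_zero.2 (Finset.ne_of_mem_erase hz).symm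
    refine ⟨Finset.prod_ne_zero_iff.2 h2, ?_⟩
    have h3 : ∀ z ∈ Z.erase θ, w (θ - id z) = r := fun z hz =>
      hZZ θ hθZ z (Finset.mem_of_mem_erase hz) (Finset.ne_of_mem_erase hz).symm
    rw [w.map_prod _ _ h2, Finset.sum_congr rfl h3, Finset.sum_const, Finset.card_erase_of_mem hθZ, nsmul_eq_mul,
      Nat.cast_sub (Finset.card_pos.2 ⟨θ, hθZ⟩), Nat.cast_one]
  -- the value of `E θ`
  have hEθ : w.Ge (r - γ) (E θ) := by
    intro hne
    have h1 := der_eval E θ ((minpoly B θ).map (algebraMap B Ω))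
    rw [Polynomial.eval_map_algebraMap, minpoly.aeval, map_zero] at h1
    have h2 : (derivative ((minpoly B θ).map (algebraMap B Ω))).eval θ * E θ =
        -(((minpoly B θ).map (algebraMap B Ω)).sum fun j a => E a * θ ^ j) := by
      linear_combination -h1
    have h3 := (hE _ _ hPcoef).neg
    rw [← h2] at h3
    have h4 := h3 (mul_ne_zero hder.1 hne)
    rw [w.map_mul hder.1 hne, hder.2] at h4
    linarith
  -- elements of `B(θ)`
  have hx' : x ∈ Algebra.adjoin B {θ} := by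
    rw [← IntermediateField.adjoin_simple_toSubalgebra_of_isAlgebraic hint.isAlgebraic]
    exact hx
  obtain ⟨g₀, hg₀⟩ := (Algebra.adjoin_mem_exists_aeval B θ) hx'
  set g := g₀ %ₘ minpoly B θ with hg
  have hgθ : Polynomial.aeval θ g = x := by
    rw [← hg₀, hg]
    exact Polynomial.aeval_modByMonic_eq_self_of_root (minpoly.aeval B θ)
  have hdeg : g.degree < #Z := by
    have h1 : (minpoly B θ).degree = #Z := by
      rw [← Polynomial.degree_map (minpoly B θ) (algebraMap B Ω), hP, Lagrange.degree_nodal]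
    rw [← h1]
    exact Polynomial.degree_modByMonic_lt _ (minpoly.monic hint)
  have hgc := hcoef g hdeg
  rw [hgθ] at hgc
  have e1 : x = (g.map (algebraMap B Ω)).eval θ := by rw [Polynomial.eval_map_algebraMap, hgθ]
  rw [e1, der_eval, ← e1]
  refine (hE g _ hgc).add ?_
  rw [derivative_eval, Polynomial.sum_def, Finset.sum_mul]
  refine RVal.Ge.sum _ _ fun j hj => ?_
  rcases Nat.eq_zero_or_pos j with rfl | hj0
  · simp only [Nat.cast_zero, mul_zero, zero_mul]
    exact RVal.Ge.zero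
  have h1 : w.Ge 0 ((j : ℕ) : Ω) := RVal.Ge.of_le (hn j hj0.ne').ge
  have h2 : w.Ge (((j - 1 : ℕ) : ℝ) * r) (θ ^ (j - 1)) := RVal.Ge.of_le (by rw [w.map_pow hθ0])
  refine ((((hgc j).mul h1).mul h2).mul hEθ).mono ?_
  rw [Nat.cast_sub hj0, Nat.cast_one]
  linarith

end Bound

end Pool.Agent.JMF
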