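import Pool.Agent.Lib.JM_H15.Gauss

/-!
# Immediate algebraic extensions in residue characteristic zero: the small field is dense
(OWNER: helper15)

Let `v` be a real valuation of a field `K` of residue characteristic zero and `F` a subfield with
the same values and the same residues. Every element of `K` that is algebraic over `F` is a limit
of elements of `F`. The proof is Newton's method at a polynomial of least degree that has a root in
the limit disc.
-/

set_option autoImplicit false

open Polynomial Filter Topology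

namespace Pool.Agent.H15JM

variable {K : Type*} [Field K]

theorem derivative_taylor_eq (θ : K) (Q : K[X]) :
    derivative (taylor θ Q) = taylor θ (derivative Q) := by
  rw [taylor_apply, taylor_apply, derivative_comp]
  simp

/-- `Q` has a root in the closed disc of radius `r` around `θ` (used for the closed discs that are
intersections). -/
def InDisc (v : RVal K) (θ : K) (r : ℝ) (Q : K[X]) : Prop :=
  ∃ j : ℕ, 1 ≤ j ∧ (taylor θ Q).coeff j ≠ 0 ∧
    v.Ge (v ((taylor θ Q).coeff j) + j * r) ((taylor θ Q).coeff 0)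

theorem dense_aux [CharZero K] (v : RVal K) (hn : ∀ m : ℕ, m ≠ 0 → v (m : K) = 0) (F : Subfield K)
    (θ : K) (r : ℝ) (hlt : ∀ c ∈ F, θ - c ≠ 0 ∧ v (θ - c) < r)
    (hsup : ∀ δ > 0, ∃ c ∈ F, r - δ < v (θ - c))
    (halg : IsAlgebraic F θ) : False := by
  classical
  -- the polynomials over `F` with a root in the disc
  have hex : ∃ n : ℕ, ∃ Q : K[X], (∀ i, Q.coeff i ∈ F) ∧ InDisc v θ r Q ∧ Q.natDegree = n := by
    obtain ⟨P, hP0, hP⟩ := halg
    let Q : K[X] := P.map (algebraMap F K)
    have hQ0 : Q ≠ 0 := (Polynomial.map_ne_zero_iff (algebraMap F K).injective).2 hP0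
    have hQθ : Q.eval θ = 0 := by
      rw [← hP, aeval_def, eval_map]
    refine ⟨_, Q, fun i => ?_, ⟨Q.natDegree, ?_, ?_, ?_⟩, rfl⟩
    · rw [coeff_map]
      exact (P.coeff i).2
    · rw [Nat.one_le_iff_ne_zero]
      intro h
      rw [eq_C_of_natDegree_eq_zero h, eval_C] at hQθ
      apply hQ0
      rw [eq_C_of_natDegree_eq_zero h, hQθ, C_0]
    · have h1 : (taylor θ Q).coeff (taylor θ Q).natDegree ≠ 0 := by
        rw [← leadingCoeff, leadingCoeff_ne_zero]
        intro h
        exact hQ0 (taylor_injective θ (by rw [h, map_zero]))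
      rwa [natDegree_taylor] at h1
    · rw [taylor_coeff_zero, hQθ]
      exact RVal.Ge.zero
  obtain ⟨Q, hQF, ⟨j0, hj0, hj0c, hj0v⟩, hQd⟩ := Nat.find_spec hex
  set d := Nat.find hex with hd
  set T : K[X] := taylor θ Q with hT
  have hTd : T.natDegree = d := by rw [hT, natDegree_taylor, hQd]
  have hd0 : d ≠ 0 := by
    intro h
    apply hj0c
    rw [coeff_eq_zero_of_natDegree_lt]
    omega
  -- the derivative has no root in the disc
  have hder : ¬ InDisc v θ r (derivative Q) := by
    intro h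
    have h1 := Nat.find_min' hex ⟨derivative Q, fun i => ?_, h, rfl⟩
    · have h2 := natDegree_derivative_lt (p := Q) (by omega)
      omega
    · rw [coeff_derivative]
      exact F.mul_mem (hQF _) (F.add_mem (natCast_mem F i) F.one_mem)
  have hcoef : ∀ j, (taylor θ (derivative Q)).coeff j = T.coeff (j + 1) * ((j : K) + 1) := by
    intro j
    rw [← derivative_taylor_eq, coeff_derivative]
  have hval1 : ∀ j : ℕ, v ((j : K) + 1) = 0 := by
    intro j
    have := hn (j + 1) (Nat.succ_ne_zero _)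
    push_cast at this
    exact this
  have hne1 : ∀ j : ℕ, ((j : K) + 1) ≠ 0 := fun j => by exact_mod_cast Nat.succ_ne_zero j
  have hstr : ∀ j : ℕ, 1 ≤ j → T.coeff (j + 1) ≠ 0 →
      T.coeff 1 ≠ 0 ∧ v (T.coeff 1) < v (T.coeff (j + 1)) + j * r := by
    intro j hj hne
    by_contra hcon
    apply hder
    refine ⟨j, hj, ?_, ?_⟩
    · rw [hcoef]
      exact mul_ne_zero hne (hne1 j)
    · rw [hcoef, hcoef, v.map_mul hne (hne1 j), hval1, add_zero]
      simp only [Nat.cast_zero, zero_add, mul_one]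
      intro h0
      by_contra hlt
      exact hcon ⟨h0, not_le.1 hlt⟩
  -- the first coefficient
  have hT1 : T.coeff 1 ≠ 0 := by
    rcases Nat.lt_or_ge 1 j0 with h | h
    · obtain ⟨j, rfl⟩ := Nat.exists_eq_succ_of_ne_zero (by omega : j0 ≠ 0)
      exact (hstr j (by omega) hj0c).1
    · have : j0 = 1 := le_antisymm h hj0
      rw [← this]
      exact hj0c
  set β : ℝ := v (T.coeff 1) with hβ
  have hT0 : v.Ge (β + r) (T.coeff 0) := by
    rcases Nat.lt_or_ge 1 j0 with h | h
    · obtain ⟨j, rfl⟩ := Nat.exists_eq_succ_of_ne_zero (by omega : j0 ≠ 0)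
      have h1 := (hstr j (by omega) hj0c).2
      refine hj0v.mono ?_
      push_cast
      linarith
    · have : j0 = 1 := le_antisymm h hj0
      subst this
      simpa using hj0v
  -- a small δ
  have hδ : ∀ᶠ δ in 𝓝[>] (0 : ℝ), ∀ j ∈ Finset.range (d + 1),
      (2 ≤ j → T.coeff j ≠ 0 → β + r + j * δ < v (T.coeff j) + j * r) := by
    rw [Filter.eventually_all_finset]
    intro j _
    by_cases hj : 2 ≤ j ∧ T.coeff j ≠ 0
    · obtain ⟨i, rfl⟩ := Nat.exists_eq_succ_of_ne_zero (by omega : j ≠ 0)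
      have h1 := (hstr i (by omega) hj.2).2
      have h2 : β + r + ((i.succ : ℕ) : ℝ) * 0 < v (T.coeff i.succ) + ((i.succ : ℕ) : ℝ) * r := by
        push_cast
        have h3 : v (T.coeff (i + 1)) = v (T.coeff i.succ) := rfl
        linarith
      have h4 : Tendsto (fun δ : ℝ => β + r + ((i.succ : ℕ) : ℝ) * δ) (𝓝[>] 0)
          (𝓝 (β + r + ((i.succ : ℕ) : ℝ) * 0)) := by
        apply Tendsto.mono_left _ nhdsWithin_le_nhds
        exact (tendsto_const_nhds.add (tendsto_const_nhds.mul tendsto_id))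
      filter_upwards [h4.eventually_lt_const h2] with δ hδ
      intro _ _
      exact hδ
    · exact Eventually.of_forall fun δ h1 h2 => absurd ⟨h1, h2⟩ hj
  obtain ⟨δ, hδ, hδ0⟩ := (hδ.and self_mem_nhdsWithin).exists
  obtain ⟨c, hc, hcδ⟩ := hsup δ hδ0
  obtain ⟨ht0, htr⟩ := hlt c hc
  set t : K := θ - c with ht
  set γ : ℝ := v t with hγ
  have hmt : -t ≠ 0 := neg_ne_zero.2 ht0
  have hvt : ∀ j : ℕ, v ((-t) ^ j) = j * γ := by
    intro j
    rw [v.map_pow hmt, v.map_neg t ht0]
  -- the terms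
  have hterm : ∀ j : ℕ, 2 ≤ j → T.coeff j ≠ 0 → β + r < v (T.coeff j) + j * γ := by
    intro j hj hne
    have hjd : j < d + 1 := by
      by_contra h
      push Not at h
      exact hne (coeff_eq_zero_of_natDegree_lt (by omega))
    have h1 := hδ j (Finset.mem_range.2 hjd) hj hne
    have h2 : (0 : ℝ) < j := by exact_mod_cast (by omega : 0 < j)
    have h3 : (j : ℝ) * (r - γ) < j * δ := mul_lt_mul_of_pos_left (by linarith) h2
    linarith
  -- the values of `Q` and `Q'` at `c`
  have hQc : Q.eval c = T.eval (-t) := by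
    rw [hT, taylor_eval, ht]
    congr 1
    ring
  have hQ'c : (derivative Q).eval c = (derivative T).eval (-t) := by
    rw [hT, derivative_taylor_eq, taylor_eval, ht]
    congr 1
    ring
  have hQ'exp : (derivative Q).eval c
      = T.coeff 1 + ∑ j ∈ Finset.Ico 1 (d + 1), T.coeff (j + 1) * ((j : K) + 1) * (-t) ^ j := by
    rw [hQ'c, eval_eq_sum_range' (n := d + 1)]
    · rw [Finset.range_eq_Ico, Finset.sum_eq_sum_Ico_succ_bot (Nat.succ_pos d)]
      simp only [coeff_derivative]
      simp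
    · refine lt_of_le_of_lt (natDegree_derivative_le T) ?_
      omega
  have hQ'v : (derivative Q).eval c ≠ 0 ∧ v ((derivative Q).eval c) = β := by
    rw [hQ'exp]
    refine RVal.add_of_gt hT1 rfl (RVal.Gt.sum _ _ fun j hj => ?_)
    intro hne
    have hj1 : 1 ≤ j := (Finset.mem_Ico.1 hj).1
    have hne1' : T.coeff (j + 1) ≠ 0 := by
      intro h
      rw [h, zero_mul, zero_mul] at hne
      exact hne rfl
    rw [v.map_mul (mul_ne_zero hne1' (hne1 j)) (pow_ne_zero _ hmt), v.map_mul hne1' (hne1 j),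
      hval1, hvt]
    have h1 := hterm (j + 1) (by omega) hne1'
    push_cast at h1
    linarith
  -- Newton's step
  have hcF : Q.eval c ∈ F ∧ (derivative Q).eval c ∈ F := by
    have h : ∀ P : K[X], (∀ i, P.coeff i ∈ F) → P.eval c ∈ F := by
      intro P hP
      rw [eval_eq_sum_range]
      exact F.sum_mem fun i _ => F.mul_mem (hP i) (F.pow_mem hc i)
    refine ⟨h _ hQF, h _ fun i => ?_⟩
    rw [coeff_derivative]
    exact F.mul_mem (hQF _) (F.add_mem (natCast_mem F i) F.one_mem)
  have hc'F : c - Q.eval c / (derivative Q).eval c ∈ F :=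
    F.sub_mem hc (F.div_mem hcF.1 hcF.2)
  obtain ⟨h1, h2⟩ := hlt _ hc'F
  have hN : (derivative Q).eval c * t + Q.eval c
      = T.coeff 0 + ∑ j ∈ Finset.Ico 2 (d + 2), (1 - (j : K)) * T.coeff j * (-t) ^ j := by
    rw [hQ'c, hQc, eval_eq_sum_range' (n := d + 1) (lt_of_le_of_lt (natDegree_derivative_le T)
      (by omega)), eval_eq_sum_range' (n := d + 2) (p := T) (by omega)]
    rw [Finset.sum_mul, Finset.sum_range_succ' (fun i => T.coeff i * (-t) ^ i)]
    simp only [coeff_derivative, pow_zero, mul_one]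
    rw [← add_assoc, ← Finset.sum_add_distrib, add_comm]
    congr 1
    have h3 : ∀ i ∈ Finset.range (d + 1),
        T.coeff (i + 1) * ((i : K) + 1) * (-t) ^ i * t + T.coeff (i + 1) * (-t) ^ (i + 1)
          = (1 - ((i + 1 : ℕ) : K)) * T.coeff (i + 1) * (-t) ^ (i + 1) := by
      intro i _
      rw [pow_succ]
      push_cast
      ring
    rw [Finset.sum_congr rfl h3, Finset.range_eq_Ico, Finset.sum_Ico_add'
      (fun j : ℕ => (1 - (j : K)) * T.coeff j * (-t) ^ j) 0 (d + 1) 1,
      Finset.sum_eq_sum_Ico_succ_bot (by omega)]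
    simp
  have hNv : v.Ge (β + r) ((derivative Q).eval c * t + Q.eval c) := by
    rw [hN]
    refine hT0.add (RVal.Ge.sum _ _ fun j hj => ?_)
    intro hne
    have hj2 : 2 ≤ j := (Finset.mem_Ico.1 hj).1
    have hcj : T.coeff j ≠ 0 := by
      intro h
      rw [h, mul_zero, zero_mul] at hne
      exact hne rfl
    have h1j : (1 - (j : K)) = -(((j - 1 : ℕ)) : K) := by
      rw [Nat.cast_sub (by omega)]
      push_cast
      ring
    have hj0' : (((j - 1 : ℕ)) : K) ≠ 0 := by exact_mod_cast (by omega : j - 1 ≠ 0)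
    have h1j0 : (1 - (j : K)) ≠ 0 := by
      rw [h1j]
      exact neg_ne_zero.2 hj0'
    have h1jv : v (1 - (j : K)) = 0 := by
      rw [h1j, v.map_neg _ hj0', hn _ (by omega)]
    rw [v.map_mul (mul_ne_zero h1j0 hcj) (pow_ne_zero _ hmt), v.map_mul h1j0 hcj, h1jv, hvt]
    have := hterm j hj2 hcj
    linarith
  have hfin : θ - (c - Q.eval c / (derivative Q).eval c)
      = ((derivative Q).eval c * t + Q.eval c) / (derivative Q).eval c := by
    rw [add_div, mul_div_cancel_left₀ _ hQ'v.1, ht]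
    ring
  have hnum : (derivative Q).eval c * t + Q.eval c ≠ 0 := by
    intro h
    rw [hfin, h, zero_div] at h1
    exact h1 rfl
  have h5 := hNv hnum
  rw [hfin, v.map_div hnum hQ'v.1, hQ'v.2] at h2
  linarith

/-- **Density.** An immediate algebraic extension in residue characteristic zero: the elements
that are algebraic over `F` are limits of elements of `F`. -/
theorem dense_of_immediate [CharZero K] (v : RVal K) (hn : ∀ m : ℕ, m ≠ 0 → v (m : K) = 0)
    (F : Subfield K) (hval : ∀ g : K, g ≠ 0 → ∃ f ∈ F, f ≠ 0 ∧ v f = v g)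
    (hres : ∀ g : K, g ≠ 0 → v g = 0 → ∃ c ∈ F, g = c ∨ 0 < v (g - c))
    (θ : K) (halg : IsAlgebraic F θ) (B : ℝ) : ∃ c ∈ F, v.Ge B (θ - c) := by
  by_contra hcon
  push Not at hcon
  have hne : ∀ c ∈ F, θ - c ≠ 0 := by
    intro c hc h
    apply hcon c hc
    rw [h]
    exact RVal.Ge.zero
  have hltB : ∀ c ∈ F, v (θ - c) < B := by
    intro c hc
    by_contra h
    exact hcon c hc fun _ => not_lt.1 h
  -- no best approximation
  have hbetter : ∀ c ∈ F, ∃ c' ∈ F, v (θ - c) < v (θ - c') := by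
    intro c hc
    obtain ⟨f, hf, hf0, hfv⟩ := hval _ (hne c hc)
    have h1 : v ((θ - c) / f) = 0 := by rw [v.map_div (hne c hc) hf0, hfv, sub_self]
    obtain ⟨e, he, h2⟩ := hres _ (div_ne_zero (hne c hc) hf0) h1
    refine ⟨c + e * f, F.add_mem hc (F.mul_mem he hf), ?_⟩
    have h3 : θ - (c + e * f) = f * ((θ - c) / f - e) := by
      field_simp
      ring
    have h4 := hne _ (F.add_mem hc (F.mul_mem he hf))
    rw [h3] at h4 ⊢
    have h5 := right_ne_zero_of_mul h4
    rw [v.map_mul hf0 h5, hfv]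
    rcases h2 with h2 | h2
    · rw [h2, sub_self] at h5
      exact absurd rfl h5
    · linarith
  let S : Set ℝ := {x | ∃ c ∈ F, x = v (θ - c)}
  have hS0 : S.Nonempty := ⟨_, 0, F.zero_mem, rfl⟩
  have hSB : BddAbove S := ⟨B, by rintro _ ⟨c, hc, rfl⟩; exact (hltB c hc).le⟩
  refine dense_aux v hn F θ (sSup S) (fun c hc => ⟨hne c hc, ?_⟩) (fun δ hδ => ?_) halg
  · obtain ⟨c', hc', h⟩ := hbetter c hc
    exact lt_of_lt_of_le h (le_csSup hSB ⟨c', hc', rfl⟩)
  · obtain ⟨_, ⟨c, hc, rfl⟩, h⟩ := exists_lt_of_lt_csSup hS0 (sub_lt_self (sSup S) hδ)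
    exact ⟨c, hc, h⟩

end Pool.Agent.H15JM
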