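import Pool.Agent.Lib.JMF.QMPar

/-!
# The local ring of a model as the local ring of a blowing up of affine space (OWNER: helper15)
-/

set_option autoImplicit false

open MvPolynomial

namespace Pool.Agent.JMF

open Pool.Agent.H15JM

variable {k : Type} [Field k] {n : ℕ}

/-- The coordinate ring `k[X][a / g : a ∈ I]` of the chart, of the blowing up of the affine
`n`-space in the ideal `I`, on which `g ∈ I` generates the exceptional ideal. -/
noncomputable def chart (I : Ideal (MvPolynomial (Fin n) k)) (g : MvPolynomial (Fin n) k) :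
    Subalgebra k (FF k n) :=
  Algebra.adjoin k (Set.range (fun i => toFF (X i)) ∪ {z | ∃ a ∈ I, z = toFF a / toFF g})

/-- A common denominator. -/
theorem exists_common_den (F : Finset (FF k n)) : ∃ q : MvPolynomial (Fin n) k, q ≠ 0 ∧
    ∀ f ∈ F, ∃ p : MvPolynomial (Fin n) k, f = toFF p / toFF q := by
  classical
  induction F using Finset.induction_on with
  | empty => exact ⟨1, one_ne_zero, fun f hf => absurd hf (Finset.notMem_empty f)⟩
  | insert a F ha ih =>
    obtain ⟨q, hq, h⟩ := ih
    obtain ⟨p', q', hq', ha'⟩ := exists_frac a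
    have h1 := toFF_ne_zero hq
    have h2 := toFF_ne_zero hq'
    refine ⟨q * q', mul_ne_zero hq hq', fun f hf => ?_⟩
    rcases Finset.mem_insert.1 hf with rfl | hf
    · refine ⟨p' * q, ?_⟩
      rw [ha', map_mul, map_mul]
      field_simp
    · obtain ⟨p, hp⟩ := h f hf
      refine ⟨p * q', ?_⟩
      rw [hp, map_mul, map_mul]
      field_simp

theorem toFF_mem_chart (I : Ideal (MvPolynomial (Fin n) k)) (g p : MvPolynomial (Fin n) k) :
    toFF p ∈ chart I g := by
  induction p using MvPolynomial.induction_on with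
  | C a =>
    have : toFF (C a : MvPolynomial (Fin n) k) = algebraMap k (FF k n) a := by
      rw [← MvPolynomial.algebraMap_eq, AlgHom.commutes]
    rw [this]
    exact (chart I g).algebraMap_mem a
  | add p q hp hq =>
    rw [map_add]
    exact (chart I g).add_mem hp hq
  | mul_X p i hp =>
    rw [map_mul]
    exact (chart I g).mul_mem hp (Algebra.subset_adjoin (Or.inl ⟨i, rfl⟩))

/-- **The bridge.** The local ring `O`, at the centre of `v`, of a finitely generated algebra is, if
it contains the coordinates, the local ring at the centre of `v` of a blowing up of the affine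
space. -/
theorem exists_blowup_aux (v : RVal (FF k n))
    (O : Subalgebra k (FF k n)) (hnn : ∀ f ∈ O, f ≠ 0 → 0 ≤ v f)
    (hfg : ∃ F : Finset (FF k n), O = locc v (Algebra.adjoin k (F : Set (FF k n))))
    (hX : ∀ i, toFF (X i) ∈ O) :
    ∃ (I : Ideal (MvPolynomial (Fin n) k)) (g : MvPolynomial (Fin n) k), I ≠ ⊥ ∧ g ∈ I ∧ g ≠ 0 ∧
      (∀ a ∈ I, a ≠ 0 → v (toFF g) ≤ v (toFF a)) ∧ O = locc v (chart I g) := by
  classical
  obtain ⟨F, hF⟩ := hfg
  obtain ⟨q, hq, hden⟩ := exists_common_den F
  have hq' := toFF_ne_zero hq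
  have hFO : ∀ f ∈ F, f ∈ O := by
    intro f hf
    rw [hF]
    exact le_locc v _ (Algebra.subset_adjoin (Finset.mem_coe.2 hf))
  choose! p hp using hden
  let I : Ideal (MvPolynomial (Fin n) k) := Ideal.span (insert q (p '' (F : Set (FF k n))))
  have hqI : q ∈ I := Ideal.subset_span (Set.mem_insert _ _)
  -- the elements of `I`
  have hI : ∀ a ∈ I, toFF a / toFF q ∈ O := by
    intro a ha
    refine Submodule.span_induction (fun x hx => ?_) ?_ (fun x y _ _ hx hy => ?_)
      (fun c x _ hx => ?_) ha
    · rcases hx with rfl | ⟨f, hf, rfl⟩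
      · rw [div_self hq']
        exact O.one_mem
      · rw [← hp f hf]
        exact hFO f hf
    · rw [map_zero, zero_div]
      exact O.zero_mem
    · rw [map_add, add_div]
      exact O.add_mem hx hy
    · rw [smul_eq_mul, map_mul, mul_div_assoc]
      refine O.mul_mem ?_ hx
      have h1 : ∀ c : MvPolynomial (Fin n) k, toFF c ∈ O := by
        intro c
        induction c using MvPolynomial.induction_on with
        | C a =>
          have : toFF (C a : MvPolynomial (Fin n) k) = algebraMap k (FF k n) a := by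
            rw [← MvPolynomial.algebraMap_eq, AlgHom.commutes]
          rw [this]
          exact O.algebraMap_mem a
        | add p q hp hq =>
          rw [map_add]
          exact O.add_mem hp hq
        | mul_X p i hp =>
          rw [map_mul]
          exact O.mul_mem hp (hX i)
      exact h1 c
  have hchart : chart I q ≤ O := by
    rw [chart]
    refine Algebra.adjoin_le ?_
    rintro z (⟨i, rfl⟩ | ⟨a, ha, rfl⟩)
    · exact hX i
    · exact hI a ha
  have hadj : Algebra.adjoin k (F : Set (FF k n)) ≤ chart I q := by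
    refine Algebra.adjoin_le ?_
    intro f hf
    refine Algebra.subset_adjoin (Or.inr ⟨p f, ?_, hp f hf⟩)
    exact Ideal.subset_span (Set.mem_insert_of_mem _ ⟨f, hf, rfl⟩)
  refine ⟨I, q, ?_, hqI, hq, ?_, ?_⟩
  · intro h
    rw [h, Ideal.mem_bot] at hqI
    exact hq hqI
  · intro a ha ha0
    have h1 := hnn _ (hI a ha) (div_ne_zero (toFF_ne_zero ha0) hq')
    rw [v.map_div (toFF_ne_zero ha0) hq'] at h1
    linarith
  · apply le_antisymm
    · intro f hf
      rw [hF] at hf
      obtain ⟨a, ha, b, hb, hb0, hvb, rfl⟩ := hf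
      exact ⟨a, hadj ha, b, hadj hb, hb0, hvb, rfl⟩
    · rintro _ ⟨a, ha, b, hb, hb0, hvb, rfl⟩
      have ha' := hchart ha
      have hb' := hchart hb
      rw [hF] at ha' hb' ⊢
      obtain ⟨a1, ha1, a2, ha2, ha20, hva2, rfl⟩ := ha'
      obtain ⟨b1, hb1, b2, hb2, hb20, hvb2, rfl⟩ := hb'
      have hb10 : b1 ≠ 0 := by
        rintro rfl
        rw [zero_div] at hb0
        exact hb0 rfl
      rw [v.map_div hb10 hb20] at hvb
      refine ⟨a1 * b2, mul_mem ha1 hb2, a2 * b1, mul_mem ha2 hb1, mul_ne_zero ha20 hb10, ?_, ?_⟩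
      · rw [v.map_mul ha20 hb10]
        linarith
      · field_simp

theorem exists_blowup (v : ValX k n) {m : ℕ} {O : Subalgebra k (FF k n)} {y : Fin m → FF k n}
    (hP : Par v.toRVal O y) (hX : ∀ i, toFF (X i) ∈ O) :
    ∃ (I : Ideal (MvPolynomial (Fin n) k)) (g : MvPolynomial (Fin n) k), I ≠ ⊥ ∧ g ∈ I ∧ g ≠ 0 ∧
      (∀ a ∈ I, a ≠ 0 → v (toFF g) ≤ v (toFF a)) ∧ O = locc v.toRVal (chart I g) :=
  exists_blowup_aux v.toRVal O hP.nonneg hP.fgen hX

end Pool.Agent.JMF
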