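import Pool.Agent.Lib.JMF.QMPar
import Pool.Agent.Lib.ALLZO.Perron

/-!
# Laurent monomials, Perron coordinates, the ideal of the parameters

`zm z e`: the Laurent monomial; `exists_coords`: Perron coordinates for finitely many monomials of
positive value; `MI A y`: the ideal of `A` generated by the `y_i`.
-/

set_option autoImplicit false

open Finset

namespace Pool.Agent.JMF

open Pool.Agent.H15JM

variable {k K : Type*} [Field k] [Field K] [Algebra k K] {n : ℕ}

/-! ### Laurent monomials -/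

/-- The Laurent monomial `z^e`. -/
def zm (z : Fin n → K) (e : Fin n → ℤ) : K := ∏ i, z i ^ e i

section zm

variable {z : Fin n → K} (hz : ∀ i, z i ≠ 0)
include hz

theorem zm_ne (e : Fin n → ℤ) : zm z e ≠ 0 :=
  Finset.prod_ne_zero_iff.2 fun i _ => zpow_ne_zero _ (hz i)

theorem zm_add (e e' : Fin n → ℤ) : zm z (e + e') = zm z e * zm z e' := by
  rw [zm, zm, zm, ← Finset.prod_mul_distrib]
  exact Finset.prod_congr rfl fun i _ => zpow_add₀ (hz i) _ _

theorem zm_sub (e e' : Fin n → ℤ) : zm z (e - e') = zm z e / zm z e' := by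
  rw [eq_div_iff (zm_ne hz e'), ← zm_add hz, sub_add_cancel]

theorem zm_nsmul (m : ℕ) (e : Fin n → ℤ) : zm z (m • e) = zm z e ^ m := by
  induction m with
  | zero => simp [zm]
  | succ m ih => rw [succ_nsmul, zm_add hz, ih, pow_succ]

theorem zm_sum {ι : Type*} (s : Finset ι) (m : ι → ℕ) (E : ι → Fin n → ℤ) :
    zm z (∑ j ∈ s, m j • E j) = ∏ j ∈ s, zm z (E j) ^ m j := by
  classical
  induction s using Finset.induction_on with
  | empty => simp [zm]
  | insert a s ha ih => rw [Finset.sum_insert ha, Finset.prod_insert ha, zm_add hz, ih, zm_nsmul hz]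

theorem zm_val (v : RVal K) (e : Fin n → ℤ) : v (zm z e) = ∑ i, (e i : ℝ) * v (z i) := by
  rw [zm, v.map_prod _ _ fun i _ => zpow_ne_zero _ (hz i)]
  exact Finset.sum_congr rfl fun i _ => v.map_zpow (hz i) _

theorem zm_inj (v : RVal K) (hind : LinearIndependent ℚ fun i => v (z i)) {e e' : Fin n → ℤ}
    (h : v (zm z e) = v (zm z e')) : e = e' := by
  rw [zm_val hz, zm_val hz] at h
  rw [Fintype.linearIndependent_iff] at hind
  have h1 := hind (fun i => ((e i - e' i : ℤ) : ℚ)) (by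
    have h2 : ∑ i, (((e i - e' i : ℤ) : ℚ)) • v (z i) =
        ∑ i, (e i : ℝ) * v (z i) - ∑ i, (e' i : ℝ) * v (z i) := by
      rw [← Finset.sum_sub_distrib]
      refine Finset.sum_congr rfl fun i _ => ?_
      rw [Rat.smul_def]
      push_cast
      ring
    rw [h2, h, sub_self])
  funext i
  have h3 := h1 i
  have h4 : e i - e' i = 0 := by exact_mod_cast h3
  omega

/-- **Perron coordinates.** -/
theorem exists_coords (v : RVal K) (hind : LinearIndependent ℚ fun i => v (z i))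
    (S : Finset (Fin n → ℤ)) (hS : ∀ e ∈ S, 0 < v (zm z e)) :
    ∃ E : Fin n → Fin n → ℤ, (∀ j, 0 < v (zm z (E j))) ∧
      (LinearIndependent ℚ fun j => v (zm z (E j))) ∧
      ∀ e ∈ S, ∃ m : Fin n → ℕ, (∃ j, 0 < m j) ∧ zm z e = ∏ j, zm z (E j) ^ m j := by
  classical
  set Γ : AddSubgroup ℝ := AddSubgroup.closure (Set.range fun i => v (z i)) with hΓ
  have hΓfg : Γ.FG := (AddSubgroup.fg_iff _).2 ⟨_, rfl, Set.finite_range _⟩
  have hmem : ∀ γ ∈ Γ, ∃ e : Fin n → ℤ, γ = v (zm z e) := by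
    intro γ hγ
    induction hγ using AddSubgroup.closure_induction with
    | mem x hx =>
      obtain ⟨i, rfl⟩ := hx
      refine ⟨Pi.single i 1, ?_⟩
      rw [zm_val hz, Finset.sum_eq_single i]
      · simp
      · intro j _ hj
        simp [Pi.single_eq_of_ne hj]
      · simp
    | zero => exact ⟨0, by rw [zm_val hz]; simp⟩
    | add x y _ _ hx hy =>
      obtain ⟨e, rfl⟩ := hx
      obtain ⟨e', rfl⟩ := hy
      exact ⟨e + e', by rw [zm_add hz, v.map_mul (zm_ne hz _) (zm_ne hz _)]⟩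
    | neg x _ hx =>
      obtain ⟨e, rfl⟩ := hx
      refine ⟨-e, ?_⟩
      rw [zm_val hz, zm_val hz, ← Finset.sum_neg_distrib]
      refine Finset.sum_congr rfl fun i _ => ?_
      simp
  have hvmem : ∀ e : Fin n → ℤ, v (zm z e) ∈ Γ := by
    intro e
    rw [zm_val hz]
    refine Γ.sum_mem fun i _ => ?_
    rw [← zsmul_eq_mul]
    exact Γ.zsmul_mem (AddSubgroup.subset_closure ⟨i, rfl⟩) _
  obtain ⟨u, hu⟩ := ALLZO.perron Γ hΓfg ⟨fun i => v (z i), hind,
    fun i => AddSubgroup.subset_closure ⟨i, rfl⟩, fun γ hγ => by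
      obtain ⟨e, rfl⟩ := hmem γ hγ
      rw [zm_val hz]
      refine Submodule.sum_mem _ fun i _ => ?_
      have h1 : ((e i : ℝ)) * v (z i) = ((e i : ℚ)) • v (z i) := by
        rw [Rat.smul_def]; push_cast; rfl
      rw [h1]
      exact Submodule.smul_mem _ _ (Submodule.subset_span ⟨i, rfl⟩)⟩
    (S.image fun e => v (zm z e)) (by
      intro γ hγ
      obtain ⟨e, he, rfl⟩ := Finset.mem_image.1 hγ
      exact ⟨hvmem e, hS e he⟩)
  choose E hE using fun j => hmem (u j) (hu.mem j)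
  refine ⟨E, fun j => by rw [← hE]; exact hu.pos j, ?_, fun e he => ?_⟩
  · have h1 : (fun j => v (zm z (E j))) = u := funext fun j => (hE j).symm
    rw [h1]
    exact hu.ind
  · obtain ⟨m, hm, h1⟩ := hu.cone (v (zm z e)) (by
      rw [Finset.coe_image]
      exact ⟨e, he, rfl⟩)
    refine ⟨m, hm, ?_⟩
    rw [← zm_sum hz]
    congr 1
    apply zm_inj hz v hind
    rw [h1, zm_sum hz, v.map_prod _ _ fun j _ => pow_ne_zero _ (zm_ne hz _)]
    refine Finset.sum_congr rfl fun j _ => ?_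
    rw [v.map_pow (zm_ne hz _), ← hE]

end zm

/-! ### The ideal of the parameters -/

/-- The ideal generated by the `y_i` in `A`. -/
def MI (A : Subalgebra k K) (y : Fin n → K) (w : K) : Prop :=
  ∃ b : Fin n → K, (∀ i, b i ∈ A) ∧ w = ∑ i, y i * b i

section MI

variable {A A' : Subalgebra k K} {y : Fin n → K}

theorem MI.zero : MI A y 0 := ⟨fun _ => 0, fun _ => A.zero_mem, by simp⟩

theorem MI.add {w w' : K} (h : MI A y w) (h' : MI A y w') : MI A y (w + w') := by
  obtain ⟨b, hb, rfl⟩ := h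
  obtain ⟨b', hb', rfl⟩ := h'
  refine ⟨fun i => b i + b' i, fun i => A.add_mem (hb i) (hb' i), ?_⟩
  rw [← Finset.sum_add_distrib]
  exact Finset.sum_congr rfl fun i _ => (mul_add _ _ _).symm

theorem MI.mul {w a : K} (h : MI A y w) (ha : a ∈ A) : MI A y (w * a) := by
  obtain ⟨b, hb, rfl⟩ := h
  refine ⟨fun i => b i * a, fun i => A.mul_mem (hb i) ha, ?_⟩
  rw [Finset.sum_mul]
  exact Finset.sum_congr rfl fun i _ => mul_assoc _ _ _

theorem MI.mul' {w a : K} (h : MI A y w) (ha : a ∈ A) : MI A y (a * w) := by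
  rw [mul_comm]
  exact h.mul ha

theorem MI.neg {w : K} (h : MI A y w) : MI A y (-w) := by
  have h1 := h.mul (A.neg_mem A.one_mem)
  rwa [mul_neg, mul_one] at h1

theorem MI.sub {w w' : K} (h : MI A y w) (h' : MI A y w') : MI A y (w - w') := by
  rw [sub_eq_add_neg]
  exact h.add h'.neg

theorem MI.sum {ι : Type*} (s : Finset ι) (w : ι → K) (h : ∀ i ∈ s, MI A y (w i)) :
    MI A y (∑ i ∈ s, w i) := by
  classical
  induction s using Finset.induction_on with
  | empty => simpa using MI.zero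
  | insert a s ha ih =>
    rw [Finset.sum_insert ha]
    exact (h a (Finset.mem_insert_self _ _)).add
      (ih fun i hi => h i (Finset.mem_insert_of_mem hi))

theorem MI.of (i : Fin n) : MI A y (y i) := by
  classical
  refine ⟨Pi.single i 1, fun j => ?_, ?_⟩
  · by_cases h : j = i
    · subst h; rw [Pi.single_eq_same]; exact A.one_mem
    · rw [Pi.single_eq_of_ne h]; exact A.zero_mem
  · rw [Finset.sum_eq_single i]
    · simp
    · intro j _ hj
      simp [Pi.single_eq_of_ne hj]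
    · simp

theorem MI.mono (hA : A ≤ A') {w : K} (h : MI A y w) : MI A' y w := by
  obtain ⟨b, hb, e⟩ := h
  exact ⟨b, fun i => hA (hb i), e⟩

theorem MI.mem (hy : ∀ i, y i ∈ A) {w : K} (h : MI A y w) : w ∈ A := by
  obtain ⟨b, hb, rfl⟩ := h
  exact A.sum_mem fun i _ => A.mul_mem (hy i) (hb i)

/-- A monomial with a positive exponent. -/
theorem MI.prod (hy : ∀ i, y i ∈ A) {m : Fin n → ℕ} (hm : ∃ j, 0 < m j) :
    MI A y (∏ j, y j ^ m j) := by
  obtain ⟨j, hj⟩ := hm
  rw [← Finset.mul_prod_erase Finset.univ _ (Finset.mem_univ j)]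
  obtain ⟨l, hl⟩ : ∃ l, m j = l + 1 := ⟨m j - 1, by omega⟩
  rw [hl, pow_succ', mul_assoc]
  exact (MI.of j).mul (A.mul_mem (A.pow_mem (hy j) l) (A.prod_mem fun i _ => A.pow_mem (hy i) _))

theorem MI.ge {v : RVal K} (hA : ∀ a ∈ A, v.Ge 0 a) (hy : ∀ i, 0 < v (y i)) {w : K}
    (h : MI A y w) (hw : w ≠ 0) : 0 < v w := by
  obtain ⟨b, hb, rfl⟩ := h
  have hn : Nonempty (Fin n) := by
    by_contra hne
    rw [not_nonempty_iff] at hne
    exact hw (by simp)
  obtain ⟨j, -, hj⟩ := Finset.exists_min_image (Finset.univ : Finset (Fin n)) (fun i => v (y i))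
    Finset.univ_nonempty
  have h1 : v.Ge (v (y j)) (∑ i, y i * b i) := RVal.Ge.sum _ _ fun i _ => by
    have h2 := (RVal.Ge.of_le (hj i (Finset.mem_univ i))).mul (hA _ (hb i))
    rwa [add_zero] at h2
  exact lt_of_lt_of_le (hy j) (h1 hw)

end MI

end Pool.Agent.JMF
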