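import Pool.Agent.Lib.JM_H15.Frame
import Pool.Agent.Lib.JM_H15.Comp
import Pool.Agent.Lib.JM_H15.Approx

/-!
# Abhyankar valuations with residue field `k`: value group and Hensel generator (OWNER: helper38)

`v` is a real valuation of `K = k(x_1, …, x_n)` with residue field `k` (algebraically closed is not
needed, characteristic zero is) and rational rank `n`.

* `exists_value_basis`: the value group is free with a basis `v z_1, …, v z_n > 0`;
* `exists_hensel`: `K = k(z)(θ)` for a root `θ`, `v θ > 0`, of a polynomial `g` over `k(z)` with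
  linear coefficient `1` and all other coefficients of positive value.
-/

set_option autoImplicit false

open MvPolynomial Pool.Agent.H15JM

namespace Pool.Agent.JMF

variable {k : Type} [Field k] {n : ℕ}

theorem isTranscendenceBasis_of_values (v : ValX k n) (y : Fin n → FF k n) (hy : ∀ i, y i ≠ 0)
    (hind : LinearIndependent ℚ fun i => v (y i)) : IsTranscendenceBasis k y := by
  have h2 := algebraicIndependent_of_values v y hy hind
  refine h2.isTranscendenceBasis_of_lift_trdeg_le_of_finite ?_
  rw [← (isTranscendenceBasis_coord (k := k) (n := n)).lift_cardinalMk_eq_trdeg]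

theorem finiteDimensional_adjoin (v : ValX k n) (y : Fin n → FF k n) (hy : ∀ i, y i ≠ 0)
    (hind : LinearIndependent ℚ fun i => v (y i)) :
    FiniteDimensional (IntermediateField.adjoin k (Set.range y)) (FF k n) := by
  have hb := isTranscendenceBasis_of_values v y hy hind
  have halg : Algebra.IsAlgebraic (IntermediateField.adjoin k (Set.range y)) (FF k n) :=
    hb.isAlgebraic_field
  have h1 : Algebra.EssFiniteType (MvPolynomial (Fin n) k) (FF k n) :=
    Algebra.EssFiniteType.of_isLocalization _ (nonZeroDivisors _)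
  have h2 : Algebra.EssFiniteType k (FF k n) :=
    Algebra.EssFiniteType.comp k (MvPolynomial (Fin n) k) (FF k n)
  have h3 : Algebra.EssFiniteType (IntermediateField.adjoin k (Set.range y)) (FF k n) :=
    Algebra.EssFiniteType.of_comp k _ _
  exact Algebra.finite_of_essFiniteType_of_isAlgebraic

/-- The value of a polynomial in elements with independent values is the least value of its
monomials. -/
theorem val_aeval (v : ValX k n) {m : ℕ} (y : Fin m → FF k n)
    (hy : ∀ i, y i ≠ 0) (hind : LinearIndependent ℚ fun i => v (y i))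
    (p : MvPolynomial (Fin m) k) (hp0 : p ≠ 0) :
    aeval y p ≠ 0 ∧ ∃ s ∈ p.support, v (aeval y p) = ∑ i, (s i : ℝ) * v (y i) := by
  have hsupp : p.support.Nonempty := by
    rw [Finset.nonempty_iff_ne_empty]
    intro h
    exact hp0 (MvPolynomial.support_eq_empty.1 h)
  have hmon : ∀ s : Fin m →₀ ℕ, (∏ i, y i ^ s i) ≠ 0 := fun s =>
    Finset.prod_ne_zero_iff.2 fun i _ => pow_ne_zero _ (hy i)
  have hval : ∀ s ∈ p.support, v (algebraMap k (FF k n) (p.coeff s) * ∏ i, y i ^ s i) =
      ∑ i, (s i : ℝ) * v (y i) := by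
    intro s hs
    have hc : p.coeff s ≠ 0 := MvPolynomial.mem_support_iff.1 hs
    have hc' : algebraMap k (FF k n) (p.coeff s) ≠ 0 := by simpa using hc
    have h1 : v (algebraMap k (FF k n) (p.coeff s) * ∏ i, y i ^ s i) =
        v (algebraMap k (FF k n) (p.coeff s)) + v (∏ i, y i ^ s i) :=
      v.toRVal.map_mul hc' (hmon s)
    have h2 : v (∏ i, y i ^ s i) = ∑ i, v (y i ^ s i) :=
      v.toRVal.map_prod _ _ fun i _ => pow_ne_zero _ (hy i)
    rw [h1, val_algebraMap v hc, zero_add, h2]
    refine Finset.sum_congr rfl fun i _ => ?_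
    exact v.toRVal.map_pow (hy i) _
  have h := v.toRVal.sum_ne_zero p.support
    (fun s => algebraMap k (FF k n) (p.coeff s) * ∏ i, y i ^ s i) (by
      intro s hs
      refine mul_ne_zero ?_ (hmon s)
      simpa using MvPolynomial.mem_support_iff.1 hs) (by
      intro s hs t ht hst
      have hst' : (∑ i, (s i : ℝ) * v (y i)) = ∑ i, (t i : ℝ) * v (y i) := by
        rw [← hval s hs, ← hval t ht]
        exact hst
      rw [Fintype.linearIndependent_iff] at hind
      have h3 := hind (fun i => (s i : ℚ) - (t i : ℚ)) (by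
        simp only [Rat.smul_def]
        push_cast
        simp only [sub_mul, Finset.sum_sub_distrib]
        rw [hst', sub_self])
      ext i
      have h4 := h3 i
      have h5 : (s i : ℚ) = t i := sub_eq_zero.1 h4
      exact_mod_cast h5) hsupp
  have he : aeval y p = ∑ s ∈ p.support, algebraMap k (FF k n) (p.coeff s) * ∏ i, y i ^ s i := by
    rw [MvPolynomial.aeval_def, MvPolynomial.eval₂_eq']
  rw [he]
  obtain ⟨h1, s, hs, h2⟩ := h
  exact ⟨h1, s, hs, h2.trans (hval s hs)⟩

/-- The values of the elements of `k(y)`, for elements `y` with independent values. -/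
theorem val_adjoin (v : ValX k n) {m : ℕ} (y : Fin m → FF k n)
    (hy : ∀ i, y i ≠ 0) (hind : LinearIndependent ℚ fun i => v (y i)) (x : FF k n) (hx : x ≠ 0)
    (hxF : x ∈ IntermediateField.adjoin k (Set.range y)) :
    ∃ e : Fin m → ℤ, v x = ∑ i, (e i : ℝ) * v (y i) := by
  rw [IntermediateField.mem_adjoin_range_iff] at hxF
  obtain ⟨r, s, rfl⟩ := hxF
  have hr : r ≠ 0 := by
    rintro rfl
    exact hx (by rw [map_zero, zero_div])
  have hs : s ≠ 0 := by
    rintro rfl
    exact hx (by rw [map_zero, div_zero])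
  obtain ⟨h1, a, -, h2⟩ := val_aeval v y hy hind r hr
  obtain ⟨h3, b, -, h4⟩ := val_aeval v y hy hind s hs
  refine ⟨fun i => (a i : ℤ) - b i, ?_⟩
  have h5 : v (aeval y r / aeval y s) = v (aeval y r) - v (aeval y s) := v.toRVal.map_div h1 h3
  rw [h5, h2, h4, ← Finset.sum_sub_distrib]
  refine Finset.sum_congr rfl fun i _ => ?_
  push_cast
  ring

/-- Elements whose values are in different classes modulo the values of a subfield are linearly
independent over it. -/
theorem linearIndependent_of_classes {K : Type*} [Field K] (v : RVal K) (F : Type*) [Field F]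
    [Algebra F K] {ι : Type*} (x : ι → K) (hx : ∀ i, x i ≠ 0)
    (h : ∀ i j, i ≠ j → ∀ c : F, c ≠ 0 → v (x i) - v (x j) ≠ v (algebraMap F K c)) :
    LinearIndependent F x := by
  classical
  rw [linearIndependent_iff']
  intro s g hg
  by_contra hcon
  push Not at hcon
  obtain ⟨i₀, hi₀, hgi₀⟩ := hcon
  set t := s.filter fun i => g i ≠ 0 with ht
  have htne : t.Nonempty := ⟨i₀, Finset.mem_filter.2 ⟨hi₀, hgi₀⟩⟩
  have hmap : ∀ c : F, c ≠ 0 → algebraMap F K c ≠ 0 := fun c hc => by simpa using hc
  have hne : ∀ i ∈ t, g i • x i ≠ 0 := by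
    intro i hi
    rw [Algebra.smul_def]
    exact mul_ne_zero (hmap _ (Finset.mem_filter.1 hi).2) (hx i)
  have h1 := v.sum_ne_zero t (fun i => g i • x i) hne (by
    intro i hi j hj hij
    by_contra hne2
    have hgi : g i ≠ 0 := (Finset.mem_filter.1 hi).2
    have hgj : g j ≠ 0 := (Finset.mem_filter.1 hj).2
    simp only [Algebra.smul_def] at hij
    rw [v.map_mul (hmap _ hgi) (hx i), v.map_mul (hmap _ hgj) (hx j)] at hij
    apply h i j hne2 (g j / g i) (div_ne_zero hgj hgi)
    rw [map_div₀, v.map_div (hmap _ hgj) (hmap _ hgi)]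
    linarith) htne
  apply h1.1
  rw [ht, Finset.sum_filter_of_ne]
  · exact hg
  · intro i _ hi h0
    apply hi
    rw [h0, zero_smul]


/-- The value group of a valuation with residue field `k` of rational rank `n` is free of rank `n`:
there are elements of positive value whose values are a basis of it. -/
theorem exists_value_basis (v : ValX k n) (y : Fin n → FF k n) (hy : ∀ i, y i ≠ 0)
    (hind : LinearIndependent ℚ fun i => v (y i)) :
    ∃ z : Fin n → FF k n, (∀ i, z i ≠ 0) ∧ (∀ i, 0 < v (z i)) ∧
      LinearIndependent ℚ (fun i => v (z i)) ∧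
      ∀ f, f ≠ 0 → ∃ e : Fin n → ℤ, v f = ∑ i, (e i : ℝ) * v (z i) := by
  classical
  set F := IntermediateField.adjoin k (Set.range y) with hF
  have hfd : FiniteDimensional F (FF k n) := finiteDimensional_adjoin v y hy hind
  -- representatives of the classes
  let P : Finset (FF k n) → Prop := fun s => (∀ x ∈ s, x ≠ 0) ∧
    ∀ x ∈ s, ∀ x' ∈ s, x ≠ x' → ∀ c : F, c ≠ 0 → v x - v x' ≠ v (algebraMap F (FF k n) c)
  have hcard : ∀ s, P s → s.card ≤ Module.finrank F (FF k n) := by
    intro s hs
    have h1 := linearIndependent_of_classes v.toRVal F (fun x : s => (x : FF k n))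
      (fun x => hs.1 x x.2) (fun i j hij c hc => hs.2 i i.2 j j.2 (fun h => hij (Subtype.ext h)) c hc)
    have h2 := h1.fintype_card_le_finrank
    rwa [Fintype.card_coe] at h2
  obtain ⟨s, hs, hmax⟩ : ∃ s, P s ∧ ∀ t, P t → t.card ≤ s.card := by
    have hex : ∃ N, ∃ s, P s ∧ s.card = N := ⟨0, ∅, ⟨by simp, by simp⟩, rfl⟩
    obtain ⟨N, ⟨s, hs, hsN⟩, hN⟩ : ∃ N, (∃ s, P s ∧ s.card = N) ∧
        ∀ M, (∃ s, P s ∧ s.card = M) → M ≤ N := by
      have hb : ∀ M, (∃ s, P s ∧ s.card = M) → M ≤ Module.finrank F (FF k n) := by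
        rintro M ⟨s, hs, rfl⟩
        exact hcard s hs
      exact ⟨Nat.findGreatest (fun N => ∃ s, P s ∧ s.card = N) (Module.finrank F (FF k n)),
        Nat.findGreatest_spec (P := fun N => ∃ s, P s ∧ s.card = N) (Nat.zero_le _)
          ⟨∅, ⟨by simp, by simp⟩, rfl⟩, fun M hM => Nat.le_findGreatest (hb M hM) hM⟩
    exact ⟨s, hs, fun t ht => by rw [hsN]; exact hN _ ⟨t, ht, rfl⟩⟩
  have hrep : ∀ f, f ≠ 0 → ∃ x ∈ s, ∃ c : F, c ≠ 0 ∧ v f = v x + v (algebraMap F (FF k n) c) := by
    intro f hf
    by_cases hfs : f ∈ s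
    · refine ⟨f, hfs, 1, one_ne_zero, ?_⟩
      rw [map_one]
      have : v (1 : FF k n) = 0 := v.toRVal.map_one
      rw [this, add_zero]
    by_contra hcon
    push Not at hcon
    have h1 : P (insert f s) := by
      refine ⟨?_, ?_⟩
      · intro x hx
        rcases Finset.mem_insert.1 hx with rfl | hx
        · exact hf
        · exact hs.1 x hx
      · intro x hx x' hx' hxx c hc hcc
        have hcne : algebraMap F (FF k n) c ≠ 0 := by simpa using hc
        rcases Finset.mem_insert.1 hx with h3 | h3 <;> rcases Finset.mem_insert.1 hx' with h4 | h4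
        · exact hxx (h3.trans h4.symm)
        · rw [h3] at hcc
          exact hcon x' h4 c hc (by linarith)
        · rw [h4] at hcc
          refine hcon x h3 c⁻¹ (inv_ne_zero hc) ?_
          rw [map_inv₀]
          have : v (algebraMap F (FF k n) c)⁻¹ = - v (algebraMap F (FF k n) c) :=
            v.toRVal.map_inv hcne
          rw [this]
          linarith
        · exact hs.2 x h3 x' h4 hxx c hc hcc
    have h2 := hmax _ h1
    rw [Finset.card_insert_of_notMem hfs] at h2
    omega
  -- the value group
  let Γ : Submodule ℤ ℝ :=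
    { carrier := {t | ∃ f : FF k n, f ≠ 0 ∧ v f = t}
      add_mem' := by
        rintro _ _ ⟨f, hf, rfl⟩ ⟨g, hg, rfl⟩
        exact ⟨f * g, mul_ne_zero hf hg, v.toRVal.map_mul hf hg⟩
      zero_mem' := ⟨1, one_ne_zero, v.toRVal.map_one⟩
      smul_mem' := by
        rintro c _ ⟨f, hf, rfl⟩
        refine ⟨f ^ c, zpow_ne_zero _ hf, ?_⟩
        rw [zsmul_eq_mul]
        exact v.toRVal.map_zpow hf c }
  have hΓmem : ∀ t, t ∈ Γ ↔ ∃ f : FF k n, f ≠ 0 ∧ v f = t := fun t => Iff.rfl
  have hfg : Γ.FG := by
    refine ⟨s.image (fun x => v x) ∪ Finset.univ.image (fun i => v (y i)), ?_⟩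
    refine le_antisymm ?_ ?_
    · rw [Submodule.span_le]
      intro t ht
      rw [Finset.mem_coe, Finset.mem_union, Finset.mem_image, Finset.mem_image] at ht
      rcases ht with ⟨x, hx, rfl⟩ | ⟨i, _, rfl⟩
      · exact ⟨x, hs.1 x hx, rfl⟩
      · exact ⟨y i, hy i, rfl⟩
    · rintro _ ⟨f, hf, rfl⟩
      obtain ⟨x, hx, c, hc, hfc⟩ := hrep f hf
      rw [hfc]
      refine Submodule.add_mem _ (Submodule.subset_span ?_) ?_
      · rw [Finset.mem_coe, Finset.mem_union]
        exact Or.inl (Finset.mem_image.2 ⟨x, hx, rfl⟩)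
      · obtain ⟨e, he⟩ := val_adjoin v y hy hind (algebraMap F (FF k n) c) (by simpa using hc) c.2
        rw [he]
        refine Submodule.sum_mem _ fun i _ => ?_
        rw [← zsmul_eq_mul]
        refine Submodule.smul_mem _ _ (Submodule.subset_span ?_)
        rw [Finset.mem_coe, Finset.mem_union]
        exact Or.inr (Finset.mem_image.2 ⟨i, Finset.mem_univ i, rfl⟩)
  have hfin : Module.Finite ℤ Γ := Module.Finite.iff_fg.2 hfg
  have htf : Module.IsTorsionFree ℤ Γ := inferInstance
  have hfree : Module.Free ℤ Γ := inferInstance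
  obtain ⟨m, ⟨b⟩⟩ : ∃ m, Nonempty (Module.Basis (Fin m) ℤ Γ) := ⟨_, ⟨Module.finBasis ℤ Γ⟩⟩
  have hbind : LinearIndependent ℚ fun j => ((b j : Γ) : ℝ) := by
    rw [← LinearIndependent.iff_fractionRing ℤ ℚ]
    exact b.linearIndependent.map' Γ.subtype (Submodule.ker_subtype Γ)
  choose x hx0 hxv using fun j => (hΓmem _).1 (b j).2
  have hbind' : LinearIndependent ℚ fun j => v (x j) := by
    have : (fun j => v (x j)) = fun j => ((b j : Γ) : ℝ) := funext hxv
    rw [this]
    exact hbind
  have hmn : m ≤ n := by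
    have h1 := (algebraicIndependent_of_values v x hx0 hbind').cardinalMk_le_trdeg
    have h2 := (isTranscendenceBasis_coord (k := k) (n := n)).lift_cardinalMk_eq_trdeg
    simp only [Cardinal.mk_fin, Cardinal.lift_id] at h1 h2
    rw [← h2] at h1
    exact_mod_cast h1
  have hsum : ∀ f, f ≠ 0 → ∃ e : Fin m → ℤ, v f = ∑ i, (e i : ℝ) * v (x i) := by
    intro f hf
    refine ⟨fun i => b.repr ⟨v f, f, hf, rfl⟩ i, ?_⟩
    have h1 := b.sum_repr ⟨v f, f, hf, rfl⟩
    have h2 := congrArg (fun t : Γ => (t : ℝ)) h1
    simp only [Submodule.coe_sum, Submodule.coe_smul] at h2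
    refine h2.symm.trans (Finset.sum_congr rfl fun i _ => ?_)
    rw [hxv, zsmul_eq_mul]
  have hnm : n ≤ m := by
    have h1 : Set.range (fun i => v (y i)) ≤ (Submodule.span ℚ (Set.range fun j => v (x j)) : Set ℝ) := by
      rintro _ ⟨i, rfl⟩
      obtain ⟨e, he⟩ := hsum (y i) (hy i)
      show v (y i) ∈ Submodule.span ℚ (Set.range fun j => v (x j))
      rw [he]
      refine Submodule.sum_mem _ fun j _ => ?_
      have h3 : ((e j : ℤ) : ℝ) * v (x j) = (e j : ℚ) • v (x j) := by
        rw [Rat.smul_def]
        push_cast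
        rfl
      rw [h3]
      exact Submodule.smul_mem _ _ (Submodule.subset_span ⟨j, rfl⟩)
    have h2 := linearIndependent_le_span' _ hind _ h1
    have h3 : Fintype.card (Set.range fun j => v (x j)) ≤ m := by
      have := Fintype.card_range_le (fun j => v (x j))
      rwa [Fintype.card_fin] at this
    rw [Cardinal.mk_fin] at h2
    have h4 : n ≤ Fintype.card (Set.range fun j => v (x j)) := by exact_mod_cast h2
    exact h4.trans h3
  obtain rfl : m = n := le_antisymm hmn hnm
  have hxne : ∀ i, v (x i) ≠ 0 := fun i => hbind'.ne_zero i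
  refine ⟨fun i => if 0 < v (x i) then x i else (x i)⁻¹, ?_, ?_, ?_, ?_⟩
  · intro i
    dsimp only
    split_ifs
    · exact hx0 i
    · exact inv_ne_zero (hx0 i)
  · intro i
    dsimp only
    split_ifs with h
    · exact h
    · have h1 : v (x i)⁻¹ = - v (x i) := v.toRVal.map_inv (hx0 i)
      rw [h1]
      have h2 := hxne i
      rcases lt_trichotomy (v (x i)) 0 with h3 | h3 | h3
      · linarith
      · exact absurd h3 h2
      · exact absurd h3 h
  · have h1 : (fun i => v (if 0 < v (x i) then x i else (x i)⁻¹)) =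
        (fun i => (if 0 < v (x i) then (1 : ℚˣ) else -1) • v (x i)) := by
      funext i
      split_ifs with h
      · rw [one_smul]
      · have h1 : v (x i)⁻¹ = - v (x i) := v.toRVal.map_inv (hx0 i)
        rw [h1, Units.smul_def]
        simp
    rw [h1]
    exact hbind'.units_smul _
  · intro f hf
    obtain ⟨e, he⟩ := hsum f hf
    refine ⟨fun i => if 0 < v (x i) then e i else - e i, ?_⟩
    rw [he]
    refine Finset.sum_congr rfl fun i _ => ?_
    dsimp only
    split_ifs with h
    · rfl
    · have h1 : v (x i)⁻¹ = - v (x i) := v.toRVal.map_inv (hx0 i)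
      rw [h1]
      push_cast
      ring


theorem eval_near {K : Type*} [Field K] (v : RVal K) (P : Polynomial K) (x : K) :
    ∃ M : ℝ, 0 ≤ M ∧ ∀ c : K, v.Ge 0 (c - x) → v.Ge (-M) (P.eval c) ∧
      ∀ t : ℝ, v.Ge t (c - x) → v.Ge (t - M) (P.eval c - P.eval x) := by
  classical
  set T := Polynomial.taylor x P with hT
  set M : ℝ := ∑ i ∈ Finset.range (T.natDegree + 1), |v (T.coeff i)| with hM
  have hM0 : 0 ≤ M := Finset.sum_nonneg fun i _ => abs_nonneg _
  have hle : ∀ i ∈ Finset.range (T.natDegree + 1), v.Ge (-M) (T.coeff i) := by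
    intro i hi _
    have h1 : |v (T.coeff i)| ≤ M :=
      Finset.single_le_sum (f := fun i => |v (T.coeff i)|) (fun j _ => abs_nonneg _) hi
    have h2 := neg_abs_le (v (T.coeff i))
    linarith
  have hev : ∀ c, P.eval c = T.eval (c - x) := by
    intro c
    rw [hT, Polynomial.taylor_eval_sub]
  have hpow : ∀ h : K, v.Ge 0 h → ∀ i : ℕ, v.Ge 0 (h ^ i) := by
    intro h hh i
    induction i with
    | zero =>
      intro _
      rw [pow_zero, v.map_one]
    | succ i ih =>
      rw [pow_succ]
      have := ih.mul hh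
      rwa [add_zero] at this
  refine ⟨M, hM0, fun c hc => ⟨?_, fun t ht => ?_⟩⟩
  · rw [hev, Polynomial.eval_eq_sum_range]
    refine RVal.Ge.sum _ _ fun i hi => ?_
    have := (hle i hi).mul (hpow _ hc i)
    rwa [add_zero] at this
  · have hx : P.eval x = T.coeff 0 := by rw [hT, Polynomial.taylor_coeff_zero]
    rw [hx, hev, Polynomial.eval_eq_sum_range, Finset.sum_range_succ']
    simp only [pow_zero, mul_one]
    rw [add_sub_cancel_right]
    refine RVal.Ge.sum _ _ fun i hi => ?_
    have h1 := (hle (i + 1) (by rw [Finset.mem_range] at hi ⊢; omega)).mul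
      ((hpow _ hc i).mul ht)
    rw [pow_succ]
    exact h1.mono (by linarith)

/-- A generator of the function field over `k(z)`, `z` of values a basis of the value group, that is
a Hensel root. -/
theorem exists_hensel [CharZero k] (v : ValX k n) (hres : v.ResidueFieldIs)
    (hrank : ∃ f : Fin n → FF k n, (∀ i, f i ≠ 0) ∧ LinearIndependent ℚ fun i => v (f i)) :
    ∃ (z : Fin n → FF k n) (θ : FF k n) (g : Polynomial (FF k n)),
      (∀ i, z i ≠ 0) ∧ (∀ i, 0 < v (z i)) ∧ LinearIndependent ℚ (fun i => v (z i)) ∧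
      (∀ f, f ≠ 0 → ∃ e : Fin n → ℤ, v f = ∑ i, (e i : ℝ) * v (z i)) ∧
      (θ ≠ 0 → 0 < v θ) ∧ g.eval θ = 0 ∧ g.coeff 1 = 1 ∧
      (∀ i, g.coeff i ∈ IntermediateField.adjoin k (Set.range z)) ∧
      (∀ i, i ≠ 1 → g.coeff i ≠ 0 → 0 < v (g.coeff i)) ∧
      IntermediateField.adjoin k (Set.range z ∪ {θ}) = ⊤ := by
  classical
  obtain ⟨y, hy, hind⟩ := hrank
  obtain ⟨z, hz0, hzpos, hzind, hzval⟩ := exists_value_basis v y hy hind
  have hchar : CharZero (FF k n) :=
    charZero_of_injective_algebraMap (algebraMap k (FF k n)).injective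
  have hmemk : ∀ c : k, algebraMap k (FF k n) c ∈ IntermediateField.adjoin k (Set.range z) :=
    fun c => IntermediateField.algebraMap_mem _ c
  rcases Nat.eq_zero_or_pos n with rfl | hnpos
  · -- `n = 0`
    refine ⟨z, 0, Polynomial.X, hz0, hzpos, hzind, hzval, fun h => absurd rfl h, by simp,
      by simp, ?_, ?_, ?_⟩
    · intro i
      rw [Polynomial.coeff_X]
      split_ifs
      · exact one_mem _
      · exact zero_mem _
    · intro i hi h
      rw [Polynomial.coeff_X, if_neg (Ne.symm hi)] at h
      exact absurd rfl h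
    · rw [eq_top_iff]
      intro x _
      have hle : IntermediateField.adjoin k (Set.range z) ≤
          IntermediateField.adjoin k (Set.range z ∪ {0}) :=
        IntermediateField.adjoin.mono _ _ _ Set.subset_union_left
      refine hle ?_
      by_cases hx : x = 0
      · rw [hx]; exact zero_mem _
      have hv0 : ∀ f : FF k 0, f ≠ 0 → v f = 0 := by
        intro f hf
        obtain ⟨e, he⟩ := hzval f hf
        rw [he]
        simp
      obtain ⟨c, hc⟩ := hres x hx (hv0 x hx)
      rcases hc with hc | hc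
      · rw [hc]; exact hmemk c
      · have h1 : x - algebraMap k (FF k 0) c = 0 := by
          by_contra h2
          rw [hv0 _ h2] at hc
          exact lt_irrefl _ hc
        rw [sub_eq_zero.1 h1]; exact hmemk c
  · set i₀ : Fin n := ⟨0, hnpos⟩
    obtain ⟨F, hF⟩ : ∃ F, F = IntermediateField.adjoin k (Set.range z) := ⟨_, rfl⟩
    have hfd : FiniteDimensional F (FF k n) := by
      rw [hF]; exact finiteDimensional_adjoin v z hz0 hzind
    have hcharF : CharZero F := charZero_of_injective_algebraMap (algebraMap k F).injective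
    have hzF : ∀ i, z i ∈ F := fun i => by
      rw [hF]; exact IntermediateField.subset_adjoin _ _ ⟨i, rfl⟩
    obtain ⟨x, hx⟩ := Field.exists_primitive_element F (FF k n)
    set h : Polynomial F := minpoly F x with hh
    set H : Polynomial (FF k n) := h.map (algebraMap F (FF k n)) with hH
    have hHx : H.eval x = 0 := by
      rw [hH, Polynomial.eval_map_algebraMap, hh, minpoly.aeval]
    have hH'x : H.derivative.eval x ≠ 0 := by
      rw [hH, Polynomial.derivative_map, Polynomial.eval_map_algebraMap]
      exact (Algebra.IsSeparable.isSeparable F x).aeval_derivative_ne_zero (minpoly.aeval F x)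
    set β : ℝ := v (H.derivative.eval x) with hβ
    choose M hM0 hM using fun i : ℕ => eval_near v.toRVal (Polynomial.hasseDeriv i H) x
    set R : ℝ := ∑ i ∈ Finset.range (H.natDegree + 2), M i with hR
    have hMR : ∀ i ∈ Finset.range (H.natDegree + 2), M i ≤ R := fun i hi =>
      Finset.single_le_sum (f := M) (fun j _ => hM0 j) hi
    have hR0 : 0 ≤ R := Finset.sum_nonneg fun j _ => hM0 j
    obtain ⟨N, hN⟩ := exists_nat_gt ((|β| + R) / v (z i₀))
    have hN' : |β| + R < N * v (z i₀) := by
      rwa [div_lt_iff₀ (hzpos i₀)] at hN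
    set ρ : FF k n := z i₀ ^ N with hρ
    have hρ0 : ρ ≠ 0 := pow_ne_zero _ (hz0 _)
    have hρv : v ρ = N * v (z i₀) := v.toRVal.map_pow (hz0 i₀) N
    have hρF : ρ ∈ F := pow_mem (hzF i₀) N
    have hnn : ∀ m : ℕ, m ≠ 0 → v.toRVal ((m : FF k n)) = 0 := by
      intro m hm
      have := v.map_const (m : k) (by exact_mod_cast hm)
      rwa [map_natCast] at this
    have halg : IsAlgebraic F.toSubfield x := by
      have : IsAlgebraic F x := Algebra.IsAlgebraic.isAlgebraic x
      exact this
    obtain ⟨c, hcF, hcx⟩ := closure_of_isAlgebraic v.toRVal hnn F.toSubfield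
      (by
        intro f hf
        obtain ⟨e, he⟩ := hzval f hf
        have h1 : ∀ i ∈ Finset.univ, z i ^ e i ≠ 0 := fun i _ => zpow_ne_zero _ (hz0 i)
        refine ⟨∏ i, z i ^ e i, ?_, Finset.prod_ne_zero_iff.2 h1, ?_⟩
        · exact prod_mem fun i _ => zpow_mem (hzF i) _
        · rw [v.toRVal.map_prod _ _ h1]
          have h2 : v.toRVal f = ∑ i, (e i : ℝ) * v (z i) := he
          rw [h2]
          exact Finset.sum_congr rfl fun i _ => v.toRVal.map_zpow (hz0 i) _)
      (by
        intro f hf hf0
        obtain ⟨c, hc⟩ := hres f hf hf0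
        exact ⟨algebraMap k (FF k n) c, F.algebraMap_mem c, hc⟩)
      x halg (v ρ + |β| + R + 1)
    have hcF' : c ∈ F := hcF
    set t : ℝ := v ρ + |β| + R + 1 with ht
    have hβ1 := neg_abs_le β
    have hβ2 := le_abs_self β
    have ht0 : 0 ≤ t := by
      have := abs_nonneg β
      rw [ht, hρv]; linarith
    have hcx' : v.toRVal.Ge t (c - x) := by
      have := hcx.neg
      rwa [neg_sub] at this
    have hcx0 : v.toRVal.Ge 0 (c - x) := hcx'.mono ht0
    have h1mem : 1 ∈ Finset.range (H.natDegree + 2) := by rw [Finset.mem_range]; omega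
    have h0mem : 0 ∈ Finset.range (H.natDegree + 2) := by rw [Finset.mem_range]; omega
    have hder : H.derivative.eval c ≠ 0 ∧ v (H.derivative.eval c) = β := by
      have h2 := (hM 1 c hcx0).2 t hcx'
      rw [Polynomial.hasseDeriv_one] at h2
      have h3 := hMR 1 h1mem
      by_cases h4 : H.derivative.eval c - H.derivative.eval x = 0
      · rw [sub_eq_zero.1 h4]
        exact ⟨hH'x, rfl⟩
      · have h5 := h2 h4
        have h6 := v.toRVal.add_of_lt hH'x h4 (by
          have : v.toRVal (H.derivative.eval x) = β := rfl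
          rw [this]
          have := abs_nonneg β
          rw [ht, hρv] at h5
          linarith)
        rw [add_sub_cancel] at h6
        exact h6
    set cF : F := ⟨c, hcF'⟩ with hcFdef
    set ρF : F := ⟨ρ, hρF⟩ with hρFdef
    have hmapc : algebraMap F (FF k n) cF = c := rfl
    have hmapρ : algebraMap F (FF k n) ρF = ρ := rfl
    set u : F := (ρF * h.derivative.eval cF)⁻¹ with hu
    have hu' : algebraMap F (FF k n) u = (ρ * H.derivative.eval c)⁻¹ := by
      rw [hu, map_inv₀, map_mul, hmapρ, hH, Polynomial.derivative_map, ← hmapc,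
        Polynomial.eval_map_apply]
    set gF : Polynomial F := Polynomial.C u *
      (Polynomial.taylor cF h).comp (Polynomial.C ρF * Polynomial.X) with hgF
    set g : Polynomial (FF k n) := gF.map (algebraMap F (FF k n)) with hg
    have hTmap : (Polynomial.taylor cF h).map (algebraMap F (FF k n)) = Polynomial.taylor c H := by
      rw [hH, Polynomial.map_taylor, hmapc]
    have hcoef : ∀ i, g.coeff i = (ρ * H.derivative.eval c)⁻¹ *
        ((Polynomial.hasseDeriv i H).eval c * ρ ^ i) := by
      intro i
      rw [hg, Polynomial.coeff_map, hgF, Polynomial.coeff_C_mul, map_mul, hu',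
        Polynomial.comp_C_mul_X_coeff, map_mul, map_pow, hmapρ, ← Polynomial.coeff_map, hTmap,
        Polynomial.taylor_coeff]
    have hDne : ρ * H.derivative.eval c ≠ 0 := mul_ne_zero hρ0 hder.1
    have hDv : v (ρ * H.derivative.eval c)⁻¹ = - (v ρ + β) := by
      have h2 : v (ρ * H.derivative.eval c)⁻¹ = - v (ρ * H.derivative.eval c) :=
        v.toRVal.map_inv hDne
      have h3 : v (ρ * H.derivative.eval c) = v ρ + v (H.derivative.eval c) :=
        v.toRVal.map_mul hρ0 hder.1
      rw [h2, h3, hder.2]
    have hxθ : x = c + ρ * ((x - c) / ρ) := by field_simp; ring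
    refine ⟨z, (x - c) / ρ, g, hz0, hzpos, hzind, hzval, ?_, ?_, ?_, ?_, ?_, ?_⟩
    · intro hne
      have h2 : x - c ≠ 0 := by
        rintro h3
        exact hne (by rw [h3, zero_div])
      have h3 : v ((x - c) / ρ) = v (x - c) - v ρ := v.toRVal.map_div h2 hρ0
      have h4 := hcx h2
      have := abs_nonneg β
      rw [h3]
      have h5 : t ≤ v (x - c) := h4
      rw [ht] at h5
      linarith
    · rw [hg, hgF, Polynomial.map_mul, Polynomial.map_comp, hTmap, Polynomial.eval_mul,
        Polynomial.eval_comp]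
      have h2 : (Polynomial.map (algebraMap F (FF k n)) (Polynomial.C ρF * Polynomial.X)).eval
          ((x - c) / ρ) = x - c := by
        rw [Polynomial.map_mul, Polynomial.map_C, Polynomial.map_X, hmapρ, Polynomial.eval_mul,
          Polynomial.eval_C, Polynomial.eval_X]
        field_simp
      rw [h2, Polynomial.taylor_eval_sub, hHx, mul_zero]
    · rw [hcoef, Polynomial.hasseDeriv_one, pow_one, mul_comm (Polynomial.eval c _) ρ,
        inv_mul_cancel₀ hDne]
    · intro i
      rw [← hF, hg, Polynomial.coeff_map]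
      exact (gF.coeff i).2
    · intro i hi hne
      rw [hcoef] at hne ⊢
      have hE0 : (Polynomial.hasseDeriv i H).eval c ≠ 0 := by
        intro h2
        exact hne (by rw [h2, zero_mul, mul_zero])
      have h3 : v ((ρ * H.derivative.eval c)⁻¹ * ((Polynomial.hasseDeriv i H).eval c * ρ ^ i)) =
          - (v ρ + β) + (v ((Polynomial.hasseDeriv i H).eval c) + i * v ρ) := by
        have h4 : v ((ρ * H.derivative.eval c)⁻¹ * ((Polynomial.hasseDeriv i H).eval c * ρ ^ i)) =
            v (ρ * H.derivative.eval c)⁻¹ + v ((Polynomial.hasseDeriv i H).eval c * ρ ^ i) :=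
          v.toRVal.map_mul (inv_ne_zero hDne) (mul_ne_zero hE0 (pow_ne_zero _ hρ0))
        have h5 : v ((Polynomial.hasseDeriv i H).eval c * ρ ^ i) =
            v ((Polynomial.hasseDeriv i H).eval c) + v (ρ ^ i) :=
          v.toRVal.map_mul hE0 (pow_ne_zero _ hρ0)
        have h6 : v (ρ ^ i) = i * v ρ := v.toRVal.map_pow hρ0 i
        rw [h4, h5, h6, hDv]
      rw [h3]
      have hρR : |β| + R < v ρ := by rw [hρv]; exact hN'
      rcases Nat.eq_zero_or_pos i with rfl | hi0
      · have h4 := (hM 0 c hcx0).2 t hcx'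
        rw [Polynomial.hasseDeriv_zero'] at h4 hE0 ⊢
        rw [hHx, sub_zero] at h4
        have h5 : t - M 0 ≤ v (H.eval c) := h4 hE0
        have h6 := hMR 0 h0mem
        rw [ht] at h5
        push_cast
        linarith
      · have hi2 : 2 ≤ i := by omega
        have hdeg : i ≤ H.natDegree := by
          by_contra hlt
          push Not at hlt
          apply hE0
          rw [Polynomial.hasseDeriv_eq_zero_of_lt_natDegree H i hlt, Polynomial.eval_zero]
        have h4 : -M i ≤ v ((Polynomial.hasseDeriv i H).eval c) := (hM i c hcx0).1 hE0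
        have h5 := hMR i (by rw [Finset.mem_range]; omega)
        have h6 : (2 : ℝ) ≤ i := by exact_mod_cast hi2
        have hρpos : 0 < v ρ := by
          have := abs_nonneg β
          linarith
        have h7 : 2 * v ρ ≤ i * v ρ := mul_le_mul_of_nonneg_right h6 hρpos.le
        linarith
    · have h2 : IntermediateField.adjoin k (Set.range z ∪ {x}) = ⊤ := by
        rw [← IntermediateField.adjoin_adjoin_left k (Set.range z) {x}]
        subst hF
        rw [hx, IntermediateField.restrictScalars_top]
      rw [eq_top_iff, ← h2, IntermediateField.adjoin_le_iff]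
      have h3 : IntermediateField.adjoin k (Set.range z) ≤
          IntermediateField.adjoin k (Set.range z ∪ {(x - c) / ρ}) :=
        IntermediateField.adjoin.mono _ _ _ Set.subset_union_left
      rintro w (hw | hw)
      · exact h3 (IntermediateField.subset_adjoin _ _ hw)
      · rw [Set.mem_singleton_iff] at hw
        rw [hF] at hcF' hρF
        have h4 : c + ρ * ((x - c) / ρ) ∈
            IntermediateField.adjoin k (Set.range z ∪ {(x - c) / ρ}) :=
          add_mem (h3 hcF') (mul_mem (h3 hρF)
            (IntermediateField.subset_adjoin _ _ (Or.inr rfl)))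
        rw [hw]
        rwa [← hxθ] at h4

end Pool.Agent.JMF
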