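import Pool.Agent.Lib.JMF.QMCoord
import Pool.Agent.Lib.JMF.QMHensel

/-!
# A criterion for `Par`, and the least monomial of a polynomial
-/

set_option autoImplicit false

open Finset

namespace Pool.Agent.JMF

open Pool.Agent.H15JM

variable {k K : Type*} [Field k] [Field K] [Algebra k K] {n : ℕ}

/-- The exponents of the quotients of the monomials of `P` by the monomial `m₀`. -/
noncomputable def expo (P : MvPolynomial (Fin n) k) (m₀ : Fin n →₀ ℕ) : Finset (Fin n → ℤ) := by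
  classical
  exact (P.support.erase m₀).image fun m i => (m i : ℤ) - m₀ i

theorem aeval_eq (z : Fin n → K) (P : MvPolynomial (Fin n) k) :
    MvPolynomial.aeval z P = ∑ m ∈ P.support, algebraMap k K (P.coeff m) * zm z fun i => m i := by
  rw [MvPolynomial.aeval_def, MvPolynomial.eval₂_eq']
  refine Finset.sum_congr rfl fun m _ => ?_
  congr 1
  rw [zm]
  exact Finset.prod_congr rfl fun i _ => (zpow_natCast _ _).symm

theorem cast_inj {m m' : Fin n →₀ ℕ} (h : (fun i => (m i : ℤ)) = fun i => (m' i : ℤ)) :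
    m = m' := by
  ext i
  have := congrFun h i
  simpa using this

omit [Algebra k K] in
/-- The smallest monomial of a polynomial. -/
theorem exists_least (v : RVal K) {z : Fin n → K} (hz : ∀ i, z i ≠ 0)
    (hind : LinearIndependent ℚ fun i => v (z i)) {P : MvPolynomial (Fin n) k} (hP : P ≠ 0) :
    ∃ m₀ ∈ P.support, ∀ e ∈ expo P m₀, 0 < v (zm z e) := by
  classical
  obtain ⟨m₀, hm₀, hmin⟩ := Finset.exists_min_image P.support
    (fun m => v (zm z fun i => (m i : ℤ))) (MvPolynomial.support_nonempty.2 hP)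
  refine ⟨m₀, hm₀, fun e he => ?_⟩
  obtain ⟨m, hm, rfl⟩ := Finset.mem_image.1 he
  obtain ⟨hne, hm⟩ := Finset.mem_erase.1 hm
  have h1 : zm z (fun i => (m i : ℤ) - m₀ i) =
      zm z (fun i => (m i : ℤ)) / zm z fun i => (m₀ i : ℤ) := zm_sub hz _ _
  rw [h1, v.map_div (zm_ne hz _) (zm_ne hz _), sub_pos]
  refine lt_of_le_of_ne (hmin m hm) fun h => hne ?_
  exact (cast_inj (zm_inj hz v hind h)).symm

/-- A polynomial is a monomial times `c + w`, `c ≠ 0` and `w` in the ideal of the parameters. -/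
theorem aeval_factor {z : Fin n → K} (hz : ∀ i, z i ≠ 0) {A : Subalgebra k K} {y : Fin n → K}
    (hy : ∀ i, y i ∈ A) {P : MvPolynomial (Fin n) k} {m₀ : Fin n →₀ ℕ} (hm₀ : m₀ ∈ P.support)
    (h : ∀ e ∈ expo P m₀, ∃ m : Fin n → ℕ, (∃ j, 0 < m j) ∧ zm z e = ∏ j, y j ^ m j) :
    ∃ w, MI A y w ∧ MvPolynomial.aeval z P = zm z (fun i => (m₀ i : ℤ)) *
      (algebraMap k K (P.coeff m₀) + w) := by
  classical
  refine ⟨∑ m ∈ P.support.erase m₀, algebraMap k K (P.coeff m) *
    zm z fun i => (m i : ℤ) - m₀ i, MI.sum _ _ fun m hm => ?_, ?_⟩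
  · obtain ⟨q, hq, h1⟩ := h _ (Finset.mem_image.2 ⟨m, hm, rfl⟩)
    rw [h1]
    exact (MI.prod hy hq).mul' (A.algebraMap_mem _)
  · rw [aeval_eq, ← Finset.add_sum_erase _ _ hm₀, mul_add, mul_comm, Finset.mul_sum]
    congr 1
    refine Finset.sum_congr rfl fun m _ => ?_
    have h1 : zm z (fun i => (m i : ℤ) - m₀ i) =
      zm z (fun i => (m i : ℤ)) / zm z fun i => (m₀ i : ℤ) := zm_sub hz _ _
    have := zm_ne hz fun i => (m₀ i : ℤ)
    rw [h1]
    field_simp

/-- `c + w` is a unit of value `0`. -/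
theorem unit_val {v : RVal K} (hk : ∀ c : k, c ≠ 0 → v (algebraMap k K c) = 0)
    {A : Subalgebra k K} (hA : ∀ a ∈ A, v.Ge 0 a) {y : Fin n → K} (hyp : ∀ i, 0 < v (y i))
    {c : k} (hc : c ≠ 0) {w : K} (hw : MI A y w) :
    algebraMap k K c + w ≠ 0 ∧ v (algebraMap k K c + w) = 0 := by
  have hc' : algebraMap k K c ≠ 0 := (_root_.map_ne_zero _).2 hc
  by_cases h0 : w = 0
  · rw [h0, add_zero]
    exact ⟨hc', hk c hc⟩
  · have h1 := hw.ge hA hyp h0
    have h2 := v.add_of_lt hc' h0 (by rw [hk c hc]; exact h1)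
    exact ⟨h2.1, h2.2.trans (hk c hc)⟩

/-- The values on an algebra generated by elements of value `≥ 0`. -/
theorem adjoin_ge {v : RVal K} (hk : ∀ c : k, c ≠ 0 → v (algebraMap k K c) = 0) {s : Set K}
    (hs : ∀ a ∈ s, v.Ge 0 a) : ∀ a ∈ Algebra.adjoin k s, v.Ge 0 a := by
  intro a ha
  induction ha using Algebra.adjoin_induction with
  | mem x hx => exact hs x hx
  | algebraMap c =>
    intro h0
    rw [hk c fun h1 => h0 (by rw [h1, map_zero])]
  | add x y _ _ hx hy => exact hx.add hy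
  | mul x y _ _ hx hy => simpa using hx.mul hy

theorem locc_ge {v : RVal K} {A : Subalgebra k K} (hA : ∀ a ∈ A, v.Ge 0 a) :
    ∀ a ∈ locc v A, v.Ge 0 a := by
  rintro _ ⟨a, ha, b, hb, hb0, hvb, rfl⟩ h0
  have ha0 : a ≠ 0 := fun h => h0 (by rw [h, zero_div])
  rw [v.map_div ha0 hb0, hvb, sub_zero]
  exact hA a ha ha0

theorem locc_mono {v : RVal K} {A A' : Subalgebra k K} (h : A ≤ A') : locc v A ≤ locc v A' := by
  rintro _ ⟨a, ha, b, hb, hb0, hvb, rfl⟩
  exact ⟨a, h ha, b, h hb, hb0, hvb, rfl⟩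

theorem locc_inv {v : RVal K} {A : Subalgebra k K} :
    ∀ f ∈ locc v A, f ≠ 0 → v f = 0 → f⁻¹ ∈ locc v A := by
  rintro _ ⟨a, ha, b, hb, hb0, hvb, rfl⟩ h0 h1
  have ha0 : a ≠ 0 := fun h => h0 (by rw [h, zero_div])
  refine ⟨b, hb, a, ha, ha0, ?_, inv_div a b⟩
  rw [v.map_div ha0 hb0, hvb, sub_zero] at h1
  exact h1

/-- **A criterion for `Par`**: every generator is a constant plus an element of the ideal of the
parameters of `locc v k[F]`. -/
theorem par_of {v : RVal K} (hk : ∀ c : k, c ≠ 0 → v (algebraMap k K c) = 0) {F : Finset K}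
    {y : Fin n → K} (hyF : ∀ i, y i ∈ Algebra.adjoin k (F : Set K)) (hne : ∀ i, y i ≠ 0)
    (hpos : ∀ i, 0 < v (y i)) (hind : LinearIndependent ℚ fun i => v (y i))
    (hF : ∀ a ∈ F, v.Ge 0 a)
    (hgen : ∀ a ∈ F, ∃ c : k, MI (locc v (Algebra.adjoin k (F : Set K))) y
      (a - algebraMap k K c))
    (hfrac : ∀ f : K, ∃ a ∈ Algebra.adjoin k (F : Set K), ∃ b ∈ Algebra.adjoin k (F : Set K),
      b ≠ 0 ∧ f = a / b) : Par v (locc v (Algebra.adjoin k (F : Set K))) y := by
  set A := Algebra.adjoin k (F : Set K) with hA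
  have hAge : ∀ a ∈ A, v.Ge 0 a := adjoin_ge hk hF
  have hOge := locc_ge hAge
  have hyO : ∀ i, y i ∈ locc v A := fun i => le_locc v A (hyF i)
  -- elements of `A`
  have h1 : ∀ a ∈ A, ∃ c : k, MI (locc v A) y (a - algebraMap k K c) := by
    intro a ha
    induction ha using Algebra.adjoin_induction with
    | mem x hx => exact hgen x hx
    | algebraMap c => exact ⟨c, by rw [sub_self]; exact MI.zero⟩
    | add x x' _ _ hx hx' =>
      obtain ⟨c, hc⟩ := hx
      obtain ⟨c', hc'⟩ := hx'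
      refine ⟨c + c', ?_⟩
      have h2 := hc.add hc'
      rw [map_add]
      convert h2 using 1
      ring
    | mul x x' hxA hxA' hx hx' =>
      obtain ⟨c, hc⟩ := hx
      obtain ⟨c', hc'⟩ := hx'
      refine ⟨c * c', ?_⟩
      have h2 := (hc.mul (le_locc v A hxA')).add (hc'.mul' ((locc v A).algebraMap_mem c))
      rw [map_mul]
      convert h2 using 1
      ring
  -- elements of `O`
  have h2 : ∀ f ∈ locc v A, ∃ c : k, MI (locc v A) y (f - algebraMap k K c) := by
    rintro _ ⟨a, ha, b, hb, hb0, hvb, rfl⟩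
    obtain ⟨c, hc⟩ := h1 a ha
    obtain ⟨d, hd⟩ := h1 b hb
    have hd0 : d ≠ 0 := by
      rintro rfl
      rw [map_zero, sub_zero] at hd
      have := hd.ge hOge hpos hb0
      rw [hvb] at this
      exact lt_irrefl _ this
    have hd0' : algebraMap k K d ≠ 0 := (_root_.map_ne_zero _).2 hd0
    refine ⟨c / d, ?_⟩
    have hbi : b⁻¹ ∈ locc v A := locc_inv b (le_locc v A hb) hb0 hvb
    have h3 := ((hc.mul hbi).sub ((hd.mul hbi).mul ((locc v A).algebraMap_mem (c / d))))
    convert h3 using 1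
    rw [map_div₀]
    field_simp
    ring
  refine ⟨hyO, hne, hpos, hind, fun f hf hf0 => hOge f hf hf0, locc_inv, ?_, ?_, ?_, ⟨F, rfl⟩⟩
  · intro f hf
    obtain ⟨c, hc⟩ := h2 f hf
    refine ⟨c, ?_⟩
    by_cases h0 : f - algebraMap k K c = 0
    · exact Or.inl (sub_eq_zero.1 h0)
    · exact Or.inr (hc.ge hOge hpos h0)
  · intro f hf hf0
    obtain ⟨c, hc⟩ := h2 f hf
    have hc0 : c = 0 := by
      by_contra hc0
      have hw := hc
      have h3 := unit_val hk hOge hpos (c := c) hc0 hc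
      rw [add_sub_cancel] at h3
      have := hf0 h3.1
      rw [h3.2] at this
      exact lt_irrefl _ this
    rw [hc0, map_zero, sub_zero] at hc
    exact hc
  · intro f
    obtain ⟨a, ha, b, hb, hb0, e⟩ := hfrac f
    exact ⟨a, le_locc v A ha, b, le_locc v A hb, hb0, e⟩

end Pool.Agent.JMF
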