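import Pool.Agent.Lib.JMF.QMBlow

/-!
# Quasi-monomial valuations on affine space: the definition (OWNER: helper22)

`X` is the affine `n`-space over `k`, `K = FF k n` its function field. `v ∈ Val_X` is
quasi-monomial if there are a blowing up `Y → X` in a nonzero ideal `I` of `k[X]`, regular at the
centre `η` of `v` on `Y`, a regular system of parameters `y_1, …, y_r` of the local ring of `Y` at
`η` and `α_1, …, α_r ≥ 0` with `v (∑ c_β y ^ β) = min {⟨α, β⟩ : c_β ≠ 0}` for all series whose
coefficients `c_β` are zero or units of the completion of this local ring.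
-/

set_option autoImplicit false

open MvPolynomial

namespace Pool.Agent.JMF

open Pool.Agent.H15JM

/-- `f = ∑ c_β y ^ β` in the completion of the local ring `R`: for every `N` the difference of `f`
and the sum of the terms with `|β| < N` is in the ideal generated by the `N`-th power of the
maximal ideal of `R`. -/
def IsExpansion {R : Type*} [CommRing R] [IsLocalRing R] {r : ℕ} (y : Fin r → R)
    (c : (Fin r → ℕ) → AdicCompletion (IsLocalRing.maximalIdeal R) R) (f : R) : Prop :=
  ∀ N : ℕ, algebraMap R (AdicCompletion (IsLocalRing.maximalIdeal R) R) f -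
    ∑ d ∈ Finset.range N, ∑ β ∈ Finset.piAntidiag Finset.univ d,
      c β * algebraMap R (AdicCompletion (IsLocalRing.maximalIdeal R) R) (∏ i, y i ^ β i) ∈
    (IsLocalRing.maximalIdeal R ^ N).map
      (algebraMap R (AdicCompletion (IsLocalRing.maximalIdeal R) R))

/-- The ring `R ⊂ K` is a regular local ring and the valuation `v` of `K` is monomial in a regular
system of parameters `y_1, …, y_r` of `R` (`r = dim R`, the `y_i` generate the maximal ideal), with
weights `α_i ≥ 0`: `v (∑ c_β y ^ β) = min {⟨α, β⟩ : c_β ≠ 0}` when the coefficients `c_β` are zero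
or units of the completion of `R`. -/
def IsMonomialAt {k K : Type*} [Field k] [Field K] [Algebra k K] (v : RVal K)
    (R : Subalgebra k K) : Prop :=
  ∃ (_ : IsRegularLocalRing R) (r : ℕ) (y : Fin r → R) (α : Fin r → ℝ),
    ringKrullDim R = r ∧ Ideal.span (Set.range y) = IsLocalRing.maximalIdeal R ∧
    (∀ i, 0 ≤ α i) ∧
    ∀ f : R, f ≠ 0 → ∀ c : (Fin r → ℕ) → AdicCompletion (IsLocalRing.maximalIdeal R) R,
      (∀ β, c β = 0 ∨ IsUnit (c β)) → IsExpansion y c f →
        IsLeast {t : ℝ | ∃ β : Fin r → ℕ, c β ≠ 0 ∧ t = ∑ i, α i * β i} (v f)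

variable {k : Type} [Field k] {n : ℕ}

/-- `v` is quasi-monomial: there is a blowing up `Y` of the affine space in an ideal `I ≠ 0` such
that `v` is monomial in a regular system of parameters of the local ring of `Y` at the centre `η` of
`v` on `Y`. (`g ∈ I` is an element of least value, so `η` is in the chart `chart I g`, with the ring
`k[X][a / g : a ∈ I]`, of `Y`, and `locc` is the localisation at the centre of `v`. `Y → X` is
projective and birational. `Y` is regular at `η`; a resolution of singularities of `Y`, which is an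
isomorphism over the regular locus, makes it regular everywhere and does not change the local ring
at `η`.) -/
def IsQuasiMonomial (v : ValX k n) : Prop :=
  ∃ (I : Ideal (MvPolynomial (Fin n) k)) (g : MvPolynomial (Fin n) k),
    I ≠ ⊥ ∧ g ∈ I ∧ g ≠ 0 ∧ (∀ a ∈ I, a ≠ 0 → v (toFF g) ≤ v (toFF a)) ∧
    IsMonomialAt v.toRVal (locc v.toRVal (chart I g))

/-! ### Every element has an expansion -/

section Exists

variable {R : Type*} [CommRing R] [IsLocalRing R] {r : ℕ} {y : Fin r → R}

variable (y) in
/-- The ideal generated by the monomials of degree `N`. -/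
def monIdeal (N : ℕ) : Ideal R :=
  Ideal.span ((fun β : Fin r → ℕ => ∏ i, y i ^ β i) '' (Finset.piAntidiag Finset.univ N :
    Finset (Fin r → ℕ)))

theorem pow_le_monIdeal (hy : Ideal.span (Set.range y) = IsLocalRing.maximalIdeal R) (N : ℕ) :
    IsLocalRing.maximalIdeal R ^ N ≤ monIdeal y N := by
  classical
  induction N with
  | zero =>
    intro x _
    rw [monIdeal]
    have h1 : (1 : R) ∈ Ideal.span ((fun β : Fin r → ℕ => ∏ i, y i ^ β i) ''
        (Finset.piAntidiag Finset.univ 0 : Finset (Fin r → ℕ))) :=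
      Ideal.subset_span ⟨0, by simp, by simp⟩
    rw [(Ideal.eq_top_iff_one _).2 h1]
    trivial
  | succ N ih =>
    rw [pow_succ, ← hy]
    refine (Ideal.mul_mono_left ((hy ▸ le_rfl : Ideal.span (Set.range y) ^ N ≤
      IsLocalRing.maximalIdeal R ^ N).trans ih)).trans ?_
    rw [monIdeal, Ideal.span_mul_span', Ideal.span_le]
    rintro _ ⟨_, ⟨β, hβ, rfl⟩, _, ⟨j, rfl⟩, rfl⟩
    refine Ideal.subset_span ⟨β + Pi.single j 1, ?_, ?_⟩
    · rw [Finset.mem_coe, Finset.mem_piAntidiag] at hβ ⊢
      refine ⟨?_, fun i _ => Finset.mem_univ i⟩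
      simp only [Pi.add_apply, Finset.sum_add_distrib, Finset.sum_pi_single', Finset.mem_univ,
        if_true]
      rw [hβ.1]
    · simp only [Pi.add_apply, pow_add, Finset.prod_mul_distrib]
      congr 1
      rw [Finset.prod_eq_single j]
      · simp
      · intro i _ hi
        simp [Pi.single_eq_of_ne hi]
      · intro h
        exact absurd (Finset.mem_univ j) h

theorem monomial_mem (hy : Ideal.span (Set.range y) = IsLocalRing.maximalIdeal R) {N : ℕ}
    {β : Fin r → ℕ} (hβ : β ∈ Finset.piAntidiag Finset.univ N) :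
    ∏ i, y i ^ β i ∈ IsLocalRing.maximalIdeal R ^ N := by
  rw [Finset.mem_piAntidiag] at hβ
  rw [← hβ.1, ← Finset.prod_pow_eq_pow_sum]
  refine Ideal.prod_mem_prod fun i _ => Ideal.pow_mem_pow ?_ _
  rw [← hy]
  exact Ideal.subset_span ⟨i, rfl⟩

theorem expansion_step (hy : Ideal.span (Set.range y) = IsLocalRing.maximalIdeal R) (N : ℕ)
    (f : R) (hf : f ∈ IsLocalRing.maximalIdeal R ^ N) :
    ∃ a : (Fin r → ℕ) → R, (∀ β, a β = 0 ∨ IsUnit (a β)) ∧
      f - ∑ β ∈ Finset.piAntidiag Finset.univ N, a β * ∏ i, y i ^ β i ∈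
        IsLocalRing.maximalIdeal R ^ (N + 1) := by
  classical
  have h1 := pow_le_monIdeal hy N hf
  rw [monIdeal, Ideal.span, Submodule.mem_span_image_finset_iff_exists_fun'] at h1
  obtain ⟨b, hb⟩ := h1
  refine ⟨fun β => if IsUnit (b β) then b β else 0, fun β => ?_, ?_⟩
  · by_cases h : IsUnit (b β)
    · exact Or.inr (by simp [h])
    · exact Or.inl (by simp [h])
  · rw [← hb, ← Finset.sum_sub_distrib]
    refine Ideal.sum_mem _ fun β hβ => ?_
    rw [smul_eq_mul, ← sub_mul]
    beta_reduce
    by_cases h : IsUnit (b β)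
    · rw [if_pos h, sub_self, zero_mul]
      exact Ideal.zero_mem _
    · rw [if_neg h, sub_zero, pow_succ']
      exact Ideal.mul_mem_mul ((IsLocalRing.mem_maximalIdeal _).2 h) (monomial_mem hy hβ)

/-- Every element of a local ring, whose maximal ideal is generated by `y_1, …, y_r`, has an
expansion with coefficients that are zero or units. -/
theorem exists_expansion (hy : Ideal.span (Set.range y) = IsLocalRing.maximalIdeal R) (f : R) :
    ∃ c : (Fin r → ℕ) → AdicCompletion (IsLocalRing.maximalIdeal R) R,
      (∀ β, c β = 0 ∨ IsUnit (c β)) ∧ IsExpansion y c f := by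
  classical
  choose! a ha ha' using expansion_step hy
  obtain ⟨s, hs0, hs⟩ : ∃ s : ℕ → R, s 0 = f ∧ ∀ N, s (N + 1) =
      s N - ∑ β ∈ Finset.piAntidiag Finset.univ N, a N (s N) β * ∏ i, y i ^ β i :=
    ⟨fun N => Nat.rec f (fun N x => x - ∑ β ∈ Finset.piAntidiag Finset.univ N,
      a N x β * ∏ i, y i ^ β i) N, rfl, fun _ => rfl⟩
  have hmem : ∀ N, s N ∈ IsLocalRing.maximalIdeal R ^ N := by
    intro N
    induction N with
    | zero => simp
    | succ N ih =>
      rw [hs]
      exact ha' N (s N) ih
  refine ⟨fun β => algebraMap R _ (a (∑ i, β i) (s (∑ i, β i)) β), fun β => ?_, fun N => ?_⟩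
  · rcases ha (∑ i, β i) (s (∑ i, β i)) (hmem _) β with h | h
    · exact Or.inl (by simp only [h, map_zero])
    · exact Or.inr (h.map _)
  · have h1 : ∀ N, algebraMap R (AdicCompletion (IsLocalRing.maximalIdeal R) R) f -
        ∑ d ∈ Finset.range N, ∑ β ∈ Finset.piAntidiag Finset.univ d,
          algebraMap R (AdicCompletion (IsLocalRing.maximalIdeal R) R)
            (a (∑ i, β i) (s (∑ i, β i)) β) *
          algebraMap R (AdicCompletion (IsLocalRing.maximalIdeal R) R) (∏ i, y i ^ β i) =
        algebraMap R (AdicCompletion (IsLocalRing.maximalIdeal R) R) (s N) := by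
      intro N
      induction N with
      | zero => rw [Finset.sum_range_zero, sub_zero, hs0]
      | succ N ih =>
        rw [Finset.sum_range_succ, ← sub_sub, ih, hs, map_sub, map_sum]
        congr 1
        refine Finset.sum_congr rfl fun β hβ => ?_
        rw [(Finset.mem_piAntidiag.1 hβ).1, map_mul]
    rw [h1 N]
    exact Ideal.mem_map_of_mem _ (hmem N)

end Exists

end Pool.Agent.JMF
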