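import Pool.Agent.Lib.JMF.QMPar
import Pool.Agent.Lib.JM_H15.Frame
import Pool.Agent.Lib.JM_H15.Comp
import Pool.Agent.Lib.ALLZO.Reg

/-!
# A point with `Par` is regular (OWNER: helper38)

`v` is a valuation of the function field of affine `n`-space with residue field `k`,
`Par v O y` with `n` parameters: `O` is a regular local ring of dimension `n` with maximal ideal
`(y_1, …, y_n)`.
-/

set_option autoImplicit false

open Finset

namespace Pool.Agent.JMF

open Pool.Agent.H15JM
open Pool.Agent.TAO (ofR Ctx0 VPos)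

theorem trdeg_FF (k : Type) [Field k] (n : ℕ) : Algebra.trdeg k (FF k n) = n := by
  have h2 := (isTranscendenceBasis_coord (k := k) (n := n)).lift_cardinalMk_eq_trdeg
  simp only [Cardinal.mk_fin, Cardinal.lift_id] at h2
  exact h2.symm

theorem ctx0 {k : Type} [Field k] {n : ℕ} (v : ValX k n) (hres : v.ResidueFieldIs) :
    Ctx0 k (ofR v.toRVal) n where
  triv := fun c hc => v.map_const c hc
  res := by
    intro g hg hg0
    obtain ⟨c, hc⟩ := hres g hg hg0
    have hc0 : c ≠ 0 := by
      rintro rfl
      rw [map_zero, sub_zero] at hc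
      rcases hc with hc | hc
      · exact hg hc
      · have h1 : v g = 0 := hg0
        rw [h1] at hc
        exact lt_irrefl _ hc
    refine ⟨c, hc0, fun hne => ?_⟩
    rcases hc with hc | hc
    · exact absurd (by rw [hc, sub_self]) hne
    · exact hc
  trdeg := trdeg_FF k n

section

variable {k K : Type} [Field k] [Field K] [Algebra k K] {n : ℕ} {v : RVal K}
  {O : Subalgebra k K} {y : Fin n → K}

theorem Par.lr (hP : Par v O y) : ALLZO.LR (ofR v) O y where
  fgen := by
    obtain ⟨F, hF⟩ := hP.fgen
    exact ⟨F, hF⟩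
  nonneg := fun f hf h0 => hP.nonneg f hf h0
  mem := hP.mem
  pos := fun i _ => hP.pos i
  gen := by
    intro f hf hpos
    exact hP.gen f hf hpos
  alg := by
    intro g
    obtain ⟨a, ha, b, hb, hb0, rfl⟩ := hP.frac g
    refine ⟨Polynomial.C (⟨b, hb⟩ : O) * Polynomial.X - Polynomial.C ⟨a, ha⟩, ?_, ?_⟩
    · intro h
      have h1 := congrArg (fun p => Polynomial.coeff p 1) h
      simp only [Polynomial.coeff_sub, Polynomial.coeff_C_mul, Polynomial.coeff_X_one, mul_one,
        Polynomial.coeff_C_succ, sub_zero, Polynomial.coeff_zero] at h1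
      exact hb0 (congrArg Subtype.val h1)
    · rw [map_sub, map_mul, Polynomial.aeval_C, Polynomial.aeval_C, Polynomial.aeval_X]
      change b * (a / b) - a = 0
      rw [mul_div_cancel₀ _ hb0, sub_self]

theorem Par.isLocalRing (hP : Par v O y) : IsLocalRing O := hP.lr.isLocalRing

theorem Par.isNoetherianRing (hP : Par v O y) : IsNoetherianRing O := hP.lr.isNoetherian

/-- The parameters in `O`. -/
def Par.par (hP : Par v O y) (i : Fin n) : O := ⟨y i, hP.mem i⟩

theorem Par.mem_maximalIdeal (hP : Par v O y) [IsLocalRing O] (t : O) :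
    t ∈ IsLocalRing.maximalIdeal O ↔ ((t : K) ≠ 0 → 0 < v (t : K)) := by
  rw [IsLocalRing.mem_maximalIdeal, mem_nonunits_iff]
  exact hP.lr.mem_nonunits t

theorem Par.maximalIdeal_eq (hP : Par v O y) [IsLocalRing O] :
    IsLocalRing.maximalIdeal O = Ideal.span (Set.range hP.par) := hP.lr.maximalIdeal_eq

end

/-- `O` is regular of dimension `n`. -/
theorem Par.regular {k : Type} [Field k] {n : ℕ} (v : ValX k n) (hres : v.ResidueFieldIs)
    {O : Subalgebra k (FF k n)} {y : Fin n → FF k n} (hP : Par v.toRVal O y) :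
    IsRegularLocalRing O ∧ ringKrullDim O = n := by
  have h1 : IsLocalRing O := hP.isLocalRing
  have h2 : IsNoetherianRing O := hP.isNoetherianRing
  have h3 : (n : WithBot ℕ∞) ≤ ringKrullDim O := hP.lr.dim_ge (ctx0 v hres)
  have h4 : (IsLocalRing.maximalIdeal O).spanFinrank ≤ n := by
    rw [hP.maximalIdeal_eq]
    refine (Submodule.spanFinrank_span_le_ncard_of_finite (Set.finite_range _)).trans ?_
    rw [← Set.image_univ]
    refine (Set.ncard_image_le Set.finite_univ).trans ?_
    rw [Set.ncard_univ, Nat.card_eq_fintype_card, Fintype.card_fin]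
  have h5 : (((IsLocalRing.maximalIdeal O).spanFinrank : ℕ) : WithBot ℕ∞) ≤ n := by
    exact_mod_cast h4
  have h6 : IsRegularLocalRing O :=
    IsRegularLocalRing.of_spanFinrank_maximalIdeal_le O (h5.trans h3)
  refine ⟨h6, le_antisymm ?_ h3⟩
  exact (ringKrullDim_le_spanFinrank_maximalIdeal O).trans h5

end Pool.Agent.JMF
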