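import Pool.Agent.Lib.JMF.QMMin

/-!
# The minimum formula for expansions in the completed local ring
-/

set_option autoImplicit false

open Finset

namespace Pool.Agent.JMF

open Pool.Agent.H15JM

/-- `f = ∑ c_β y^β` in the completion of `O`, for the ideal `m`: modulo every power `m^N`, the class
of `f` is the sum of the (images of the) `c_β y^β` with all `β_i < N` (the others are `0`). -/
def HasExp {O : Type*} [CommRing O] (m : Ideal O) {r : ℕ} (y : Fin r → O) (f : O)
    (c : (Fin r → ℕ) → AdicCompletion m O) : Prop :=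
  ∀ N : ℕ, Ideal.Quotient.mk (m ^ N) f = ∑ β ∈ Fintype.piFinset fun _ : Fin r => Finset.range N,
    AdicCompletion.evalₐ m N (c β) * Ideal.Quotient.mk (m ^ N) (∏ i, y i ^ β i)

variable {k K : Type*} [Field k] [Field K] [Algebra k K] {n : ℕ}

/-- **The minimum formula.** -/
theorem Par.isLeast {v : RVal K} {O : Subalgebra k K} {y : Fin n → K} (hP : Par v O y)
    (m : Ideal O) (hm : m = Ideal.span (Set.range fun i => (⟨y i, hP.mem i⟩ : O))) (f : O)
    (hf : f ≠ 0) (c : (Fin n → ℕ) → AdicCompletion m O) (hc : ∀ β, c β = 0 ∨ IsUnit (c β))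
    (h : HasExp m (fun i => (⟨y i, hP.mem i⟩ : O)) f c) :
    IsLeast {t | ∃ β, c β ≠ 0 ∧ t = ∑ i, (β i : ℝ) * v (y i)} (v (f : K)) := by
  classical
  obtain ⟨μ, hμ, hμy⟩ := exists_mu (v := v) hP.pos
  have hO : ∀ f ∈ O, v.Ge 0 f := fun f hf h0 => hP.nonneg f hf h0
  have hmge : ∀ x ∈ m, v.Ge μ (x : K) := by
    rw [hm]
    exact ge_of_mem_span hO fun i => RVal.Ge.of_le (hμy i)
  have hpow := ge_of_mem_pow hO hmge
  -- units of `O / m^N` lift to elements of value `0`
  have hlift : ∀ N β, ∃ a : O, AdicCompletion.evalₐ m N (c β) = Ideal.Quotient.mk (m ^ N) a ∧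
      (c β = 0 → a = 0) ∧ (0 < N → c β ≠ 0 → (a : K) ≠ 0 ∧ v (a : K) = 0) := by
    intro N β
    obtain ⟨a, ha⟩ := Ideal.Quotient.mk_surjective (AdicCompletion.evalₐ m N (c β))
    by_cases h0 : c β = 0
    · exact ⟨0, by rw [h0, map_zero, map_zero], fun _ => rfl, fun _ h1 => absurd h0 h1⟩
    refine ⟨a, ha.symm, fun h1 => absurd h1 h0, fun hN _ => ?_⟩
    have hu : IsUnit (Ideal.Quotient.mk (m ^ N) a) := by
      rw [ha]
      exact ((hc β).resolve_left h0).map _
    obtain ⟨b', hb'⟩ := hu.exists_right_inv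
    obtain ⟨b, rfl⟩ := Ideal.Quotient.mk_surjective b'
    have h1 : a * b - 1 ∈ m ^ N := by
      rw [← Ideal.Quotient.eq, map_mul, hb', map_one]
    have h2 : a * b - 1 ∈ m := Ideal.pow_le_self (by omega) h1
    have h3 := hmge _ h2
    have hab : ((a * b : O) : K) = 1 + ((a * b - 1 : O) : K) := by
      push_cast
      ring
    have hab1 : ((a * b : O) : K) ≠ 0 ∧ v ((a * b : O) : K) = 0 := by
      rw [hab]
      by_cases h4 : ((a * b - 1 : O) : K) = 0
      · rw [h4, add_zero]
        exact ⟨one_ne_zero, v.map_one⟩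
      · have h5 := v.add_of_lt one_ne_zero h4 (by
          rw [v.map_one]
          exact lt_of_lt_of_le hμ (h3 h4))
        exact ⟨h5.1, h5.2.trans v.map_one⟩
    have h6 : ((a * b : O) : K) = (a : K) * b := rfl
    rw [h6] at hab1
    have ha0 := left_ne_zero_of_mul hab1.1
    have hb0 := right_ne_zero_of_mul hab1.1
    refine ⟨ha0, ?_⟩
    have h7 := hab1.2
    rw [v.map_mul ha0 hb0] at h7
    have h8 := hP.nonneg a a.2 ha0
    have h9 := hP.nonneg b b.2 hb0
    linarith
  choose a ha ha0 hau using hlift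
  have key := isLeast_of_expansion (v := v) hP.ne hP.ind hμ hμy (f := (f : K))
    (fun h0 => hf (Subtype.ext h0)) {β | c β ≠ 0} (fun N => by
      rcases Nat.eq_zero_or_pos N with rfl | hN
      · refine ⟨∅, fun _ => 0, fun β _ => Nat.zero_le _, fun β hβ => absurd hβ (by simp),
          fun β hβ => absurd hβ (by simp), ?_⟩
        rw [Finset.sum_empty, sub_zero, Nat.cast_zero, zero_mul]
        exact hO f f.2
      refine ⟨Fintype.piFinset fun _ : Fin n => Finset.range N, fun β => (a N β : K), ?_, ?_, ?_, ?_⟩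
      · intro β hβ
        rw [Fintype.mem_piFinset] at hβ
        push Not at hβ
        obtain ⟨i, hi⟩ := hβ
        rw [Finset.mem_range, not_lt] at hi
        exact hi.trans (Finset.single_le_sum (f := β) (fun _ _ => Nat.zero_le _)
          (Finset.mem_univ i))
      · intro β _ hβ
        exact hau N β hN hβ
      · intro β _ hβ
        have h1 : a N β = 0 := ha0 N β (by
          by_contra h2
          exact hβ h2)
        exact congrArg Subtype.val h1
      · have h1 := h N
        have h2 : f - ∑ β ∈ Fintype.piFinset fun _ : Fin n => Finset.range N,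
            a N β * ∏ i, (⟨y i, hP.mem i⟩ : O) ^ β i ∈ m ^ N := by
          rw [← Ideal.Quotient.eq, h1, map_sum]
          refine Finset.sum_congr rfl fun β _ => ?_
          rw [ha, map_mul]
        have h3 := hpow N _ h2
        convert h3 using 1
        push_cast
        rfl)
  have hset : {t : ℝ | ∃ β, c β ≠ 0 ∧ t = ∑ i, (β i : ℝ) * v (y i)} =
      {t | ∃ β ∈ {β | c β ≠ 0}, t = ∑ i, (β i : ℝ) * v (y i)} := rfl
  rw [hset]
  exact key

end Pool.Agent.JMF
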