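import Pool.Agent.Lib.JMF.QMPar
import Pool.Agent.Lib.ALLZO.Perron

/-!
# Row QM (5): monomials in the parameters after a monomial transformation (OWNER: helper22)

Let `Par v O y`. `Γ` is the group generated by the values of the parameters, `χ γ` the Laurent
monomial in the parameters with the value `γ`. The limit ring `Oinf`, the local ring of
`k[F, χ(Γ ≥ 0)]`, contains all elements of value `≥ 0`. So finitely many of them are in the local
ring of `k[F, χ (u 1), …, χ (u n)]` for a suitable positive basis `u` of `Γ`.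
-/

set_option autoImplicit false

namespace Pool.Agent.JMF

open Pool.Agent.H15JM
open Pool.Agent.ALLZO (GoodBasis)

namespace QMMon

variable {k K : Type*} [Field k] [Field K] [Algebra k K] {v : RVal K} {n : ℕ}
  {O : Subalgebra k K} {y : Fin n → K}

/-- Zero or of positive value. -/
def PV (v : RVal K) (f : K) : Prop := f ≠ 0 → 0 < v f

theorem PV.zero : PV v (0 : K) := fun h => absurd rfl h

theorem PV.ge {f : K} (h : PV v f) : v.Ge 0 f := fun h0 => (h h0).le

theorem PV.add {f g : K} (hf : PV v f) (hg : PV v g) : PV v (f + g) := by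
  intro h0
  by_cases hf0 : f = 0
  · rw [hf0, zero_add] at h0 ⊢
    exact hg h0
  by_cases hg0 : g = 0
  · rw [hg0, add_zero] at h0 ⊢
    exact hf h0
  exact (lt_min (hf hf0) (hg hg0)).trans_le (v.map_add hf0 hg0 h0)

theorem PV.mul {f g : K} (hf : PV v f) (hg : v.Ge 0 g) : PV v (f * g) := by
  intro h0
  have hf0 := left_ne_zero_of_mul h0
  have hg0 := right_ne_zero_of_mul h0
  rw [v.map_mul hf0 hg0]
  have h1 := hf hf0
  have h2 := hg hg0
  linarith

theorem PV.sum {ι : Type*} (s : Finset ι) (f : ι → K) (h : ∀ i ∈ s, PV v (f i)) :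
    PV v (∑ i ∈ s, f i) :=
  Finset.sum_induction _ (PV v) (fun _ _ => PV.add) PV.zero h

theorem add_pv {f g : K} (hf : f ≠ 0) (hv : v f = 0) (hg : PV v g) : f + g ≠ 0 ∧ v (f + g) = 0 := by
  by_cases hg0 : g = 0
  · rw [hg0, add_zero]
    exact ⟨hf, hv⟩
  have h1 := v.add_of_lt hf hg0 (by rw [hv]; exact hg hg0)
  exact ⟨h1.1, by rw [h1.2, hv]⟩

/-! ### `locc` -/

theorem locc_inv {A : Subalgebra k K} {f : K} (hf : f ∈ locc v A) (h0 : f ≠ 0) (h1 : v f = 0) :
    f⁻¹ ∈ locc v A := by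
  obtain ⟨a, ha, b, hb, hb0, hvb, rfl⟩ := hf
  have ha0 : a ≠ 0 := by
    rintro rfl
    exact h0 (zero_div b)
  refine ⟨b, hb, a, ha, ha0, ?_, inv_div a b⟩
  rw [v.map_div ha0 hb0, hvb, sub_zero] at h1
  exact h1

theorem locc_mono {A B : Subalgebra k K} (h : A ≤ B) : locc v A ≤ locc v B := by
  rintro f ⟨a, ha, b, hb, hb0, hvb, rfl⟩
  exact ⟨a, h ha, b, h hb, hb0, hvb, rfl⟩

theorem locc_le {A B : Subalgebra k K} (h : A ≤ B) (hB : ∀ f ∈ B, f ≠ 0 → v f = 0 → f⁻¹ ∈ B) :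
    locc v A ≤ B := by
  rintro f ⟨a, ha, b, hb, hb0, hvb, rfl⟩
  rw [div_eq_mul_inv]
  exact B.mul_mem (h ha) (hB b (h hb) hb0 hvb)

theorem locc_ge {A : Subalgebra k K} (h : ∀ f ∈ A, v.Ge 0 f) : ∀ f ∈ locc v A, v.Ge 0 f := by
  rintro f ⟨a, ha, b, hb, hb0, hvb, rfl⟩ h0
  have ha0 : a ≠ 0 := by
    rintro rfl
    exact h0 (zero_div b)
  rw [v.map_div ha0 hb0, hvb, sub_zero]
  exact h a ha ha0

theorem adjoin_ge {S : Set K} (hc : ∀ c : k, v.Ge 0 (algebraMap k K c)) (h : ∀ f ∈ S, v.Ge 0 f) :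
    ∀ f ∈ Algebra.adjoin k S, v.Ge 0 f := by
  intro f hf
  induction hf using Algebra.adjoin_induction with
  | mem x hx => exact h x hx
  | algebraMap c => exact hc c
  | add x y _ _ hx hy => exact hx.add hy
  | mul x y _ _ hx hy =>
    have := hx.mul hy
    rwa [add_zero] at this

/-! ### the group and the monomials -/

theorem unique {x : Fin n → ℝ} (ind : LinearIndependent ℚ x) {e e' : Fin n → ℤ}
    (h : ∑ i, (e i : ℝ) * x i = ∑ i, (e' i : ℝ) * x i) : e = e' := by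
  have h1 : ∑ i, ((e i - e' i : ℤ) : ℚ) • x i = 0 := by
    have h2 : ∀ i, ((e i - e' i : ℤ) : ℚ) • x i = (e i : ℝ) * x i - (e' i : ℝ) * x i := by
      intro i
      rw [Rat.smul_def]
      push_cast
      ring
    rw [Finset.sum_congr rfl fun i _ => h2 i, Finset.sum_sub_distrib, h, sub_self]
  have h3 := Fintype.linearIndependent_iff.1 ind (fun i => ((e i - e' i : ℤ) : ℚ)) h1
  funext i
  have h4 := h3 i
  have h5 : e i - e' i = 0 := by exact_mod_cast h4
  omega

variable (v y) in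
/-- The group generated by the values of the parameters. -/
def Gam : AddSubgroup ℝ where
  carrier := {γ | ∃ e : Fin n → ℤ, γ = ∑ i, (e i : ℝ) * v (y i)}
  add_mem' := by
    rintro _ _ ⟨e, rfl⟩ ⟨e', rfl⟩
    refine ⟨e + e', ?_⟩
    rw [← Finset.sum_add_distrib]
    refine Finset.sum_congr rfl fun i _ => ?_
    rw [Pi.add_apply]
    push_cast
    ring
  zero_mem' := ⟨0, by simp⟩
  neg_mem' := by
    rintro _ ⟨e, rfl⟩
    refine ⟨-e, ?_⟩
    rw [← Finset.sum_neg_distrib]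
    refine Finset.sum_congr rfl fun i _ => ?_
    rw [Pi.neg_apply]
    push_cast
    ring

theorem mem_Gam {γ : ℝ} : γ ∈ Gam v y ↔ ∃ e : Fin n → ℤ, γ = ∑ i, (e i : ℝ) * v (y i) := Iff.rfl

theorem val_mem_Gam (i : Fin n) : v (y i) ∈ Gam v y := by
  classical
  refine ⟨Pi.single i 1, ?_⟩
  rw [Finset.sum_eq_single i]
  · simp
  · intro j _ hj
    simp [Pi.single_eq_of_ne hj]
  · intro h
    exact absurd (Finset.mem_univ i) h

theorem Gam_fg : (Gam v y).FG := by
  classical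
  refine ⟨Finset.univ.image fun i => v (y i), le_antisymm ?_ ?_⟩
  · rw [AddSubgroup.closure_le]
    intro x hx
    obtain ⟨i, -, rfl⟩ := Finset.mem_image.1 (Finset.mem_coe.1 hx)
    exact val_mem_Gam i
  · rintro _ ⟨e, rfl⟩
    refine AddSubgroup.sum_mem _ fun i _ => ?_
    rw [← zsmul_eq_mul]
    refine AddSubgroup.zsmul_mem _ (AddSubgroup.subset_closure ?_) _
    exact Finset.mem_coe.2 (Finset.mem_image_of_mem _ (Finset.mem_univ i))

theorem Gam_rk (hP : Par v O y) : ∃ X : Fin n → ℝ, LinearIndependent ℚ X ∧ (∀ i, X i ∈ Gam v y) ∧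
    ∀ γ ∈ Gam v y, γ ∈ Submodule.span ℚ (Set.range X) := by
  refine ⟨fun i => v (y i), hP.ind, fun i => val_mem_Gam i, ?_⟩
  rintro _ ⟨e, rfl⟩
  refine Submodule.sum_mem _ fun i _ => ?_
  have h1 : (e i : ℝ) * v (y i) = (e i : ℚ) • v (y i) := by
    rw [Rat.smul_def]
    push_cast
    rfl
  rw [h1]
  exact Submodule.smul_mem _ _ (Submodule.subset_span ⟨i, rfl⟩)

open Classical in
variable (v y) in
/-- The Laurent monomial in the parameters with the value `γ`. -/
noncomputable def chi (γ : ℝ) : K :=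
  if h : ∃ e : Fin n → ℤ, γ = ∑ i, (e i : ℝ) * v (y i) then ∏ i, y i ^ (h.choose i) else 1

theorem chi_eq (hP : Par v O y) (e : Fin n → ℤ) :
    chi v y (∑ i, (e i : ℝ) * v (y i)) = ∏ i, y i ^ e i := by
  have h : ∃ e' : Fin n → ℤ, (∑ i, (e i : ℝ) * v (y i)) = ∑ i, (e' i : ℝ) * v (y i) := ⟨e, rfl⟩
  rw [chi, dif_pos h, unique hP.ind h.choose_spec.symm]

theorem chi_ne (hP : Par v O y) {γ : ℝ} (hγ : γ ∈ Gam v y) : chi v y γ ≠ 0 := by
  obtain ⟨e, rfl⟩ := hγ
  rw [chi_eq hP]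
  exact Finset.prod_ne_zero_iff.2 fun i _ => zpow_ne_zero _ (hP.ne i)

theorem chi_val (hP : Par v O y) {γ : ℝ} (hγ : γ ∈ Gam v y) : v (chi v y γ) = γ := by
  obtain ⟨e, rfl⟩ := hγ
  rw [chi_eq hP, v.map_prod _ _ fun i _ => zpow_ne_zero _ (hP.ne i)]
  exact Finset.sum_congr rfl fun i _ => v.map_zpow (hP.ne i) _

theorem chi_add (hP : Par v O y) {γ δ : ℝ} (hγ : γ ∈ Gam v y) (hδ : δ ∈ Gam v y) :
    chi v y (γ + δ) = chi v y γ * chi v y δ := by
  obtain ⟨e, rfl⟩ := hγ
  obtain ⟨e', rfl⟩ := hδ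
  obtain ⟨s, hs⟩ : ∃ s : Fin n → ℤ, ∀ i, s i = e i + e' i := ⟨fun i => e i + e' i, fun _ => rfl⟩
  have h1 : (∑ i, (e i : ℝ) * v (y i)) + ∑ i, (e' i : ℝ) * v (y i)
      = ∑ i, (s i : ℝ) * v (y i) := by
    rw [← Finset.sum_add_distrib]
    refine Finset.sum_congr rfl fun i _ => ?_
    rw [hs i]
    push_cast
    ring
  rw [h1, chi_eq hP, chi_eq hP, chi_eq hP, ← Finset.prod_mul_distrib]
  exact Finset.prod_congr rfl fun i _ => by rw [hs i, zpow_add₀ (hP.ne i)]

theorem chi_zero (hP : Par v O y) : chi v y 0 = 1 := by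
  have h := chi_add hP (Gam v y).zero_mem (Gam v y).zero_mem
  rw [add_zero] at h
  exact (mul_left_cancel₀ (chi_ne hP (Gam v y).zero_mem) (by rw [mul_one]; exact h)).symm

theorem chi_y (hP : Par v O y) (i : Fin n) : chi v y (v (y i)) = y i := by
  classical
  have h1 : v (y i) = ∑ j, ((Pi.single i (1 : ℤ) : Fin n → ℤ) j : ℝ) * v (y j) := by
    rw [Finset.sum_eq_single i]
    · simp
    · intro j _ hj
      simp [Pi.single_eq_of_ne hj]
    · intro h
      exact absurd (Finset.mem_univ i) h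
  rw [h1, chi_eq hP, Finset.prod_eq_single i]
  · simp
  · intro j _ hj
    simp [Pi.single_eq_of_ne hj]
  · intro h
    exact absurd (Finset.mem_univ i) h

theorem chi_nsmul (hP : Par v O y) {γ : ℝ} (hγ : γ ∈ Gam v y) (m : ℕ) :
    chi v y ((m : ℝ) * γ) = chi v y γ ^ m := by
  induction m with
  | zero => rw [Nat.cast_zero, zero_mul, chi_zero hP, pow_zero]
  | succ m ih =>
    have h1 : (m : ℝ) * γ ∈ Gam v y := by
      rw [← nsmul_eq_mul]
      exact (Gam v y).nsmul_mem hγ m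
    rw [Nat.cast_succ, add_mul, one_mul, chi_add hP h1 hγ, ih, pow_succ]

theorem sum_mem_Gam {r : ℕ} {u : Fin r → ℝ} (hu : ∀ i, u i ∈ Gam v y) (m : Fin r → ℕ)
    (s : Finset (Fin r)) : ∑ i ∈ s, (m i : ℝ) * u i ∈ Gam v y := by
  refine AddSubgroup.sum_mem _ fun i _ => ?_
  rw [← nsmul_eq_mul]
  exact (Gam v y).nsmul_mem (hu i) _

theorem chi_sum (hP : Par v O y) {r : ℕ} {u : Fin r → ℝ} (hu : ∀ i, u i ∈ Gam v y)
    (m : Fin r → ℕ) (s : Finset (Fin r)) :
    chi v y (∑ i ∈ s, (m i : ℝ) * u i) = ∏ i ∈ s, chi v y (u i) ^ m i := by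
  classical
  induction s using Finset.induction_on with
  | empty => rw [Finset.sum_empty, Finset.prod_empty, chi_zero hP]
  | insert a s ha ih =>
    have h1 : (m a : ℝ) * u a ∈ Gam v y := by
      rw [← nsmul_eq_mul]
      exact (Gam v y).nsmul_mem (hu a) _
    rw [Finset.sum_insert ha, Finset.prod_insert ha, chi_add hP h1 (sum_mem_Gam hu m s), ih,
      chi_nsmul hP (hu a)]

/-! ### constants -/

theorem const_val (hP : Par v O y) {c : k} (hc : c ≠ 0) : v (algebraMap k K c) = 0 := by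
  have h0 : algebraMap k K c ≠ 0 := by
    rwa [Ne, FaithfulSMul.algebraMap_eq_zero_iff]
  have h1 := hP.nonneg _ (O.algebraMap_mem c) h0
  have h2 := hP.nonneg _ (O.algebraMap_mem c⁻¹) (by
    rw [_root_.map_inv₀]
    exact inv_ne_zero h0)
  rw [_root_.map_inv₀, v.map_inv h0] at h2
  linarith

theorem const_ge (hP : Par v O y) (c : k) : v.Ge 0 (algebraMap k K c) := by
  intro h0
  have hc : c ≠ 0 := by
    rintro rfl
    exact h0 (_root_.map_zero _)
  rw [const_val hP hc]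

/-! ### polynomials in the monomials -/

variable (k v y) in
/-- The monomials of value `≥ 0`. -/
def Mn : Set K := chi v y '' {γ | γ ∈ Gam v y ∧ 0 ≤ γ}

theorem Mn_ge (hP : Par v O y) : ∀ f ∈ Mn v y, v.Ge 0 f := by
  rintro _ ⟨γ, ⟨h1, h2⟩, rfl⟩ _
  rw [chi_val hP h1]
  exact h2

theorem exists_comb (hP : Par v O y) {p : K} (hp : p ∈ Algebra.adjoin k (Mn v y)) :
    ∃ l : ℝ →₀ k, (∀ γ ∈ l.support, γ ∈ Gam v y ∧ 0 ≤ γ) ∧
      p = ∑ γ ∈ l.support, algebraMap k K (l γ) * chi v y γ := by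
  have h1 : p ∈ Submodule.span k (chi v y '' {γ | γ ∈ Gam v y ∧ 0 ≤ γ}) := by
    have h2 : p ∈ Subalgebra.toSubmodule (Algebra.adjoin k (Mn v y)) := hp
    rw [Algebra.adjoin_eq_span] at h2
    refine Submodule.span_mono ?_ h2
    let N : Submonoid K :=
      { carrier := chi v y '' {γ | γ ∈ Gam v y ∧ 0 ≤ γ}
        mul_mem' := by
          rintro _ _ ⟨γ, ⟨h1, h2⟩, rfl⟩ ⟨δ, ⟨h3, h4⟩, rfl⟩
          exact ⟨γ + δ, ⟨(Gam v y).add_mem h1 h3, add_nonneg h2 h4⟩, chi_add hP h1 h3⟩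
        one_mem' := ⟨0, ⟨(Gam v y).zero_mem, le_rfl⟩, chi_zero hP⟩ }
    have h3 : Submonoid.closure (Mn v y) ≤ N := Submonoid.closure_le.2 fun x hx => hx
    exact fun x hx => h3 hx
  rw [Finsupp.mem_span_image_iff_linearCombination] at h1
  obtain ⟨l, hl, h2⟩ := h1
  refine ⟨l, fun γ hγ => hl (Finset.mem_coe.2 hγ), ?_⟩
  rw [← h2, Finsupp.linearCombination_apply, Finsupp.sum]
  exact Finset.sum_congr rfl fun γ _ => Algebra.smul_def _ _

/-- A nonzero polynomial in the monomials is a monomial times a unit. -/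
theorem unit_of_adjoin (hP : Par v O y) {p : K} (hp : p ∈ Algebra.adjoin k (Mn v y))
    (hp0 : p ≠ 0) : v p ∈ Gam v y ∧ ∃ w ∈ Algebra.adjoin k (Mn v y), w ≠ 0 ∧ v w = 0 ∧
      p = chi v y (v p) * w := by
  classical
  obtain ⟨l, hl, e⟩ := exists_comb hP hp
  have hne : l.support.Nonempty := by
    by_contra hcon
    rw [Finset.not_nonempty_iff_eq_empty] at hcon
    rw [hcon, Finset.sum_empty] at e
    exact hp0 e
  obtain ⟨γ₀, h0⟩ : ∃ γ₀, γ₀ = l.support.min' hne := ⟨_, rfl⟩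
  have hmem : γ₀ ∈ l.support := h0 ▸ l.support.min'_mem hne
  have hmin : ∀ γ ∈ l.support, γ₀ ≤ γ := fun γ hγ => h0 ▸ l.support.min'_le γ hγ
  have hγ₀ := (hl γ₀ hmem).1
  have hsub : ∀ γ ∈ l.support, γ - γ₀ ∈ Gam v y := fun γ hγ => (Gam v y).sub_mem (hl γ hγ).1 hγ₀
  obtain ⟨w, hw⟩ : ∃ w, w = ∑ γ ∈ l.support, algebraMap k K (l γ) * chi v y (γ - γ₀) := ⟨_, rfl⟩
  have hwm : w ∈ Algebra.adjoin k (Mn v y) := by
    rw [hw]
    refine Subalgebra.sum_mem _ fun γ hγ => Subalgebra.mul_mem _ (Subalgebra.algebraMap_mem _ _)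
      (Algebra.subset_adjoin ?_)
    exact ⟨γ - γ₀, ⟨hsub γ hγ, sub_nonneg.2 (hmin γ hγ)⟩, rfl⟩
  have hpw : p = chi v y γ₀ * w := by
    rw [e, hw, Finset.mul_sum]
    refine Finset.sum_congr rfl fun γ hγ => ?_
    have h1 : chi v y γ = chi v y γ₀ * chi v y (γ - γ₀) := by
      rw [← chi_add hP hγ₀ (hsub γ hγ), add_sub_cancel]
    rw [h1]
    ring
  have hc0 : l γ₀ ≠ 0 := Finsupp.mem_support_iff.1 hmem
  have h3 : w ≠ 0 ∧ v w = 0 := by
    rw [hw, ← Finset.add_sum_erase _ _ hmem, sub_self, chi_zero hP, mul_one]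
    refine add_pv ?_ (const_val hP hc0) ?_
    · rwa [Ne, FaithfulSMul.algebraMap_eq_zero_iff]
    · refine PV.sum _ _ fun γ hγ => ?_
      have hγ' := Finset.mem_of_mem_erase hγ
      rw [mul_comm]
      refine PV.mul (fun _ => ?_) (const_ge hP _)
      rw [chi_val hP (hsub γ hγ')]
      exact sub_pos.2 (lt_of_le_of_ne (hmin γ hγ') (Finset.ne_of_mem_erase hγ).symm)
  have h4 : v p = γ₀ := by
    rw [hpw, v.map_mul (chi_ne hP hγ₀) h3.1, chi_val hP hγ₀, h3.2, add_zero]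
  rw [h4]
  exact ⟨hγ₀, w, hwm, h3.1, h3.2, hpw⟩

/-! ### the limit ring -/

section Limit

variable {F : Finset K}

variable (k v y F) in
/-- The limit ring. -/
def Oinf : Subalgebra k K := locc v (Algebra.adjoin k ((F : Set K) ∪ Mn v y))

theorem F_ge (hP : Par v O y) (hF : O = locc v (Algebra.adjoin k (F : Set K))) :
    ∀ f ∈ (F : Set K), v.Ge 0 f := by
  intro f hf h0
  refine hP.nonneg f ?_ h0
  rw [hF]
  exact le_locc v _ (Algebra.subset_adjoin hf)

theorem le_Oinf (hF : O = locc v (Algebra.adjoin k (F : Set K))) : O ≤ Oinf k v y F := by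
  rw [hF]
  exact locc_mono (Algebra.adjoin_mono Set.subset_union_left)

theorem adjoin_le_Oinf : Algebra.adjoin k (Mn v y) ≤ Oinf k v y F :=
  (Algebra.adjoin_mono Set.subset_union_right).trans (le_locc v _)

theorem chi_mem_Oinf {γ : ℝ} (hγ : γ ∈ Gam v y) (h0 : 0 ≤ γ) : chi v y γ ∈ Oinf k v y F :=
  adjoin_le_Oinf (Algebra.subset_adjoin ⟨γ, ⟨hγ, h0⟩, rfl⟩)

theorem expand (hP : Par v O y) (hF : O = locc v (Algebra.adjoin k (F : Set K))) {μ : ℝ}
    (hμ : μ ∈ Gam v y) (hμy : ∀ i, μ ≤ v (y i)) (m : ℕ) :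
    ∀ f ∈ O, ∃ p ∈ Algebra.adjoin k (Mn v y), ∃ r ∈ Oinf k v y F,
      f = p + chi v y (m * μ) * r := by
  induction m with
  | zero =>
    intro f hf
    refine ⟨0, Subalgebra.zero_mem _, f, le_Oinf hF hf, ?_⟩
    rw [Nat.cast_zero, zero_mul, chi_zero hP, one_mul, zero_add]
  | succ m ih =>
    intro f hf
    obtain ⟨c, hc⟩ := hP.res f hf
    have h1 : f - algebraMap k K c ≠ 0 → 0 < v (f - algebraMap k K c) := by
      intro h0
      rcases hc with hc | hc
      · exact absurd (sub_eq_zero.2 hc) h0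
      · exact hc
    obtain ⟨b, hb, e⟩ := hP.gen _ (O.sub_mem hf (O.algebraMap_mem c)) h1
    choose p hp r hr hpr using fun i => ih (b i) (hb i)
    have hmμ : (m : ℝ) * μ ∈ Gam v y := by
      rw [← nsmul_eq_mul]
      exact (Gam v y).nsmul_mem hμ m
    refine ⟨algebraMap k K c + ∑ i, y i * p i, ?_, ∑ i, chi v y (v (y i) - μ) * r i, ?_, ?_⟩
    · refine Subalgebra.add_mem _ (Subalgebra.algebraMap_mem _ _) (Subalgebra.sum_mem _ fun i _ =>
        Subalgebra.mul_mem _ (Algebra.subset_adjoin ?_) (hp i))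
      exact ⟨v (y i), ⟨val_mem_Gam i, (hP.pos i).le⟩, chi_y hP i⟩
    · exact Subalgebra.sum_mem _ fun i _ => Subalgebra.mul_mem _
        (chi_mem_Oinf ((Gam v y).sub_mem (val_mem_Gam i) hμ) (sub_nonneg.2 (hμy i))) (hr i)
    · have h2 : f = algebraMap k K c + ∑ i, y i * b i := by rw [← e]; ring
      rw [h2, add_assoc, Finset.mul_sum, ← Finset.sum_add_distrib]
      congr 1
      refine Finset.sum_congr rfl fun i _ => ?_
      have h3 : chi v y (((m + 1 : ℕ) : ℝ) * μ) * chi v y (v (y i) - μ)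
          = y i * chi v y (m * μ) := by
        rw [← chi_add hP (by
          rw [← nsmul_eq_mul]
          exact (Gam v y).nsmul_mem hμ _) ((Gam v y).sub_mem (val_mem_Gam i) hμ)]
        have h4 : ((m + 1 : ℕ) : ℝ) * μ + (v (y i) - μ) = v (y i) + m * μ := by
          push_cast
          ring
        rw [h4, chi_add hP (val_mem_Gam i) hmμ, chi_y hP]
      rw [← mul_assoc, h3]
      conv_lhs => rw [hpr i]
      ring

/-- Every nonzero element of `O` is a monomial times a unit of the limit ring. -/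
theorem unit_of_mem (hP : Par v O y) (hF : O = locc v (Algebra.adjoin k (F : Set K))) {f : K}
    (hf : f ∈ O) (hf0 : f ≠ 0) : v f ∈ Gam v y ∧ ∃ w ∈ Oinf k v y F, w ≠ 0 ∧ v w = 0 ∧
      f = chi v y (v f) * w := by
  classical
  by_cases hn : n = 0
  · subst hn
    obtain ⟨c, hc⟩ := hP.res f hf
    have h1 : f - algebraMap k K c ≠ 0 → 0 < v (f - algebraMap k K c) := by
      intro h0
      rcases hc with hc | hc
      · exact absurd (sub_eq_zero.2 hc) h0
      · exact hc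
    obtain ⟨b, -, e⟩ := hP.gen _ (O.sub_mem hf (O.algebraMap_mem c)) h1
    rw [Finset.univ_eq_empty, Finset.sum_empty, sub_eq_zero] at e
    have hc0 : c ≠ 0 := by
      rintro rfl
      rw [_root_.map_zero] at e
      exact hf0 e
    have h2 : v f = 0 := by rw [e]; exact const_val hP hc0
    rw [h2]
    exact ⟨(Gam v y).zero_mem, f, le_Oinf hF hf, hf0, h2, by rw [chi_zero hP, one_mul]⟩
  · have hpos : 0 < n := Nat.pos_of_ne_zero hn
    have hne : (Finset.univ : Finset (Fin n)).Nonempty := ⟨⟨0, hpos⟩, Finset.mem_univ _⟩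
    obtain ⟨i₀, -, hi₀⟩ := Finset.exists_min_image Finset.univ (fun i => v (y i)) hne
    have hμ := val_mem_Gam (v := v) (y := y) i₀
    have hμ0 := hP.pos i₀
    obtain ⟨m, hm⟩ := exists_nat_gt (v f / v (y i₀))
    rw [div_lt_iff₀ hμ0] at hm
    obtain ⟨p, hp, r, hr, e⟩ := expand hP hF hμ (fun i => hi₀ i (Finset.mem_univ i)) m f hf
    have hmμ : (m : ℝ) * v (y i₀) ∈ Gam v y := by
      rw [← nsmul_eq_mul]
      exact (Gam v y).nsmul_mem hμ m
    have hge : ∀ f ∈ Oinf k v y F, v.Ge 0 f := by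
      refine locc_ge (adjoin_ge (const_ge hP) ?_)
      rintro x (hx | hx)
      · exact F_ge hP hF x hx
      · exact Mn_ge hP x hx
    have h1 : chi v y (m * v (y i₀)) * r ≠ 0 → v f < v (chi v y (m * v (y i₀)) * r) := by
      intro h0
      have hr0 := right_ne_zero_of_mul h0
      rw [v.map_mul (chi_ne hP hmμ) hr0, chi_val hP hmμ]
      have := hge r hr hr0
      linarith
    have h2 : p ≠ 0 ∧ v p = v f := by
      have h3 : p = f + -(chi v y (m * v (y i₀)) * r) := by rw [e]; ring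
      by_cases h0 : chi v y (m * v (y i₀)) * r = 0
      · rw [h0, neg_zero, add_zero] at h3
        rw [h3]
        exact ⟨hf0, rfl⟩
      · have h4 := v.add_of_lt hf0 (neg_ne_zero.2 h0) (by
          rw [v.map_neg _ h0]
          exact h1 h0)
        rw [← h3] at h4
        exact h4
    obtain ⟨h3, w, hw, hw0, hvw, hpw⟩ := unit_of_adjoin hP hp h2.1
    rw [h2.2] at h3 hpw
    have h5 : m * v (y i₀) - v f ∈ Gam v y := (Gam v y).sub_mem hmμ h3
    have h6 : chi v y (m * v (y i₀)) = chi v y (v f) * chi v y (m * v (y i₀) - v f) := by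
      rw [← chi_add hP h3 h5, add_sub_cancel]
    have h7 : PV v (chi v y (m * v (y i₀) - v f) * r) := by
      refine PV.mul (fun _ => ?_) (hge r hr)
      rw [chi_val hP h5]
      linarith
    have h8 := add_pv hw0 hvw h7
    refine ⟨h3, w + chi v y (m * v (y i₀) - v f) * r, ?_, h8.1, h8.2, ?_⟩
    · exact Subalgebra.add_mem _ (adjoin_le_Oinf hw) (Subalgebra.mul_mem _
        (chi_mem_Oinf h5 (by linarith)) hr)
    · rw [mul_add, ← hpw, ← mul_assoc, ← h6, ← e]

/-- The limit ring is the valuation ring. -/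
theorem mem_Oinf (hP : Par v O y) (hF : O = locc v (Algebra.adjoin k (F : Set K))) {f : K}
    (hf : f ≠ 0) (h0 : 0 ≤ v f) : f ∈ Oinf k v y F := by
  obtain ⟨a, ha, b, hb, hb0, rfl⟩ := hP.frac f
  have ha0 : a ≠ 0 := by
    rintro rfl
    exact hf (zero_div b)
  obtain ⟨h1, w, hw, hw0, hvw, e1⟩ := unit_of_mem hP hF ha ha0
  obtain ⟨h2, z, hz, hz0, hvz, e2⟩ := unit_of_mem hP hF hb hb0
  rw [v.map_div ha0 hb0] at h0
  have h3 : v a - v b ∈ Gam v y := (Gam v y).sub_mem h1 h2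
  have h4 : chi v y (v a) = chi v y (v b) * chi v y (v a - v b) := by
    rw [← chi_add hP h2 h3, add_sub_cancel]
  have h5 : a / b = chi v y (v a - v b) * (w * z⁻¹) := by
    conv_lhs => rw [e1, e2, h4]
    have := chi_ne hP h2
    field_simp
  rw [h5]
  exact Subalgebra.mul_mem _ (chi_mem_Oinf h3 h0) (Subalgebra.mul_mem _ hw (locc_inv hz hz0 hvz))

/-- Finitely many monomials occur in an element. -/
theorem exists_finite {a : K} (ha : a ∈ Algebra.adjoin k ((F : Set K) ∪ Mn v y)) :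
    ∃ S : Finset ℝ, (∀ γ ∈ S, γ ∈ Gam v y ∧ 0 ≤ γ) ∧
      a ∈ Algebra.adjoin k ((F : Set K) ∪ chi v y '' (S : Set ℝ)) := by
  classical
  have hmono : ∀ S T : Finset ℝ, Algebra.adjoin k ((F : Set K) ∪ chi v y '' (S : Set ℝ)) ≤
      Algebra.adjoin k ((F : Set K) ∪ chi v y '' ((S ∪ T : Finset ℝ) : Set ℝ)) := fun S T =>
    Algebra.adjoin_mono (Set.union_subset_union_right _ (Set.image_mono (by
      rw [Finset.coe_union]
      exact Set.subset_union_left)))
  have hmono' : ∀ S T : Finset ℝ, Algebra.adjoin k ((F : Set K) ∪ chi v y '' (T : Set ℝ)) ≤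
      Algebra.adjoin k ((F : Set K) ∪ chi v y '' ((S ∪ T : Finset ℝ) : Set ℝ)) := fun S T =>
    Algebra.adjoin_mono (Set.union_subset_union_right _ (Set.image_mono (by
      rw [Finset.coe_union]
      exact Set.subset_union_right)))
  induction ha using Algebra.adjoin_induction with
  | mem x hx =>
    rcases hx with hx | ⟨γ, hγ, rfl⟩
    · exact ⟨∅, by simp, Algebra.subset_adjoin (Or.inl hx)⟩
    · refine ⟨{γ}, ?_, Algebra.subset_adjoin (Or.inr ⟨γ, by simp, rfl⟩)⟩
      intro δ hδ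
      rw [Finset.mem_singleton.1 hδ]
      exact hγ
  | algebraMap c => exact ⟨∅, by simp, Subalgebra.algebraMap_mem _ _⟩
  | add x z _ _ hx hz =>
    obtain ⟨S, hS, h1⟩ := hx
    obtain ⟨T, hT, h2⟩ := hz
    refine ⟨S ∪ T, fun γ hγ => ?_, Subalgebra.add_mem _ (hmono S T h1) (hmono' S T h2)⟩
    rcases Finset.mem_union.1 hγ with h | h
    · exact hS γ h
    · exact hT γ h
  | mul x z _ _ hx hz =>
    obtain ⟨S, hS, h1⟩ := hx
    obtain ⟨T, hT, h2⟩ := hz
    refine ⟨S ∪ T, fun γ hγ => ?_, Subalgebra.mul_mem _ (hmono S T h1) (hmono' S T h2)⟩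
    rcases Finset.mem_union.1 hγ with h | h
    · exact hS γ h
    · exact hT γ h

end Limit

/-! ### the transformed ring -/

section Trans

variable {A' : Subalgebra k K} {y' : Fin n → K}

variable (v A' y') in
/-- The elements `∑ y'_i b_i` with `b_i` in the local ring of `A'`. -/
def JJ (x : K) : Prop := ∃ b : Fin n → K, (∀ i, b i ∈ locc v A') ∧ x = ∑ i, y' i * b i

theorem JJ.add {x z : K} (hx : JJ v A' y' x) (hz : JJ v A' y' z) : JJ v A' y' (x + z) := by
  obtain ⟨b, hb, rfl⟩ := hx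
  obtain ⟨c, hc, rfl⟩ := hz
  refine ⟨fun i => b i + c i, fun i => Subalgebra.add_mem _ (hb i) (hc i), ?_⟩
  rw [← Finset.sum_add_distrib]
  exact Finset.sum_congr rfl fun i _ => by ring

theorem JJ.zero : JJ v A' y' (0 : K) :=
  ⟨fun _ => 0, fun _ => Subalgebra.zero_mem _, by simp⟩

theorem JJ.mul {x z : K} (hx : JJ v A' y' x) (hz : z ∈ locc v A') : JJ v A' y' (x * z) := by
  obtain ⟨b, hb, rfl⟩ := hx
  refine ⟨fun i => b i * z, fun i => Subalgebra.mul_mem _ (hb i) hz, ?_⟩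
  rw [Finset.sum_mul]
  exact Finset.sum_congr rfl fun i _ => by ring

theorem JJ.sum {ι : Type*} (s : Finset ι) (f : ι → K) (h : ∀ i ∈ s, JJ v A' y' (f i)) :
    JJ v A' y' (∑ i ∈ s, f i) :=
  Finset.sum_induction _ (JJ v A' y') (fun _ _ => JJ.add) JJ.zero h

theorem JJ.self (j : Fin n) : JJ v A' y' (y' j) := by
  classical
  refine ⟨Pi.single j 1, fun i => ?_, ?_⟩
  · by_cases h : i = j
    · subst h
      rw [Pi.single_eq_same]
      exact Subalgebra.one_mem _
    · rw [Pi.single_eq_of_ne h]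
      exact Subalgebra.zero_mem _
  · rw [Finset.sum_eq_single j (fun i _ h => by rw [Pi.single_eq_of_ne h, mul_zero])
      (fun h => absurd (Finset.mem_univ j) h), Pi.single_eq_same, mul_one]

theorem JJ.pv (hA : ∀ f ∈ A', v.Ge 0 f) (hy : ∀ i, PV v (y' i)) {x : K} (hx : JJ v A' y' x) :
    PV v x := by
  obtain ⟨b, hb, rfl⟩ := hx
  exact PV.sum _ _ fun i _ => (hy i).mul (locc_ge hA _ (hb i))

theorem JJ.mem (hy : ∀ i, y' i ∈ A') {x : K} (hx : JJ v A' y' x) : x ∈ locc v A' := by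
  obtain ⟨b, hb, rfl⟩ := hx
  exact Subalgebra.sum_mem _ fun i _ => Subalgebra.mul_mem _ (le_locc v _ (hy i)) (hb i)

end Trans

/-- **Row QM (5).** After a monomial transformation of the parameters finitely many elements of
value `≥ 0` are in the local ring. -/
theorem mon (hP : Par v O y) (T : Finset K) (hT : ∀ f ∈ T, f ≠ 0 ∧ 0 ≤ v f) :
    ∃ (O' : Subalgebra k K) (y' : Fin n → K), O ≤ O' ∧ Par v O' y' ∧ ∀ f ∈ T, f ∈ O' := by
  classical
  obtain ⟨F, hF⟩ := hP.fgen
  -- the monomials in the elements of `T`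
  have hS : ∃ S : Finset ℝ, (∀ γ ∈ S, γ ∈ Gam v y ∧ 0 ≤ γ) ∧
      ∀ f ∈ T, f ∈ locc v (Algebra.adjoin k ((F : Set K) ∪ chi v y '' (S : Set ℝ))) := by
    have h1 : ∀ f ∈ T, ∃ S : Finset ℝ, (∀ γ ∈ S, γ ∈ Gam v y ∧ 0 ≤ γ) ∧
        f ∈ locc v (Algebra.adjoin k ((F : Set K) ∪ chi v y '' (S : Set ℝ))) := by
      intro f hf
      obtain ⟨a, ha, b, hb, hb0, hvb, rfl⟩ := mem_Oinf hP hF (hT f hf).1 (hT f hf).2
      obtain ⟨S₁, hS₁, h2⟩ := exists_finite ha
      obtain ⟨S₂, hS₂, h3⟩ := exists_finite hb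
      refine ⟨S₁ ∪ S₂, fun γ hγ => ?_, a, ?_, b, ?_, hb0, hvb, rfl⟩
      · rcases Finset.mem_union.1 hγ with h | h
        · exact hS₁ γ h
        · exact hS₂ γ h
      · refine Algebra.adjoin_mono (Set.union_subset_union_right _ (Set.image_mono ?_)) h2
        rw [Finset.coe_union]
        exact Set.subset_union_left
      · refine Algebra.adjoin_mono (Set.union_subset_union_right _ (Set.image_mono ?_)) h3
        rw [Finset.coe_union]
        exact Set.subset_union_right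
    choose! S hS hST using h1
    refine ⟨T.biUnion S, fun γ hγ => ?_, fun f hf => ?_⟩
    · obtain ⟨f, hf, h2⟩ := Finset.mem_biUnion.1 hγ
      exact hS f hf γ h2
    · refine locc_mono (Algebra.adjoin_mono (Set.union_subset_union_right _ (Set.image_mono ?_)))
        (hST f hf)
      exact Finset.coe_subset.2 (Finset.subset_biUnion_of_mem S hf)
  obtain ⟨S, hS, hST⟩ := hS
  obtain ⟨u, hu⟩ := ALLZO.perron (Gam v y) Gam_fg (Gam_rk hP)
    ((S ∪ Finset.univ.image fun i => v (y i)).filter fun γ => 0 < γ) (by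
      intro γ hγ
      rw [Finset.mem_filter, Finset.mem_union, Finset.mem_image] at hγ
      obtain ⟨h1 | ⟨i, -, rfl⟩, h2⟩ := hγ
      · exact ⟨(hS γ h1).1, h2⟩
      · exact ⟨val_mem_Gam i, h2⟩)
  obtain ⟨y', hy'⟩ : ∃ y' : Fin n → K, y' = fun i => chi v y (u i) := ⟨_, rfl⟩
  have hyv : ∀ i, v (y' i) = u i := fun i => by rw [hy']; exact chi_val hP (hu.mem i)
  have hy0 : ∀ i, y' i ≠ 0 := fun i => by rw [hy']; exact chi_ne hP (hu.mem i)
  have hypv : ∀ i, PV v (y' i) := fun i _ => by rw [hyv]; exact hu.pos i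
  obtain ⟨A', hA'⟩ : ∃ A' : Subalgebra k K, A' = Algebra.adjoin k ((F : Set K) ∪ Set.range y') :=
    ⟨_, rfl⟩
  have hyA : ∀ i, y' i ∈ A' := fun i => by
    rw [hA']
    exact Algebra.subset_adjoin (Or.inr ⟨i, rfl⟩)
  -- monomials of the cone
  have hcone : ∀ γ ∈ S, chi v y γ ∈ A' := by
    intro γ hγ
    rcases (hS γ hγ).2.eq_or_lt with h | h
    · rw [← h, chi_zero hP]
      exact A'.one_mem
    · obtain ⟨m, -, hm⟩ := hu.cone γ (Finset.mem_coe.2 (Finset.mem_filter.2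
        ⟨Finset.mem_union_left _ hγ, h⟩))
      rw [hm, chi_sum hP hu.mem]
      refine Subalgebra.prod_mem _ fun i _ => Subalgebra.pow_mem _ ?_ _
      have := hyA i
      rwa [hy'] at this
  have hyy : ∀ i, ∃ (j : Fin n) (z : K), z ∈ A' ∧ y i = y' j * z := by
    intro i
    obtain ⟨m, ⟨j, hj⟩, hm⟩ := hu.cone (v (y i)) (Finset.mem_coe.2 (Finset.mem_filter.2
        ⟨Finset.mem_union_right _ (Finset.mem_image_of_mem _ (Finset.mem_univ i)), hP.pos i⟩))
    obtain ⟨l, hl⟩ := Nat.exists_eq_succ_of_ne_zero hj.ne'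
    refine ⟨j, y' j ^ l * ∏ a ∈ Finset.univ.erase j, y' a ^ m a, ?_, ?_⟩
    · exact Subalgebra.mul_mem _ (Subalgebra.pow_mem _ (hyA j) _)
        (Subalgebra.prod_mem _ fun a _ => Subalgebra.pow_mem _ (hyA a) _)
    · rw [← chi_y hP i, hm, chi_sum hP hu.mem, ← Finset.mul_prod_erase _ _ (Finset.mem_univ j), hl,
        hy', pow_succ]
      ring
  have hAF : ∀ f ∈ F, f ∈ A' := fun f hf => by
    rw [hA']
    exact Algebra.subset_adjoin (Or.inl hf)
  have hge : ∀ f ∈ A', v.Ge 0 f := by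
    rw [hA']
    refine adjoin_ge (const_ge hP) ?_
    rintro x (hx | ⟨i, rfl⟩)
    · exact F_ge hP hF x hx
    · exact (hypv i).ge
  have hOO : O ≤ locc v A' := by
    rw [hF, hA']
    exact locc_mono (Algebra.adjoin_mono Set.subset_union_left)
  have hAO : A' ≤ locc v A' := le_locc v A'
  -- the decomposition of the elements of `A'`
  have hdec : ∀ a ∈ A', ∃ (c : k) (j : K), JJ v A' y' j ∧ a = algebraMap k K c + j := by
    intro a ha
    rw [hA'] at ha
    induction ha using Algebra.adjoin_induction with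
    | mem x hx =>
      rcases hx with hx | ⟨i, rfl⟩
      · have hxO : x ∈ O := by
          rw [hF]
          exact le_locc v _ (Algebra.subset_adjoin hx)
        obtain ⟨c, hc⟩ := hP.res x hxO
        have h1 : x - algebraMap k K c ≠ 0 → 0 < v (x - algebraMap k K c) := by
          intro h0
          rcases hc with hc | hc
          · exact absurd (sub_eq_zero.2 hc) h0
          · exact hc
        obtain ⟨b, hb, e⟩ := hP.gen _ (O.sub_mem hxO (O.algebraMap_mem c)) h1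
        refine ⟨c, ∑ i, y i * b i, JJ.sum _ _ fun i _ => ?_, by rw [← e]; ring⟩
        obtain ⟨j, z, hz, h2⟩ := hyy i
        rw [h2, mul_assoc]
        exact (JJ.self j).mul (Subalgebra.mul_mem _ (hAO hz) (hOO (hb i)))
      · exact ⟨0, y' i, JJ.self i, by rw [_root_.map_zero, zero_add]⟩
    | algebraMap c => exact ⟨c, 0, JJ.zero, by rw [add_zero]⟩
    | add x z _ _ hx hz =>
      obtain ⟨c, j, hj, e1⟩ := hx
      obtain ⟨d, l, hl, e2⟩ := hz
      exact ⟨c + d, j + l, hj.add hl, by rw [e1, e2, _root_.map_add]; ring⟩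
    | mul x z _ _ hx hz =>
      obtain ⟨c, j, hj, e1⟩ := hx
      obtain ⟨d, l, hl, e2⟩ := hz
      refine ⟨c * d, l * algebraMap k K c + (j * algebraMap k K d + j * l), ?_, ?_⟩
      · exact (hl.mul (Subalgebra.algebraMap_mem _ _)).add
          ((hj.mul (Subalgebra.algebraMap_mem _ _)).add (hj.mul (JJ.mem hyA hl)))
      · rw [e1, e2, _root_.map_mul]
        ring
  have hval : ∀ {c : k} {j : K}, JJ v A' y' j → c ≠ 0 →
      algebraMap k K c + j ≠ 0 ∧ v (algebraMap k K c + j) = 0 := by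
    intro c j hj hc
    refine add_pv ?_ (const_val hP hc) (hj.pv hge hypv)
    rwa [Ne, FaithfulSMul.algebraMap_eq_zero_iff]
  have hinv : ∀ f ∈ locc v A', f ≠ 0 → v f = 0 → f⁻¹ ∈ locc v A' := fun f hf h0 h1 =>
    locc_inv hf h0 h1
  refine ⟨locc v A', y', hOO, ⟨fun i => hAO (hyA i), hy0, fun i => hypv i (hy0 i), ?_,
    fun f hf h0 => locc_ge hge f hf h0, hinv, ?_, ?_, ?_, ?_⟩, ?_⟩
  · have h1 : (fun i => v (y' i)) = u := funext hyv
    rw [h1]
    exact hu.ind
  · rintro f ⟨a, ha, b, hb, hb0, hvb, rfl⟩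
    obtain ⟨c, j, hj, e1⟩ := hdec a ha
    obtain ⟨d, l, hl, e2⟩ := hdec b hb
    have hd0 : d ≠ 0 := by
      rintro rfl
      rw [_root_.map_zero, zero_add] at e2
      have := hl.pv hge hypv (e2 ▸ hb0)
      rw [← e2, hvb] at this
      exact lt_irrefl _ this
    have hd1 : algebraMap k K d ≠ 0 := by rwa [Ne, FaithfulSMul.algebraMap_eq_zero_iff]
    have hq : algebraMap k K (c / d) * algebraMap k K d = algebraMap k K c := by
      rw [_root_.map_div₀, div_mul_cancel₀ _ hd1]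
    have h1 : a / b - algebraMap k K (c / d) =
        (j + l * (-algebraMap k K (c / d))) * b⁻¹ := by
      have h3 : a - algebraMap k K (c / d) * b = j + l * (-algebraMap k K (c / d)) := by
        rw [e1, e2]
        linear_combination -hq
      rw [← h3, sub_mul, mul_assoc, mul_inv_cancel₀ hb0, mul_one, div_eq_mul_inv]
    have h2 : JJ v A' y' ((j + l * (-algebraMap k K (c / d))) * b⁻¹) :=
      (hj.add (hl.mul (Subalgebra.neg_mem _ (Subalgebra.algebraMap_mem _ _)))).mul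
        (hinv b (hAO hb) hb0 hvb)
    refine ⟨c / d, ?_⟩
    by_cases h3 : a / b - algebraMap k K (c / d) = 0
    · exact Or.inl (sub_eq_zero.1 h3)
    · refine Or.inr ?_
      rw [h1] at h3 ⊢
      exact h2.pv hge hypv h3
  · rintro f ⟨a, ha, b, hb, hb0, hvb, rfl⟩ h0
    obtain ⟨c, j, hj, e1⟩ := hdec a ha
    have hc : c = 0 := by
      by_contra hc
      obtain ⟨h1, h2⟩ := hval hj hc
      rw [← e1] at h1 h2
      have h3 := h0 (div_ne_zero h1 hb0)
      rw [v.map_div h1 hb0, h2, hvb, sub_zero] at h3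
      exact lt_irrefl _ h3
    rw [hc, _root_.map_zero, zero_add] at e1
    have h1 : JJ v A' y' (a / b) := by
      rw [div_eq_mul_inv, e1]
      exact hj.mul (hinv b (hAO hb) hb0 hvb)
    exact h1
  · intro f
    obtain ⟨a, ha, b, hb, hb0, e⟩ := hP.frac f
    exact ⟨a, hOO ha, b, hOO hb, hb0, e⟩
  · refine ⟨F ∪ Finset.univ.image y', ?_⟩
    rw [hA', Finset.coe_union, Finset.coe_image, Finset.coe_univ, Set.image_univ]
  · intro f hf
    refine locc_le ?_ hinv (hST f hf)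
    refine Algebra.adjoin_le ?_
    rintro x (hx | ⟨γ, hγ, rfl⟩)
    · exact hAO (hAF x hx)
    · exact hAO (hcone γ hγ)

end QMMon

/-- **Row QM (5)** under the name of the interface. -/
theorem mon {k K : Type*} [Field k] [Field K] [Algebra k K] {v : RVal K} {n : ℕ}
    {O : Subalgebra k K} {y : Fin n → K} (hP : Par v O y) (T : Finset K)
    (hT : ∀ f ∈ T, f ≠ 0 ∧ 0 ≤ v f) :
    ∃ (O' : Subalgebra k K) (y' : Fin n → K), O ≤ O' ∧ Par v O' y' ∧ ∀ f ∈ T, f ∈ O' :=
  QMMon.mon hP T hT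

end Pool.Agent.JMF
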