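import Pool.Agent.Lib.JMF.QMFst
import Pool.Agent.Lib.JMF.QMMon
import Pool.Agent.Lib.JMF.QMBlow

/-!
# An Abhyankar valuation with residue field `k` is centred at a regular point of a blowing up of
affine space, with parameters of rationally independent values
-/

set_option autoImplicit false

open MvPolynomial

namespace Pool.Agent.JMF

open Pool.Agent.H15JM

variable {k : Type} [Field k] {n : ℕ}

/-- The regular point, above affine space. -/
theorem exists_par_X [CharZero k] (v : ValX k n) (hres : v.ResidueFieldIs)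
    (hrank : ∃ f : Fin n → FF k n, (∀ i, f i ≠ 0) ∧ LinearIndependent ℚ fun i => v (f i)) :
    ∃ (O : Subalgebra k (FF k n)) (y : Fin n → FF k n), Par v.toRVal O y ∧
      ∀ i, toFF (X i) ∈ O := by
  classical
  obtain ⟨O, y, hP⟩ := exists_par_FF v hres hrank
  obtain ⟨O', y', -, hP', h⟩ := mon hP (Finset.univ.image fun i : Fin n => toFF (X i)) (by
    intro f hf
    obtain ⟨i, -, rfl⟩ := Finset.mem_image.1 hf
    exact ⟨toFF_ne_zero (X_ne_zero i), v.nonneg' _ (X_ne_zero i)⟩)
  exact ⟨O', y', hP', fun i => h _ (Finset.mem_image_of_mem _ (Finset.mem_univ i))⟩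

end Pool.Agent.JMF
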