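import Pool.Agent.Lib.JMF.QMCrit

/-!
# The first regular point

`z_1, …, z_n` of rationally independent positive values, `θ` of positive value, root of a polynomial
`g_0 + T + g_2 T² + …` over `k(z)` whose coefficients (except that of `T`) have positive values,
`K = k(z, θ)`: there is a regular point of a model of `K` at the centre of `v`.
-/

set_option autoImplicit false

open Finset

namespace Pool.Agent.JMF

open Pool.Agent.H15JM

variable {k K : Type*} [Field k] [Field K] [Algebra k K] {n : ℕ}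

/-- Every nonzero element of `k(z)` is a quotient of two polynomials in `z`. -/
theorem exists_polys {z : Fin n → K} {f : K} (hf : f ≠ 0)
    (h : f ∈ IntermediateField.adjoin k (Set.range z)) :
    ∃ P Q : MvPolynomial (Fin n) k, P ≠ 0 ∧ Q ≠ 0 ∧ MvPolynomial.aeval z Q ≠ 0 ∧
      f = MvPolynomial.aeval z P / MvPolynomial.aeval z Q := by
  rw [IntermediateField.mem_adjoin_iff_div] at h
  obtain ⟨r, hr, s, hs, e⟩ := h
  rw [Algebra.adjoin_range_eq_range_aeval] at hr hs
  obtain ⟨P, rfl⟩ := hr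
  obtain ⟨Q, rfl⟩ := hs
  have hP : MvPolynomial.aeval z P ≠ 0 := fun h0 => hf (by
    rw [e]
    exact (congrArg (· / _) h0).trans (zero_div _))
  have hQ : MvPolynomial.aeval z Q ≠ 0 := fun h0 => hf (by
    rw [e]
    exact (congrArg (_ / ·) h0).trans (div_zero _))
  exact ⟨P, Q, fun h0 => hP (by rw [h0, map_zero]), fun h0 => hQ (by rw [h0, map_zero]), hQ, e⟩

/-- A quotient of polynomials is a Laurent monomial times a quotient of units. -/
theorem quot_factor {z : Fin n → K} (hz : ∀ i, z i ≠ 0) {A : Subalgebra k K} {y : Fin n → K}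
    (hy : ∀ i, y i ∈ A) {P Q : MvPolynomial (Fin n) k} {m q : Fin n →₀ ℕ} (hm : m ∈ P.support)
    (hq : q ∈ Q.support)
    (hP : ∀ e ∈ expo P m, ∃ l : Fin n → ℕ, (∃ j, 0 < l j) ∧ zm z e = ∏ j, y j ^ l j)
    (hQ : ∀ e ∈ expo Q q, ∃ l : Fin n → ℕ, (∃ j, 0 < l j) ∧ zm z e = ∏ j, y j ^ l j) :
    ∃ w w' : K, MI A y w ∧ MI A y w' ∧
      MvPolynomial.aeval z P / MvPolynomial.aeval z Q =
        zm z ((fun i => (m i : ℤ)) - fun i => (q i : ℤ)) *
          ((algebraMap k K (P.coeff m) + w) / (algebraMap k K (Q.coeff q) + w')) := by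
  obtain ⟨w, hw, h1⟩ := aeval_factor hz hy hm hP
  obtain ⟨w', hw', h2⟩ := aeval_factor hz hy hq hQ
  refine ⟨w, w', hw, hw', ?_⟩
  rw [h1, h2, zm_sub hz, mul_div_mul_comm]

/-- Coordinates for finitely many elements of `k(z)` of positive value. -/
theorem exists_coords_of {v : RVal K} (hk : ∀ c : k, c ≠ 0 → v (algebraMap k K c) = 0)
    {z : Fin n → K} (hz : ∀ i, z i ≠ 0) (hzp : ∀ i, 0 < v (z i))
    (hind : LinearIndependent ℚ fun i => v (z i)) (T : Finset K)
    (hT : ∀ f ∈ T, f ≠ 0 ∧ 0 < v f ∧ f ∈ IntermediateField.adjoin k (Set.range z)) :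
    ∃ y : Fin n → K, (∀ i, y i ≠ 0) ∧ (∀ i, 0 < v (y i)) ∧
      (LinearIndependent ℚ fun i => v (y i)) ∧ (∀ i, z i ∈ Algebra.adjoin k (Set.range y)) ∧
      ∀ f ∈ T, MI (locc v (Algebra.adjoin k (Set.range y))) y f := by
  classical
  -- the exponents
  choose! P Q hP hQ hQ0 he using fun f (hf : f ∈ T) => exists_polys (hT f hf).1 (hT f hf).2.2
  choose! m hm hm' using fun f (hf : f ∈ T) => exists_least v hz hind (hP f hf)
  choose! q hq hq' using fun f (hf : f ∈ T) => exists_least v hz hind (hQ f hf)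
  -- the value of `f`
  let S : Finset (Fin n → ℤ) := (Finset.univ.image fun i : Fin n => (Pi.single i 1 : Fin n → ℤ)) ∪
    (T.biUnion fun f => expo (P f) (m f)) ∪ (T.biUnion fun f => expo (Q f) (q f))
  have hzs : ∀ i, zm z (Pi.single i 1) = z i := by
    intro i
    rw [zm, Finset.prod_eq_single i]
    · simp
    · intro j _ hj
      simp [Pi.single_eq_of_ne hj]
    · simp
  have hS : ∀ e ∈ S, 0 < v (zm z e) := by
    intro e he
    rcases Finset.mem_union.1 he with he | he
    · rcases Finset.mem_union.1 he with he | he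
      · obtain ⟨i, -, rfl⟩ := Finset.mem_image.1 he
        rw [hzs]
        exact hzp i
      · obtain ⟨f, hf, he⟩ := Finset.mem_biUnion.1 he
        exact hm' f hf e he
    · obtain ⟨f, hf, he⟩ := Finset.mem_biUnion.1 he
      exact hq' f hf e he
  have hSP : ∀ f ∈ T, ∀ e ∈ expo (P f) (m f), e ∈ S := fun f hf e he =>
    Finset.mem_union_left _ (Finset.mem_union_right _ (Finset.mem_biUnion.2 ⟨f, hf, he⟩))
  have hSQ : ∀ f ∈ T, ∀ e ∈ expo (Q f) (q f), e ∈ S := fun f hf e he =>
    Finset.mem_union_right _ (Finset.mem_biUnion.2 ⟨f, hf, he⟩)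
  have hAge : ∀ y : Fin n → K, (∀ i, 0 < v (y i)) →
      ∀ a ∈ Algebra.adjoin k (Set.range y), v.Ge 0 a := fun y hy =>
    adjoin_ge hk (by rintro _ ⟨i, rfl⟩; exact RVal.Ge.of_le (hy i).le)
  have hval : ∀ f ∈ T, v (zm z ((fun i => (m f i : ℤ)) - fun i => (q f i : ℤ))) = v f := by
    intro f hf
    obtain ⟨E, h1, h2, h3⟩ := exists_coords hz v hind S hS
    have hyA : ∀ i, zm z (E i) ∈ Algebra.adjoin k (Set.range fun i => zm z (E i)) := fun i =>
      Algebra.subset_adjoin ⟨i, rfl⟩
    obtain ⟨w, w', hw, hw', h4⟩ := quot_factor hz hyA (hm f hf) (hq f hf)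
      (fun e he => h3 e (hSP f hf e he)) (fun e he => h3 e (hSQ f hf e he))
    have h5 := unit_val hk (hAge _ h1) h1 (MvPolynomial.mem_support_iff.1 (hm f hf)) hw
    have h6 := unit_val hk (hAge _ h1) h1 (MvPolynomial.mem_support_iff.1 (hq f hf)) hw'
    have h7 := he f hf
    rw [h4] at h7
    have h8 := congrArg v h7
    rw [v.map_mul (zm_ne hz _) (div_ne_zero h5.1 h6.1), v.map_div h5.1 h6.1, h5.2, h6.2, sub_zero,
      add_zero] at h8
    exact h8.symm
  -- the coordinates
  let S' : Finset (Fin n → ℤ) := S ∪ T.image fun f => (fun i => (m f i : ℤ)) - fun i => (q f i : ℤ)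
  obtain ⟨E, h1, h2, h3⟩ := exists_coords hz v hind S' (by
    intro e he
    rcases Finset.mem_union.1 he with he | he
    · exact hS e he
    · obtain ⟨f, hf, rfl⟩ := Finset.mem_image.1 he
      rw [hval f hf]
      exact (hT f hf).2.1)
  have hyA : ∀ i, zm z (E i) ∈ Algebra.adjoin k (Set.range fun i => zm z (E i)) := fun i =>
    Algebra.subset_adjoin ⟨i, rfl⟩
  have hSS : ∀ e ∈ S, e ∈ S' := fun e he => Finset.mem_union_left _ he
  refine ⟨fun i => zm z (E i), fun i => zm_ne hz _, h1, h2, fun i => ?_, fun f hf => ?_⟩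
  · obtain ⟨l, -, h4⟩ := h3 (Pi.single i 1) (hSS _ (Finset.mem_union_left _
      (Finset.mem_union_left _ (Finset.mem_image_of_mem _ (Finset.mem_univ i)))))
    rw [hzs] at h4
    rw [h4]
    exact Subalgebra.prod_mem _ fun j _ => Subalgebra.pow_mem _ (hyA j) _
  · obtain ⟨w, w', hw, hw', h4⟩ := quot_factor hz hyA (hm f hf) (hq f hf)
      (fun e he => h3 e (hSS _ (hSP f hf e he))) (fun e he => h3 e (hSS _ (hSQ f hf e he)))
    have h6 := unit_val hk (hAge _ h1) h1 (MvPolynomial.mem_support_iff.1 (hq f hf)) hw'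
    obtain ⟨l, hl, h7⟩ := h3 ((fun i => (m f i : ℤ)) - fun i => (q f i : ℤ))
      (Finset.mem_union_right _ (Finset.mem_image_of_mem _ hf))
    rw [he f hf, h4, h7]
    refine (MI.mono (le_locc v _) (MI.prod hyA hl)).mul ?_
    refine ⟨_, Subalgebra.add_mem _ (Subalgebra.algebraMap_mem _ _) (hw.mem hyA), _,
      Subalgebra.add_mem _ (Subalgebra.algebraMap_mem _ _) (hw'.mem hyA), h6.1, h6.2, rfl⟩

/-- **The first regular point.** -/
theorem exists_par {v : RVal K} (hk : ∀ c : k, c ≠ 0 → v (algebraMap k K c) = 0)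
    {z : Fin n → K} (hz : ∀ i, z i ≠ 0) (hzp : ∀ i, 0 < v (z i))
    (hind : LinearIndependent ℚ fun i => v (z i)) {θ : K} (hθ : θ ≠ 0 → 0 < v θ)
    {g : Polynomial K} (hg : g.eval θ = 0) (hg1 : g.coeff 1 = 1)
    (hgm : ∀ i, g.coeff i ∈ IntermediateField.adjoin k (Set.range z))
    (hgp : ∀ i, i ≠ 1 → g.coeff i ≠ 0 → 0 < v (g.coeff i))
    (htop : IntermediateField.adjoin k (Set.range z ∪ {θ}) = ⊤) :
    ∃ (O : Subalgebra k K) (y : Fin n → K), Par v O y := by
  classical
  obtain ⟨y, hy0, hyp, hyi, hzy, hT⟩ := exists_coords_of hk hz hzp hind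
    ((g.support.erase 1).image g.coeff) (by
      intro f hf
      obtain ⟨i, hi, rfl⟩ := Finset.mem_image.1 hf
      obtain ⟨h1, h2⟩ := Finset.mem_erase.1 hi
      have h3 := Polynomial.mem_support_iff.1 h2
      exact ⟨h3, hgp i h1 h3, hgm i⟩)
  set F : Finset K := insert θ (Finset.univ.image y) with hF
  have hyF : ∀ i, y i ∈ Algebra.adjoin k (F : Set K) := fun i =>
    Algebra.subset_adjoin (Finset.mem_coe.2 (Finset.mem_insert_of_mem
      (Finset.mem_image_of_mem _ (Finset.mem_univ i))))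
  have hθF : θ ∈ Algebra.adjoin k (F : Set K) :=
    Algebra.subset_adjoin (Finset.mem_coe.2 (Finset.mem_insert_self _ _))
  have hle : Algebra.adjoin k (Set.range y) ≤ Algebra.adjoin k (F : Set K) := by
    refine Algebra.adjoin_le ?_
    rintro _ ⟨i, rfl⟩
    exact hyF i
  have hFge : ∀ a ∈ F, v.Ge 0 a := by
    intro a ha
    rcases Finset.mem_insert.1 ha with rfl | ha
    · exact fun h0 => (hθ h0).le
    · obtain ⟨i, -, rfl⟩ := Finset.mem_image.1 ha
      exact RVal.Ge.of_le (hyp i).le
  have hAge := adjoin_ge hk (s := (F : Set K)) hFge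
  have hOge := locc_ge hAge
  set O := locc v (Algebra.adjoin k (F : Set K)) with hO
  have hθO : θ ∈ O := le_locc v _ hθF
  -- the coefficients
  have hcoef : ∀ i, i ≠ 1 → MI O y (g.coeff i) := by
    intro i hi
    by_cases h0 : g.coeff i = 0
    · rw [h0]; exact MI.zero
    · exact (hT _ (Finset.mem_image_of_mem _ (Finset.mem_erase.2
        ⟨hi, Polynomial.mem_support_iff.2 h0⟩))).mono (locc_mono hle)
  -- `θ` is in the ideal
  have hθI : MI O y θ := by
    -- `u = 1 + ∑_{i ≥ 2} g_i θ^(i-1)`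
    set W : K := ∑ i ∈ (Finset.range (g.natDegree + 1)).filter (2 ≤ ·),
      g.coeff i * θ ^ (i - 1) with hW
    have hWI : MI O y W := MI.sum _ _ fun i hi => by
      rw [Finset.mem_filter] at hi
      exact (hcoef i (by omega)).mul (O.pow_mem hθO _)
    have hsum : g.coeff 0 + θ * (1 + W) = 0 := by
      have h1 : g.eval θ = g.coeff 0 + θ * (1 + W) := by
        have h2 : 1 ∈ Finset.range (g.natDegree + 1) := by
          rw [Finset.mem_range]
          have : 1 ≤ g.natDegree := Polynomial.le_natDegree_of_ne_zero (by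
            rw [hg1]; exact one_ne_zero)
          omega
        have h3 : 0 ∈ (Finset.range (g.natDegree + 1)).erase 1 := by
          rw [Finset.mem_erase, Finset.mem_range]
          omega
        rw [Polynomial.eval_eq_sum_range, ← Finset.add_sum_erase _ _ h2,
          ← Finset.add_sum_erase _ _ h3, hg1, hW, mul_add, Finset.mul_sum]
        have h4 : ((Finset.range (g.natDegree + 1)).erase 1).erase 0 =
            (Finset.range (g.natDegree + 1)).filter (2 ≤ ·) := by
          ext i
          simp only [Finset.mem_erase, Finset.mem_filter, Finset.mem_range]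
          omega
        rw [h4]
        have h5 : ∀ i ∈ (Finset.range (g.natDegree + 1)).filter (2 ≤ ·),
            g.coeff i * θ ^ i = θ * (g.coeff i * θ ^ (i - 1)) := by
          intro i hi
          rw [Finset.mem_filter] at hi
          obtain ⟨j, rfl⟩ : ∃ j, i = j + 1 := ⟨i - 1, by omega⟩
          rw [Nat.add_sub_cancel, pow_succ]
          ring
        rw [Finset.sum_congr rfl h5]
        ring
      rw [← h1, hg]
    have hu := unit_val hk hOge hyp (one_ne_zero (α := k)) hWI
    rw [map_one] at hu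
    have hui : (1 + W)⁻¹ ∈ O := locc_inv _ (O.add_mem O.one_mem
      (hWI.mem fun i => le_locc v _ (hyF i))) hu.1 hu.2
    have h1 : θ = -(g.coeff 0) * (1 + W)⁻¹ := by
      rw [eq_mul_inv_iff_mul_eq₀ hu.1]
      linear_combination hsum
    rw [h1]
    exact (hcoef 0 (by norm_num)).neg.mul hui
  refine ⟨O, y, par_of hk hyF hy0 hyp hyi hFge (fun a ha => ⟨0, ?_⟩) fun f => ?_⟩
  · rw [map_zero, sub_zero]
    rcases Finset.mem_insert.1 ha with rfl | ha
    · exact hθI
    · obtain ⟨i, -, rfl⟩ := Finset.mem_image.1 ha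
      exact MI.of i
  · have hf : f ∈ IntermediateField.adjoin k (Set.range z ∪ {θ}) := by
      rw [htop]; exact IntermediateField.mem_top
    rw [IntermediateField.mem_adjoin_iff_div] at hf
    obtain ⟨r, hr, s, hs, e⟩ := hf
    have hle' : Algebra.adjoin k (Set.range z ∪ {θ}) ≤ Algebra.adjoin k (F : Set K) := by
      refine Algebra.adjoin_le ?_
      rintro x (⟨i, rfl⟩ | hx)
      · exact hle (hzy i)
      · rw [Set.mem_singleton_iff] at hx
        rw [hx]
        exact hθF
    by_cases h0 : s = 0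
    · refine ⟨0, Subalgebra.zero_mem _, 1, Subalgebra.one_mem _, one_ne_zero, ?_⟩
      rw [e, h0, div_zero, zero_div]
    · exact ⟨r, hle' hr, s, hle' hs, h0, e⟩

/-- An Abhyankar valuation with residue field `k` is centred at a regular point of a model of the
function field, with parameters of rationally independent values. -/
theorem exists_par_FF {k : Type} [Field k] {n : ℕ} [CharZero k] (v : ValX k n)
    (hres : v.ResidueFieldIs)
    (hrank : ∃ f : Fin n → FF k n, (∀ i, f i ≠ 0) ∧ LinearIndependent ℚ fun i => v (f i)) :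
    ∃ (O : Subalgebra k (FF k n)) (y : Fin n → FF k n), Par v.toRVal O y := by
  obtain ⟨z, θ, g, h1, h2, h3, -, h4, h5, h6, h7, h8, h9⟩ := exists_hensel v hres hrank
  exact exists_par (v := v.toRVal) (fun c hc => val_algebraMap v hc) h1 h2 h3 h4 h5 h6 h7 h8 h9

end Pool.Agent.JMF
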