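import Pool.Agent.Lib.JMF.QMMin
import Pool.Agent.Lib.JMF.QMDefs

/-!
# The minimum formula at a regular point with parameters of rationally independent values
-/

set_option autoImplicit false

open Finset

namespace Pool.Agent.JMF

open Pool.Agent.H15JM

variable {k K : Type*} [Field k] [Field K] [Algebra k K] {n : ℕ}

/-- The elements of `I^N · R^` are zero in `R / I^N`. -/
theorem eval_eq_zero {R : Type*} [CommRing R] (I : Ideal R) (N : ℕ) {x : AdicCompletion I R}
    (hx : x ∈ (I ^ N).map (algebraMap R (AdicCompletion I R))) :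
    AdicCompletion.evalₐ I N x = 0 := by
  have h1 : (I ^ N).map (algebraMap R (AdicCompletion I R)) ≤
      RingHom.ker (AdicCompletion.evalₐ I N) := by
    rw [Ideal.map_le_iff_le_comap]
    intro a ha
    rw [Ideal.mem_comap, RingHom.mem_ker, AlgHom.commutes]
    exact Ideal.Quotient.eq_zero_iff_mem.2 ha
  exact h1 hx

/-- **The minimum formula.** -/
theorem Par.isLeast_of_isExpansion {v : RVal K} {O : Subalgebra k K} {y : Fin n → K}
    (hP : Par v O y) [IsLocalRing O] (z : Fin n → O) (hz : ∀ i, (z i : K) = y i)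
    (hm : Ideal.span (Set.range z) = IsLocalRing.maximalIdeal O) (f : O) (hf : f ≠ 0)
    (c : (Fin n → ℕ) → AdicCompletion (IsLocalRing.maximalIdeal O) O)
    (hc : ∀ β, c β = 0 ∨ IsUnit (c β)) (h : IsExpansion z c f) :
    IsLeast {t : ℝ | ∃ β : Fin n → ℕ, c β ≠ 0 ∧ t = ∑ i, v (y i) * β i} (v (f : K)) := by
  classical
  obtain ⟨μ, hμ, hμy⟩ := exists_mu (v := v) hP.pos
  have hO : ∀ f ∈ O, v.Ge 0 f := fun f hf h0 => hP.nonneg f hf h0
  have hmge : ∀ x ∈ IsLocalRing.maximalIdeal O, v.Ge μ (x : K) := by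
    rw [← hm]
    exact ge_of_mem_span hO fun i => RVal.Ge.of_le (by rw [hz]; exact hμy i)
  have hpow := ge_of_mem_pow hO hmge
  -- units of `O / m^N` lift to elements of value `0`
  have hlift : ∀ N β, ∃ a : O, AdicCompletion.evalₐ (IsLocalRing.maximalIdeal O) N (c β) = Ideal.Quotient.mk ((IsLocalRing.maximalIdeal O) ^ N) a ∧
      (c β = 0 → a = 0) ∧ (0 < N → c β ≠ 0 → (a : K) ≠ 0 ∧ v (a : K) = 0) := by
    intro N β
    obtain ⟨a, ha⟩ := Ideal.Quotient.mk_surjective (AdicCompletion.evalₐ (IsLocalRing.maximalIdeal O) N (c β))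
    by_cases h0 : c β = 0
    · exact ⟨0, by rw [h0, map_zero, map_zero], fun _ => rfl, fun _ h1 => absurd h0 h1⟩
    refine ⟨a, ha.symm, fun h1 => absurd h1 h0, fun hN _ => ?_⟩
    have hu : IsUnit (Ideal.Quotient.mk ((IsLocalRing.maximalIdeal O) ^ N) a) := by
      rw [ha]
      exact ((hc β).resolve_left h0).map _
    obtain ⟨b', hb'⟩ := hu.exists_right_inv
    obtain ⟨b, rfl⟩ := Ideal.Quotient.mk_surjective b'
    have h1 : a * b - 1 ∈ (IsLocalRing.maximalIdeal O) ^ N := by
      rw [← Ideal.Quotient.eq, map_mul, hb', map_one]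
    have h2 : a * b - 1 ∈ IsLocalRing.maximalIdeal O := Ideal.pow_le_self (by omega) h1
    have h3 := hmge _ h2
    have hab : ((a * b : O) : K) = 1 + ((a * b - 1 : O) : K) := by
      push_cast
      ring
    have hab1 : ((a * b : O) : K) ≠ 0 ∧ v ((a * b : O) : K) = 0 := by
      rw [hab]
      by_cases h4 : ((a * b - 1 : O) : K) = 0
      · rw [h4, add_zero]
        exact ⟨one_ne_zero, v.map_one⟩
      · have h5 := v.add_of_lt one_ne_zero h4 (by
          rw [v.map_one]
          exact lt_of_lt_of_le hμ (h3 h4))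
        exact ⟨h5.1, h5.2.trans v.map_one⟩
    have h6 : ((a * b : O) : K) = (a : K) * b := rfl
    rw [h6] at hab1
    have ha0 := left_ne_zero_of_mul hab1.1
    have hb0 := right_ne_zero_of_mul hab1.1
    refine ⟨ha0, ?_⟩
    have h7 := hab1.2
    rw [v.map_mul ha0 hb0] at h7
    have h8 := hP.nonneg a a.2 ha0
    have h9 := hP.nonneg b b.2 hb0
    linarith
  choose a ha ha0 hau using hlift
  have key := isLeast_of_expansion (v := v) hP.ne hP.ind hμ hμy (f := (f : K))
    (fun h0 => hf (Subtype.ext h0)) {β | c β ≠ 0} (fun N => by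
      rcases Nat.eq_zero_or_pos N with rfl | hN
      · refine ⟨∅, fun _ => 0, fun β _ => Nat.zero_le _, fun β hβ => absurd hβ (by simp),
          fun β hβ => absurd hβ (by simp), ?_⟩
        rw [Finset.sum_empty, sub_zero, Nat.cast_zero, zero_mul]
        exact hO f f.2
      refine ⟨(Finset.range N).biUnion fun d => Finset.piAntidiag Finset.univ d,
        fun β => (a N β : K), ?_, ?_, ?_, ?_⟩
      · intro β hβ
        by_contra hcon
        push Not at hcon
        refine hβ (Finset.mem_biUnion.2 ⟨∑ i, β i, Finset.mem_range.2 hcon, ?_⟩)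
        rw [Finset.mem_piAntidiag]
        exact ⟨rfl, fun i _ => Finset.mem_univ i⟩
      · intro β _ hβ
        exact hau N β hN hβ
      · intro β _ hβ
        have h1 : a N β = 0 := ha0 N β (by
          by_contra h2
          exact hβ h2)
        exact congrArg Subtype.val h1
      · have h1 := eval_eq_zero (IsLocalRing.maximalIdeal O) N (h N)
        have h2 : f - ∑ d ∈ Finset.range N, ∑ β ∈ Finset.piAntidiag Finset.univ d,
            a N β * ∏ i, z i ^ β i ∈ (IsLocalRing.maximalIdeal O) ^ N := by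
          rw [← Ideal.Quotient.eq_zero_iff_mem]
          rw [map_sub, map_sum, AlgHom.commutes] at h1
          rw [map_sub, map_sum, ← h1]
          congr 1
          refine Finset.sum_congr rfl fun d _ => ?_
          rw [map_sum, map_sum]
          refine Finset.sum_congr rfl fun β _ => ?_
          rw [map_mul, map_mul, ← ha, AlgHom.commutes]
          rfl
        have h3 := hpow N _ h2
        have h4 : ((f - ∑ d ∈ Finset.range N, ∑ β ∈ Finset.piAntidiag Finset.univ d,
            a N β * ∏ i, z i ^ β i : O) : K) = (f : K) - ∑ β ∈ (Finset.range N).biUnion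
              fun d => Finset.piAntidiag Finset.univ d, (a N β : K) * ∏ i, y i ^ β i := by
          rw [Finset.sum_biUnion]
          · push_cast
            simp only [hz]
          · intro d _ d' _ hdd
            rw [Function.onFun, Finset.disjoint_left]
            intro β h5 h6
            rw [Finset.mem_piAntidiag] at h5 h6
            exact hdd (h5.1.symm.trans h6.1)
        rwa [h4] at h3)
  have hset : {t : ℝ | ∃ β : Fin n → ℕ, c β ≠ 0 ∧ t = ∑ i, v (y i) * β i} =
      {t | ∃ β ∈ {β | c β ≠ 0}, t = ∑ i, (β i : ℝ) * v (y i)} := by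
    ext t
    have h1 : ∀ β : Fin n → ℕ, ∑ i, v (y i) * (β i : ℝ) = ∑ i, (β i : ℝ) * v (y i) := fun β =>
      Finset.sum_congr rfl fun i _ => mul_comm _ _
    constructor
    · rintro ⟨β, h2, h3⟩
      exact ⟨β, h2, h3.trans (h1 β)⟩
    · rintro ⟨β, h2, h3⟩
      exact ⟨β, h2, h3.trans (h1 β).symm⟩
  rw [hset]
  exact key

end Pool.Agent.JMF
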