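import Pool.Agent.Lib.JMF.QMCrit

/-!
# The value of a power series in parameters of rationally independent values
-/

set_option autoImplicit false

open Finset

namespace Pool.Agent.JMF

open Pool.Agent.H15JM

variable {K : Type*} [Field K] {n : ℕ}

/-- Distinct monomials have distinct values. -/
theorem wt_inj {v : RVal K} {y : Fin n → K} (hind : LinearIndependent ℚ fun i => v (y i))
    {β β' : Fin n → ℕ} (h : ∑ i, (β i : ℝ) * v (y i) = ∑ i, (β' i : ℝ) * v (y i)) : β = β' := by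
  rw [Fintype.linearIndependent_iff] at hind
  have h1 := hind (fun i => ((β i : ℚ) - β' i)) (by
    have h2 : ∑ i, ((β i : ℚ) - β' i) • v (y i) =
        ∑ i, (β i : ℝ) * v (y i) - ∑ i, (β' i : ℝ) * v (y i) := by
      rw [← Finset.sum_sub_distrib]
      refine Finset.sum_congr rfl fun i _ => ?_
      rw [Rat.smul_def]
      push_cast
      ring
    rw [h2, h, sub_self])
  funext i
  have h3 := h1 i
  have h4 : (β i : ℚ) = β' i := by linarith
  exact_mod_cast h4

theorem wt_val {v : RVal K} {y : Fin n → K} (hy : ∀ i, y i ≠ 0) (β : Fin n → ℕ) :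
    (∏ i, y i ^ β i) ≠ 0 ∧ v (∏ i, y i ^ β i) = ∑ i, (β i : ℝ) * v (y i) := by
  have h0 : ∀ i ∈ (Finset.univ : Finset (Fin n)), y i ^ β i ≠ 0 := fun i _ => pow_ne_zero _ (hy i)
  refine ⟨Finset.prod_ne_zero_iff.2 h0, ?_⟩
  rw [v.map_prod _ _ h0]
  exact Finset.sum_congr rfl fun i _ => v.map_pow (hy i) _

/-- **The minimum formula.** `f` has, modulo elements of arbitrarily high value, expansions with
coefficients which are units exactly at the exponents in `S` and zero elsewhere: then `v f` is the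
least value of the monomials with exponents in `S`. -/
theorem isLeast_of_expansion {v : RVal K} {y : Fin n → K} (hy : ∀ i, y i ≠ 0)
    (hind : LinearIndependent ℚ fun i => v (y i)) {μ : ℝ} (hμ : 0 < μ)
    (hμy : ∀ i, μ ≤ v (y i)) {f : K} (hf : f ≠ 0) (S : Set (Fin n → ℕ))
    (h : ∀ N : ℕ, ∃ (B : Finset (Fin n → ℕ)) (c : (Fin n → ℕ) → K),
      (∀ β, β ∉ B → N ≤ ∑ i, β i) ∧ (∀ β ∈ B, β ∈ S → c β ≠ 0 ∧ v (c β) = 0) ∧
      (∀ β ∈ B, β ∉ S → c β = 0) ∧ v.Ge (N * μ) (f - ∑ β ∈ B, c β * ∏ i, y i ^ β i)) :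
    IsLeast {t | ∃ β ∈ S, t = ∑ i, (β i : ℝ) * v (y i)} (v f) := by
  classical
  obtain ⟨N, hN⟩ := exists_nat_gt (v f / μ)
  rw [div_lt_iff₀ hμ] at hN
  obtain ⟨B, c, hB, hc, hc0, hrem⟩ := h N
  set w : (Fin n → ℕ) → ℝ := fun β => ∑ i, (β i : ℝ) * v (y i) with hw
  set T := B.filter (· ∈ S) with hT
  have hval : ∀ β ∈ T, c β * ∏ i, y i ^ β i ≠ 0 ∧ v (c β * ∏ i, y i ^ β i) = w β := by
    intro β hβ
    obtain ⟨h1, h2⟩ := Finset.mem_filter.1 hβ
    obtain ⟨h3, h4⟩ := hc β h1 h2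
    obtain ⟨h5, h6⟩ := wt_val (v := v) hy β
    exact ⟨mul_ne_zero h3 h5, by rw [v.map_mul h3 h5, h4, h6, zero_add]⟩
  have hsum : ∑ β ∈ B, c β * ∏ i, y i ^ β i = ∑ β ∈ T, c β * ∏ i, y i ^ β i := by
    rw [hT, Finset.sum_filter]
    refine Finset.sum_congr rfl fun β hβ => ?_
    by_cases h1 : β ∈ S
    · rw [if_pos h1]
    · rw [if_neg h1, hc0 β hβ h1, zero_mul]
  rw [hsum] at hrem
  have hne : T.Nonempty := by
    rw [Finset.nonempty_iff_ne_empty]
    intro h0
    rw [h0, Finset.sum_empty, sub_zero] at hrem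
    exact absurd (hrem hf) (not_le.2 hN)
  obtain ⟨β₀, hβ₀, hmin⟩ := Finset.exists_min_image T w hne
  have hlt : w β₀ < N * μ := by
    by_contra hcon
    push Not at hcon
    have h1 : v.Ge (N * μ) (∑ β ∈ T, c β * ∏ i, y i ^ β i) := RVal.Ge.sum _ _ fun β hβ =>
      RVal.Ge.of_le (by rw [(hval β hβ).2]; exact hcon.trans (hmin β hβ))
    have h2 := hrem.add h1
    rw [sub_add_cancel] at h2
    exact absurd (h2 hf) (not_le.2 hN)
  -- the rest
  obtain ⟨d, hd, hd'⟩ : ∃ d : ℝ, w β₀ < d ∧ (∀ β ∈ T.erase β₀, d ≤ w β) ∧ d ≤ N * μ := by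
    refine ⟨(insert (N * μ) ((T.erase β₀).image w)).min' (Finset.insert_nonempty _ _), ?_, ?_, ?_⟩
    · rw [Finset.lt_min'_iff]
      intro x hx
      rcases Finset.mem_insert.1 hx with rfl | hx
      · exact hlt
      · obtain ⟨β, hβ, rfl⟩ := Finset.mem_image.1 hx
        obtain ⟨h1, h2⟩ := Finset.mem_erase.1 hβ
        exact lt_of_le_of_ne (hmin β h2) fun h3 => h1 (wt_inj hind h3).symm
    · intro β hβ
      exact Finset.min'_le _ _ (Finset.mem_insert_of_mem (Finset.mem_image_of_mem _ hβ))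
    · exact Finset.min'_le _ _ (Finset.mem_insert_self _ _)
  have hrest : v.Ge d (f - c β₀ * ∏ i, y i ^ β₀ i) := by
    have h1 : v.Ge d (∑ β ∈ T.erase β₀, c β * ∏ i, y i ^ β i) := RVal.Ge.sum _ _ fun β hβ =>
      RVal.Ge.of_le (by
        rw [(hval β (Finset.mem_of_mem_erase hβ)).2]
        exact hd'.1 β hβ)
    have h2 := (hrem.mono hd'.2).add h1
    have h3 : f - ∑ β ∈ T, c β * ∏ i, y i ^ β i + ∑ β ∈ T.erase β₀, c β * ∏ i, y i ^ β i =
        f - c β₀ * ∏ i, y i ^ β₀ i := by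
      rw [← Finset.add_sum_erase _ _ hβ₀]
      ring
    rwa [h3] at h2
  have hvf : v f = w β₀ := by
    by_cases h0 : f - c β₀ * ∏ i, y i ^ β₀ i = 0
    · rw [sub_eq_zero.1 h0]
      exact (hval β₀ hβ₀).2
    · have h1 := v.add_of_lt (hval β₀ hβ₀).1 h0 (by
        rw [(hval β₀ hβ₀).2]
        exact lt_of_lt_of_le hd (hrest h0))
      rw [add_sub_cancel] at h1
      rw [h1.2, (hval β₀ hβ₀).2]
  refine ⟨⟨β₀, (Finset.mem_filter.1 hβ₀).2, hvf⟩, ?_⟩
  rintro _ ⟨β, hβ, rfl⟩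
  by_cases h1 : β ∈ B
  · rw [hvf]
    exact hmin β (Finset.mem_filter.2 ⟨h1, hβ⟩)
  · have h2 : (N : ℝ) * μ ≤ ∑ i, (β i : ℝ) * v (y i) := by
      have h3 : ((N : ℕ) : ℝ) ≤ ∑ i, (β i : ℝ) := by exact_mod_cast hB β h1
      calc (N : ℝ) * μ ≤ (∑ i, (β i : ℝ)) * μ := mul_le_mul_of_nonneg_right h3 hμ.le
        _ = ∑ i, (β i : ℝ) * μ := Finset.sum_mul _ _ _
        _ ≤ ∑ i, (β i : ℝ) * v (y i) := Finset.sum_le_sum fun i _ =>
          mul_le_mul_of_nonneg_left (hμy i) (Nat.cast_nonneg _)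
    exact hN.le.trans h2

/-- A positive lower bound of the values of the parameters. -/
theorem exists_mu {v : RVal K} {y : Fin n → K} (hpos : ∀ i, 0 < v (y i)) :
    ∃ μ : ℝ, 0 < μ ∧ ∀ i, μ ≤ v (y i) := by
  classical
  refine ⟨(insert 1 (Finset.univ.image fun i => v (y i))).min' (Finset.insert_nonempty _ _), ?_,
    fun i => Finset.min'_le _ _ (Finset.mem_insert_of_mem
      (Finset.mem_image_of_mem _ (Finset.mem_univ i)))⟩
  rw [Finset.lt_min'_iff]
  intro x hx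
  rcases Finset.mem_insert.1 hx with rfl | hx
  · exact one_pos
  · obtain ⟨i, -, rfl⟩ := Finset.mem_image.1 hx
    exact hpos i

/-- The values on the powers of an ideal. -/
theorem ge_of_mem_pow {k : Type*} [Field k] [Algebra k K] {v : RVal K} {O : Subalgebra k K}
    (hO : ∀ f ∈ O, v.Ge 0 f) {I : Ideal O} {μ : ℝ} (hI : ∀ x ∈ I, v.Ge μ (x : K)) (N : ℕ) :
    ∀ x ∈ I ^ N, v.Ge (N * μ) (x : K) := by
  induction N with
  | zero =>
    intro x _
    rw [Nat.cast_zero, zero_mul]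
    exact hO x x.2
  | succ N ih =>
    intro x hx
    rw [pow_succ] at hx
    induction hx using Submodule.mul_induction_on' with
    | mem_mul_mem a ha b hb =>
      have h1 := (ih a ha).mul (hI b hb)
      have h2 : ((N + 1 : ℕ) : ℝ) * μ = N * μ + μ := by push_cast; ring
      rw [h2]
      exact h1
    | add a _ b _ ha hb => exact ha.add hb

/-- The values on the ideal generated by the parameters. -/
theorem ge_of_mem_span {k : Type*} [Field k] [Algebra k K] {v : RVal K} {O : Subalgebra k K}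
    (hO : ∀ f ∈ O, v.Ge 0 f) {y : Fin n → O} {μ : ℝ} (hy : ∀ i, v.Ge μ (y i : K)) :
    ∀ x ∈ Ideal.span (Set.range y), v.Ge μ (x : K) := by
  intro x hx
  induction hx using Submodule.span_induction with
  | mem x hx =>
    obtain ⟨i, rfl⟩ := hx
    exact hy i
  | zero => exact RVal.Ge.zero
  | add a b _ _ ha hb => exact ha.add hb
  | smul a x _ hx =>
    have h1 := (hO a a.2).mul hx
    rw [zero_add] at h1
    exact h1

end Pool.Agent.JMF
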