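import Pool.Agent.Lib.JMF.QMFin
import Pool.Agent.Lib.JMF.QMDim
import Pool.Agent.Lib.JMF.QMLeast

/-!
# Valuations of rational rank `n` with residue field `k` are quasi-monomial
-/

set_option autoImplicit false

open MvPolynomial

namespace Pool.Agent.JMF

open Pool.Agent.H15JM

variable {k : Type} [Field k] {n : ℕ}

/-- The valuation is monomial at a regular point with parameters of rationally independent
values. -/
theorem isMonomialAt_of_par (v : ValX k n) (hres : v.ResidueFieldIs) {O : Subalgebra k (FF k n)}
    {y : Fin n → FF k n} (hP : Par v.toRVal O y) : IsMonomialAt v.toRVal O := by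
  obtain ⟨hreg, hdim⟩ := hP.regular v hres
  refine ⟨hreg, n, hP.par, fun i => v (y i), hdim, hP.maximalIdeal_eq.symm,
    fun i => (hP.pos i).le, fun f hf c hc h => ?_⟩
  exact hP.isLeast_of_isExpansion hP.par (fun _ => rfl) hP.maximalIdeal_eq.symm f hf c hc h

/-- A valuation centred at a regular point above affine space with parameters of rationally
independent values is quasi-monomial. -/
theorem qm_of_par (v : ValX k n) (hres : v.ResidueFieldIs) {O : Subalgebra k (FF k n)}
    {y : Fin n → FF k n} (hP : Par v.toRVal O y) (hX : ∀ i, toFF (X i) ∈ O) :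
    IsQuasiMonomial v := by
  obtain ⟨I, g, hI, hg, hg0, hmin, hO⟩ := exists_blowup v hP hX
  refine ⟨I, g, hI, hg, hg0, hmin, ?_⟩
  rw [← hO]
  exact isMonomialAt_of_par v hres hP

/-- **A valuation of rational rank `n` with residue field `k` is quasi-monomial.** -/
theorem isQuasiMonomial_of_rank [CharZero k] (v : ValX k n) (hres : v.ResidueFieldIs)
    (hrank : ∃ f : Fin n → FF k n, (∀ i, f i ≠ 0) ∧ LinearIndependent ℚ fun i => v (f i)) :
    IsQuasiMonomial v := by
  obtain ⟨O, y, hP, hX⟩ := exists_par_X v hres hrank
  exact qm_of_par v hres hP hX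

end Pool.Agent.JMF
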