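import Pool.Agent.Lib.JM_H15.Defs

/-!
# Regular points of birational models centred at a valuation: the structure `Par`

`v` a real valuation of a field `K` over `k`.  `Par v O y`: `O` is the local ring, at the centre of
`v`, of a finitely generated `k`-algebra with field of fractions `K`; its residue field is `k`, its
maximal ideal is generated by `y_1, …, y_n`, and the values of the `y_i` are positive and rationally
independent.
-/

set_option autoImplicit false

open Finset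

namespace Pool.Agent.JMF

open Pool.Agent.H15JM

variable {k K : Type*} [Field k] [Field K] [Algebra k K]

/-- The localisation of `A` at the centre of `v`: the quotients `a / b`, `a, b ∈ A`, `v b = 0`. -/
def locc (v : RVal K) (A : Subalgebra k K) : Subalgebra k K where
  carrier := {f | ∃ a ∈ A, ∃ b ∈ A, b ≠ 0 ∧ v b = 0 ∧ f = a / b}
  mul_mem' := by
    rintro _ _ ⟨a, ha, b, hb, hb0, hvb, rfl⟩ ⟨a', ha', b', hb', hb0', hvb', rfl⟩
    refine ⟨a * a', A.mul_mem ha ha', b * b', A.mul_mem hb hb', mul_ne_zero hb0 hb0', ?_, ?_⟩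
    · rw [v.map_mul hb0 hb0', hvb, hvb', add_zero]
    · rw [div_mul_div_comm]
  add_mem' := by
    rintro _ _ ⟨a, ha, b, hb, hb0, hvb, rfl⟩ ⟨a', ha', b', hb', hb0', hvb', rfl⟩
    refine ⟨a * b' + b * a', A.add_mem (A.mul_mem ha hb') (A.mul_mem hb ha'), b * b',
      A.mul_mem hb hb', mul_ne_zero hb0 hb0', ?_, ?_⟩
    · rw [v.map_mul hb0 hb0', hvb, hvb', add_zero]
    · rw [div_add_div _ _ hb0 hb0']
  algebraMap_mem' := fun c => ⟨algebraMap k K c, A.algebraMap_mem c, 1, A.one_mem, one_ne_zero,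
    v.map_one, by rw [div_one]⟩

theorem mem_locc {v : RVal K} {A : Subalgebra k K} {f : K} :
    f ∈ locc v A ↔ ∃ a ∈ A, ∃ b ∈ A, b ≠ 0 ∧ v b = 0 ∧ f = a / b := Iff.rfl

theorem le_locc (v : RVal K) (A : Subalgebra k K) : A ≤ locc v A := fun a ha =>
  ⟨a, ha, 1, A.one_mem, one_ne_zero, v.map_one, by rw [div_one]⟩

/-- A regular point of a model, with parameters of rationally independent values. -/
structure Par (v : RVal K) {n : ℕ} (O : Subalgebra k K) (y : Fin n → K) : Prop where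
  mem : ∀ i, y i ∈ O
  ne : ∀ i, y i ≠ 0
  pos : ∀ i, 0 < v (y i)
  ind : LinearIndependent ℚ fun i => v (y i)
  nonneg : ∀ f ∈ O, f ≠ 0 → 0 ≤ v f
  loc : ∀ f ∈ O, f ≠ 0 → v f = 0 → f⁻¹ ∈ O
  res : ∀ f ∈ O, ∃ c : k, f = algebraMap k K c ∨ 0 < v (f - algebraMap k K c)
  gen : ∀ f ∈ O, (f ≠ 0 → 0 < v f) → ∃ b : Fin n → K, (∀ i, b i ∈ O) ∧ f = ∑ i, y i * b i
  frac : ∀ f : K, ∃ a ∈ O, ∃ b ∈ O, b ≠ 0 ∧ f = a / b
  fgen : ∃ F : Finset K, O = locc v (Algebra.adjoin k (F : Set K))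

end Pool.Agent.JMF
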